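import Mathlib
import Pool.Agent.Lib.MP_938ce2_ag_h65.LO

/-!
The distribution of a sum of `r` signs.
-/

set_option autoImplicit false
set_option linter.unusedSectionVars false

namespace Pool.Agent.Lib.MP_938ce2_ag_h65u

open Finset

/-- the sum of signs given by a subset of `Fin r` -/
def sv {r : ℕ} (u : Finset (Fin r)) : ℤ := 2 * u.card - r

lemma sv_le {r : ℕ} (u : Finset (Fin r)) : (sv u).natAbs ≤ r := by
  have h : u.card ≤ r := by
    have := Finset.card_le_univ u
    rwa [Fintype.card_fin] at this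
  unfold sv
  omega

lemma choose_le_real (r k : ℕ) (hr : 1 ≤ r) : (r.choose k : ℝ) ≤ 2 ^ r * (r : ℝ) ^ (-(1 / 2 : ℝ)) := by
  have h1 : r.choose k ≤ r.choose (r / 2) := Nat.choose_le_middle k r
  have h2 := Pool.Agent.Lib.MP_938ce2_ag_h65.choose_half_sq_le r
  have hr0 : (0 : ℝ) < r := by exact_mod_cast hr
  have h3 : ((r.choose (r / 2) : ℕ) : ℝ) ^ 2 * (3 * r + 2) ≤ 2 * 4 ^ r := by exact_mod_cast h2
  have h4 : ((r.choose (r / 2) : ℕ) : ℝ) ^ 2 * r ≤ 4 ^ r := by
    nlinarith [sq_nonneg ((r.choose (r / 2) : ℕ) : ℝ), h3]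
  have h5 : (2 : ℝ) ^ r * (r : ℝ) ^ (-(1 / 2 : ℝ)) = Real.sqrt (4 ^ r / r) := by
    rw [Real.sqrt_div (by positivity), Real.rpow_neg hr0.le, ← Real.sqrt_eq_rpow, div_eq_mul_inv]
    congr 1
    rw [show (4 : ℝ) ^ r = (2 ^ r) ^ 2 by rw [← pow_mul, mul_comm, pow_mul]; norm_num,
      Real.sqrt_sq (by positivity)]
  rw [h5]
  apply Real.le_sqrt_of_sq_le
  rw [le_div_iff₀ hr0]
  have h6 : ((r.choose k : ℕ) : ℝ) ≤ ((r.choose (r / 2) : ℕ) : ℝ) := by exact_mod_cast h1
  have h7 : ((r.choose k : ℕ) : ℝ) ^ 2 ≤ ((r.choose (r / 2) : ℕ) : ℝ) ^ 2 :=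
    pow_le_pow_left₀ (by positivity) h6 2
  calc ((r.choose k : ℕ) : ℝ) ^ 2 * r ≤ ((r.choose (r / 2) : ℕ) : ℝ) ^ 2 * r :=
        mul_le_mul_of_nonneg_right h7 hr0.le
    _ ≤ 4 ^ r := h4

lemma sum_exp_sv (r : ℕ) (l : ℝ) :
    ∑ u : Finset (Fin r), Real.exp (l * sv u) = (2 * Real.cosh l) ^ r := by
  have h1 : ∀ u : Finset (Fin r), Real.exp (l * sv u)
      = Real.exp l ^ u.card * Real.exp (-l) ^ (r - u.card) := by
    intro u
    have h : u.card ≤ r := by
      have := Finset.card_le_univ u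
      rwa [Fintype.card_fin] at this
    rw [← Real.exp_nat_mul, ← Real.exp_nat_mul, ← Real.exp_add]
    congr 1
    unfold sv
    rw [Nat.cast_sub h]
    push_cast
    ring
  rw [Finset.sum_congr rfl fun u _ => h1 u]
  have h2 := Finset.sum_pow_mul_eq_add_pow (Real.exp l) (Real.exp (-l)) (Finset.univ : Finset (Fin r))
  rw [Finset.powerset_univ, Finset.card_univ, Fintype.card_fin] at h2
  rw [h2, Real.cosh_eq]
  congr 1
  ring

/-- a large deviation bound -/
lemma card_tail_le (r R : ℕ) (hr : 1 ≤ r) :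
    (((Finset.univ : Finset (Finset (Fin r))).filter fun u => R < (sv u).natAbs).card : ℝ)
      ≤ 2 * 2 ^ r * Real.exp (-((R : ℝ) ^ 2 / (2 * r))) := by
  classical
  have hr0 : (0 : ℝ) < r := by exact_mod_cast hr
  have key : ∀ σ : ℤ, σ = 1 ∨ σ = -1 →
      (((Finset.univ : Finset (Finset (Fin r))).filter fun u => (R : ℤ) < σ * sv u).card : ℝ)
      ≤ 2 ^ r * Real.exp (-((R : ℝ) ^ 2 / (2 * r))) := by
    intro σ hσ
    set l : ℝ := R / r with hl
    have hl0 : 0 ≤ l := by positivity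
    have h1 : ∑ u : Finset (Fin r), Real.exp ((σ * l) * sv u) ≤ 2 ^ r * Real.exp (l ^ 2 * r / 2) := by
      rw [sum_exp_sv, mul_pow]
      apply mul_le_mul_of_nonneg_left _ (by positivity)
      have h2 : Real.cosh (σ * l) ≤ Real.exp (l ^ 2 / 2) := by
        have := Real.cosh_le_exp_half_sq (σ * l)
        refine this.trans (le_of_eq ?_)
        congr 1
        rcases hσ with rfl | rfl <;> push_cast <;> ring
      calc Real.cosh (σ * l) ^ r ≤ Real.exp (l ^ 2 / 2) ^ r :=
            pow_le_pow_left₀ (Real.cosh_pos _).le h2 r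
        _ = Real.exp (l ^ 2 * r / 2) := by
            rw [← Real.exp_nat_mul]
            congr 1
            ring
    have h3 : (((Finset.univ : Finset (Finset (Fin r))).filter
        fun u => (R : ℤ) < σ * sv u).card : ℝ) * Real.exp (l * R)
        ≤ ∑ u : Finset (Fin r), Real.exp ((σ * l) * sv u) := by
      rw [← nsmul_eq_mul, ← Finset.sum_const]
      refine le_trans (Finset.sum_le_sum (g := fun u => Real.exp ((σ * l) * sv u)) ?_)
        (Finset.sum_le_sum_of_subset_of_nonneg (Finset.filter_subset _ _)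
          fun _ _ _ => (Real.exp_pos _).le)
      intro u hu
      apply Real.exp_le_exp.mpr
      have h4 : (R : ℤ) < σ * sv u := (Finset.mem_filter.mp hu).2
      have h5 : (R : ℝ) ≤ σ * sv u := by exact_mod_cast h4.le
      calc l * R ≤ l * (σ * sv u) := mul_le_mul_of_nonneg_left h5 hl0
        _ = (σ * l) * sv u := by ring
    have h6 := h3.trans h1
    rw [← le_div_iff₀ (Real.exp_pos _), mul_div_assoc, ← Real.exp_sub] at h6
    refine h6.trans (le_of_eq ?_)
    congr 2
    rw [hl]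
    field_simp
    ring
  have hsub : ((Finset.univ : Finset (Finset (Fin r))).filter fun u => R < (sv u).natAbs)
      ⊆ ((Finset.univ : Finset (Finset (Fin r))).filter fun u => (R : ℤ) < 1 * sv u) ∪
        ((Finset.univ : Finset (Finset (Fin r))).filter fun u => (R : ℤ) < -1 * sv u) := by
    intro u hu
    have h := (Finset.mem_filter.mp hu).2
    rw [Finset.mem_union, Finset.mem_filter, Finset.mem_filter]
    have : (R : ℤ) < sv u ∨ (R : ℤ) < - sv u := by omega
    rcases this with h | h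
    · exact Or.inl ⟨Finset.mem_univ _, by simpa using h⟩
    · exact Or.inr ⟨Finset.mem_univ _, by simpa using h⟩
  have h1 := (Finset.card_le_card hsub).trans (Finset.card_union_le _ _)
  have h2 : (((Finset.univ : Finset (Finset (Fin r))).filter fun u => R < (sv u).natAbs).card : ℝ)
      ≤ (((Finset.univ : Finset (Finset (Fin r))).filter fun u => (R : ℤ) < 1 * sv u).card : ℝ)
        + (((Finset.univ : Finset (Finset (Fin r))).filter fun u => (R : ℤ) < -1 * sv u).card : ℝ) := by
    exact_mod_cast h1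
  have h3 := key 1 (Or.inl rfl)
  have h4 := key (-1) (Or.inr rfl)
  linarith

end Pool.Agent.Lib.MP_938ce2_ag_h65u
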