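import Mathlib

/-!
Points of a conic over an order of an imaginary quadratic field (or of any quadratic field) in a box.
-/

set_option autoImplicit false
set_option linter.unusedSectionVars false

namespace Pool.Agent.Lib.MP_938ce2_ag_h65u

open QuadraticAlgebra

/-- the norm is anisotropic -/
class Aniso (a b : ℤ) : Prop where
  out : ∀ z : QuadraticAlgebra ℤ a b, norm z = 0 → z = 0

variable {a b : ℤ} [Aniso a b]

instance : NoZeroDivisors (QuadraticAlgebra ℤ a b) where
  eq_zero_or_eq_zero_of_mul_eq_zero := by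
    intro x y h
    have h1 : norm x * norm y = 0 := by rw [← map_mul, h, QuadraticAlgebra.norm_zero]
    rcases mul_eq_zero.mp h1 with h | h
    · exact Or.inl (Aniso.out x h)
    · exact Or.inr (Aniso.out y h)

instance : Nontrivial (QuadraticAlgebra ℤ a b) :=
  ⟨⟨0, 1, fun h => by simpa using congrArg QuadraticAlgebra.re h⟩⟩

instance : IsDomain (QuadraticAlgebra ℤ a b) := NoZeroDivisors.to_isDomain _

/-- a quadratic equation has at most two integral roots -/
lemma card_quadratic_le (c2 c1 c0 : ℤ) (h2 : c2 ≠ 0) (s : Finset ℤ)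
    (hs : ∀ t ∈ s, c2 * t ^ 2 + c1 * t + c0 = 0) : s.card ≤ 2 := by
  classical
  let p : Polynomial ℤ := Polynomial.C c2 * Polynomial.X ^ 2 + Polynomial.C c1 * Polynomial.X
    + Polynomial.C c0
  have hdeg : p.natDegree = 2 := Polynomial.natDegree_quadratic h2
  have hp : p ≠ 0 := by
    intro h
    rw [h, Polynomial.natDegree_zero] at hdeg
    omega
  have hsub : s ⊆ p.roots.toFinset := by
    intro t ht
    rw [Multiset.mem_toFinset, Polynomial.mem_roots hp, Polynomial.IsRoot.def]
    simp only [p, Polynomial.eval_add, Polynomial.eval_mul, Polynomial.eval_C, Polynomial.eval_pow,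
      Polynomial.eval_X]
    exact hs t ht
  calc s.card ≤ p.roots.toFinset.card := Finset.card_le_card hsub
    _ ≤ Multiset.card p.roots := Multiset.toFinset_card_le _
    _ ≤ p.natDegree := Polynomial.card_roots' p
    _ = 2 := hdeg

/-- the box of side `2R+1` around `c` -/
noncomputable def box (c : QuadraticAlgebra ℤ a b) (R : ℕ) : Finset (QuadraticAlgebra ℤ a b) :=
  (Finset.Icc (c.re - R) (c.re + R) ×ˢ Finset.Icc (c.im - R) (c.im + R)).map
    (equivProd a b).symm.toEmbedding

lemma mem_box (c : QuadraticAlgebra ℤ a b) (R : ℕ) (x : QuadraticAlgebra ℤ a b) :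
    x ∈ box c R ↔ (c.re - R ≤ x.re ∧ x.re ≤ c.re + R) ∧ (c.im - R ≤ x.im ∧ x.im ≤ c.im + R) := by
  unfold box
  rw [Finset.mem_map_equiv, Finset.mem_product, Finset.mem_Icc, Finset.mem_Icc]
  rfl

lemma card_box (c : QuadraticAlgebra ℤ a b) (R : ℕ) : (box c R).card = (2 * R + 1) ^ 2 := by
  unfold box
  rw [Finset.card_map, Finset.card_product, Int.card_Icc, Int.card_Icc, sq]
  congr 1 <;> omega

/-- the number of points of a box with a given norm, after an affine substitution -/
lemma card_norm_le (c : QuadraticAlgebra ℤ a b) (R : ℕ) (A α : QuadraticAlgebra ℤ a b) (hA : A ≠ 0)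
    (ν : ℤ) : ((box c R).filter fun x => norm (A * x - α) = ν).card ≤ 2 * (2 * R + 1) := by
  classical
  set s := (box c R).filter fun x => norm (A * x - α) = ν with hs
  have himg : (s.image fun x => x.re).card ≤ 2 * R + 1 := by
    refine (Finset.card_le_card (t := Finset.Icc (c.re - R) (c.re + R)) ?_).trans ?_
    · intro t ht
      obtain ⟨x, hx, rfl⟩ := Finset.mem_image.mp ht
      have := ((mem_box c R x).mp (Finset.mem_filter.mp hx).1).1
      exact Finset.mem_Icc.mpr this
    · rw [Int.card_Icc]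
      omega
  refine (Finset.card_le_mul_card_image s 2 (f := fun x => x.re) ?_).trans
    (Nat.mul_le_mul_left 2 himg)
  intro t _
  -- the points with real part `t`
  have hω : norm (A * ⟨0, 1⟩ : QuadraticAlgebra ℤ a b) ≠ 0 := by
    intro h
    rcases mul_eq_zero.mp (Aniso.out _ h) with h | h
    · exact hA h
    · have := congrArg QuadraticAlgebra.im h
      simp at this
  have hinj : Set.InjOn (fun x : QuadraticAlgebra ℤ a b => x.im) (s.filter fun x => x.re = t) := by
    intro x hx y hy hxy
    have hx' := (Finset.mem_filter.mp hx).2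
    have hy' := (Finset.mem_filter.mp hy).2
    ext
    · rw [hx', hy']
    · exact hxy
  rw [← Finset.card_image_of_injOn hinj]
  refine card_quadratic_le (norm (A * ⟨0, 1⟩ : QuadraticAlgebra ℤ a b))
    (2 * (A * ⟨t, 0⟩ - α).re * (A * ⟨0, 1⟩ : QuadraticAlgebra ℤ a b).re
      + b * ((A * ⟨t, 0⟩ - α).re * (A * ⟨0, 1⟩ : QuadraticAlgebra ℤ a b).im
        + (A * ⟨t, 0⟩ - α).im * (A * ⟨0, 1⟩ : QuadraticAlgebra ℤ a b).re)
      - 2 * a * (A * ⟨t, 0⟩ - α).im * (A * ⟨0, 1⟩ : QuadraticAlgebra ℤ a b).im)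
    (norm (A * ⟨t, 0⟩ - α) - ν) hω _ ?_
  intro u hu
  obtain ⟨x, hx, rfl⟩ := Finset.mem_image.mp hu
  obtain ⟨hx1, hx2⟩ := Finset.mem_filter.mp hx
  have hx3 := (Finset.mem_filter.mp hx1).2
  rw [← hx3]
  obtain ⟨r, u⟩ := x
  simp only at hx2
  subst hx2
  simp only [norm_def, re_sub, im_sub, re_mul, im_mul]
  ring

/-- the number of points of a nondegenerate conic in a box -/
lemma card_conic_le (c c' : QuadraticAlgebra ℤ a b) (R : ℕ) (A α κ θ : QuadraticAlgebra ℤ a b)
    (hA : A ≠ 0) (hθ : θ ≠ 0) :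
    (((box c R) ×ˢ (box c' R)).filter fun p => (A * p.1 - α) * (A * p.2 - κ) = θ).card
      ≤ 4 * (2 * R + 1) * (norm θ).natAbs.divisors.card := by
  classical
  set s := ((box c R) ×ˢ (box c' R)).filter fun p => (A * p.1 - α) * (A * p.2 - κ) = θ with hs
  have hnθ : norm θ ≠ 0 := fun h => hθ (Aniso.out _ h)
  have hne : ∀ p ∈ s, A * p.1 - α ≠ 0 := by
    intro p hp h
    have := (Finset.mem_filter.mp hp).2
    rw [h, zero_mul] at this
    exact hθ this.symm
  have himg : (s.image fun p => norm (A * p.1 - α)).card ≤ 2 * (norm θ).natAbs.divisors.card := by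
    refine (Finset.card_le_card (t := ((norm θ).natAbs.divisors.image fun d : ℕ => (d : ℤ)) ∪
      ((norm θ).natAbs.divisors.image fun d : ℕ => -(d : ℤ))) ?_).trans ?_
    · intro ν hν
      obtain ⟨p, hp, rfl⟩ := Finset.mem_image.mp hν
      have h1 : norm (A * p.1 - α) ∣ norm θ := by
        rw [← (Finset.mem_filter.mp hp).2, map_mul]
        exact dvd_mul_right _ _
      have h2 : (norm (A * p.1 - α)).natAbs ∈ (norm θ).natAbs.divisors :=
        Nat.mem_divisors.mpr ⟨Int.natAbs_dvd_natAbs.mpr h1, Int.natAbs_ne_zero.mpr hnθ⟩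
      rw [Finset.mem_union, Finset.mem_image, Finset.mem_image]
      rcases Int.natAbs_eq (norm (A * p.1 - α)) with h | h
      · exact Or.inl ⟨_, h2, h.symm⟩
      · exact Or.inr ⟨_, h2, h.symm⟩
    · refine (Finset.card_union_le _ _).trans ?_
      have h1 := Finset.card_image_le (s := (norm θ).natAbs.divisors) (f := fun d : ℕ => (d : ℤ))
      have h2 := Finset.card_image_le (s := (norm θ).natAbs.divisors) (f := fun d : ℕ => -(d : ℤ))
      omega
  have hfib : ∀ ν ∈ s.image (fun p => norm (A * p.1 - α)),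
      (s.filter fun p => norm (A * p.1 - α) = ν).card ≤ 2 * (2 * R + 1) := by
    intro ν _
    have hinj : Set.InjOn (fun p : QuadraticAlgebra ℤ a b × QuadraticAlgebra ℤ a b => p.1)
        (s.filter fun p => norm (A * p.1 - α) = ν) := by
      rintro ⟨x, y⟩ hx ⟨x', y'⟩ hy hxy
      have hx' := (Finset.mem_filter.mp hx).1
      have hy' := (Finset.mem_filter.mp hy).1
      have h1 := (Finset.mem_filter.mp hx').2
      have h2 := (Finset.mem_filter.mp hy').2
      have h3 := hne _ hx'
      simp only at hxy h1 h2 h3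
      subst hxy
      have h4 : (A * x - α) * (A * y - κ) = (A * x - α) * (A * y' - κ) := by rw [h1, h2]
      have h5 := mul_left_cancel₀ h3 h4
      have h6 : A * y = A * y' := by
        have := congrArg (fun z => z + κ) h5
        simpa using this
      rw [mul_left_cancel₀ hA h6]
    rw [← Finset.card_image_of_injOn hinj]
    refine (Finset.card_le_card ?_).trans (card_norm_le c R A α hA ν)
    intro x hx
    obtain ⟨p, hp, rfl⟩ := Finset.mem_image.mp hx
    obtain ⟨hp1, hp2⟩ := Finset.mem_filter.mp hp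
    have hp3 := (Finset.mem_filter.mp hp1).1
    exact Finset.mem_filter.mpr ⟨(Finset.mem_product.mp hp3).1, hp2⟩
  have h1 := Finset.card_le_mul_card_image s (2 * (2 * R + 1)) hfib
  calc s.card ≤ 2 * (2 * R + 1) * (s.image fun p => norm (A * p.1 - α)).card := h1
    _ ≤ 2 * (2 * R + 1) * (2 * (norm θ).natAbs.divisors.card) := Nat.mul_le_mul_left _ himg
    _ = 4 * (2 * R + 1) * (norm θ).natAbs.divisors.card := by ring

/-- the degenerate conic -/
lemma card_conic_zero_le (c c' : QuadraticAlgebra ℤ a b) (R : ℕ) (A α κ : QuadraticAlgebra ℤ a b)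
    (hA : A ≠ 0) :
    (((box c R) ×ˢ (box c' R)).filter fun p => (A * p.1 - α) * (A * p.2 - κ) = 0).card
      ≤ 2 * (2 * R + 1) ^ 2 := by
  classical
  have hsub : (((box c R) ×ˢ (box c' R)).filter fun p => (A * p.1 - α) * (A * p.2 - κ) = 0)
      ⊆ (((box c R) ×ˢ (box c' R)).filter fun p => A * p.1 - α = 0) ∪
        (((box c R) ×ˢ (box c' R)).filter fun p => A * p.2 - κ = 0) := by
    intro p hp
    obtain ⟨h1, h2⟩ := Finset.mem_filter.mp hp
    rw [Finset.mem_union, Finset.mem_filter, Finset.mem_filter]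
    rcases mul_eq_zero.mp h2 with h | h
    · exact Or.inl ⟨h1, h⟩
    · exact Or.inr ⟨h1, h⟩
  have ha : (((box c R) ×ˢ (box c' R)).filter fun p => A * p.1 - α = 0).card
      ≤ (2 * R + 1) ^ 2 := by
    rw [← card_box c' R]
    refine Finset.card_le_card_of_injOn (fun p => p.2) ?_ ?_
    · intro p hp
      exact (Finset.mem_product.mp (Finset.mem_filter.mp hp).1).2
    · rintro ⟨x, y⟩ hx ⟨x', y'⟩ hy hxy
      have h1 := (Finset.mem_filter.mp hx).2
      have h2 := (Finset.mem_filter.mp hy).2
      simp only at h1 h2 hxy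
      have h3 : A * x = A * x' := by rw [sub_eq_zero.mp h1, sub_eq_zero.mp h2]
      rw [mul_left_cancel₀ hA h3, hxy]
  have hb : (((box c R) ×ˢ (box c' R)).filter fun p => A * p.2 - κ = 0).card
      ≤ (2 * R + 1) ^ 2 := by
    rw [← card_box c R]
    refine Finset.card_le_card_of_injOn (fun p => p.1) ?_ ?_
    · intro p hp
      exact (Finset.mem_product.mp (Finset.mem_filter.mp hp).1).1
    · rintro ⟨x, y⟩ hx ⟨x', y'⟩ hy hxy
      have h1 := (Finset.mem_filter.mp hx).2
      have h2 := (Finset.mem_filter.mp hy).2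
      simp only at h1 h2 hxy
      have h3 : A * y = A * y' := by rw [sub_eq_zero.mp h1, sub_eq_zero.mp h2]
      rw [mul_left_cancel₀ hA h3, hxy]
  refine (Finset.card_le_card hsub).trans ((Finset.card_union_le _ _).trans ?_)
  omega

end Pool.Agent.Lib.MP_938ce2_ag_h65u
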