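import Mathlib
import Pool.Agent.Lib.MP_938ce2_ag_h65u.Quad
import Pool.Agent.Lib.MP_938ce2_ag_h67.Code

/-!
The Schur complement of a block over a commutative ring, and counting functions by fibres.
-/

set_option autoImplicit false
set_option linter.unusedSectionVars false

namespace Pool.Agent.Lib.MP_938ce2_ag_h65u

open Matrix QuadraticAlgebra

lemma schur_identity {R : Type} [CommRing R] {κ : Type} [Fintype κ] [DecidableEq κ]
    (X : Matrix (Fin 2) (Fin 2) R) (U : Matrix (Fin 2) κ R) (V : Matrix κ (Fin 2) R)
    (M : Matrix κ κ R) :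
    (fromBlocks X U V M).det * M.det ^ 2 = (M.det • X - U * M.adjugate * V).det * M.det := by
  have h1 : fromBlocks X U V M * fromBlocks (M.det • (1 : Matrix (Fin 2) (Fin 2) R)) 0
      (-(M.adjugate * V)) 1 = fromBlocks (M.det • X - U * M.adjugate * V) U 0 M := by
    rw [fromBlocks_multiply]
    congr 1
    · rw [Matrix.mul_smul, Matrix.mul_one, Matrix.mul_neg, ← Matrix.mul_assoc, sub_eq_add_neg]
    · rw [Matrix.mul_zero, Matrix.mul_one, zero_add]
    · rw [Matrix.mul_smul, Matrix.mul_one, Matrix.mul_neg, ← Matrix.mul_assoc, mul_adjugate,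
        Matrix.smul_mul, Matrix.one_mul, add_neg_cancel]
    · rw [Matrix.mul_zero, Matrix.mul_one, zero_add]
  have h2 := congrArg Matrix.det h1
  rw [det_mul, det_fromBlocks_zero₁₂, det_fromBlocks_zero₂₁, det_one, mul_one, det_smul, det_one,
    mul_one, Fintype.card_fin] at h2
  exact h2

/-- over a domain, singularity is expressed by the Schur complement -/
lemma schur_singular {R : Type} [CommRing R] [IsDomain R] {κ : Type} [Fintype κ] [DecidableEq κ]
    (X : Matrix (Fin 2) (Fin 2) R) (U : Matrix (Fin 2) κ R) (V : Matrix κ (Fin 2) R)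
    (M : Matrix κ κ R) (hM : M.det ≠ 0) (h : (fromBlocks X U V M).det = 0) :
    (M.det * X 0 0 - (U * M.adjugate * V) 0 0) * (M.det * X 1 1 - (U * M.adjugate * V) 1 1)
      = (M.det * X 0 1 - (U * M.adjugate * V) 0 1) * (M.det * X 1 0 - (U * M.adjugate * V) 1 0) := by
  have h1 := schur_identity X U V M
  rw [h, zero_mul] at h1
  have h2 := (mul_eq_zero.mp h1.symm).resolve_right hM
  rw [det_fin_two] at h2
  simp only [Matrix.sub_apply, Matrix.smul_apply, smul_eq_mul] at h2
  exact sub_eq_zero.mp h2

section fibre

variable {α O : Type} [Fintype α] [DecidableEq α] [DecidableEq O] [Zero O]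

/-- counting functions by the values outside `s` -/
lemma card_le_of_fibre (B : α → Finset O) (b : ℕ) (hB : ∀ i, (B i).card ≤ b)
    (S : Finset (α → O)) (hS : S ⊆ Fintype.piFinset B) (s : Finset α) (N : ℕ)
    (hN : ∀ t0 : α → O, (S.filter fun t => (∀ i, i ∉ s → t i = t0 i)).card ≤ N) :
    S.card ≤ N * b ^ (Fintype.card α - s.card) := by
  let f : (α → O) → (α → O) := fun t i => if i ∈ s then 0 else t i
  have h1 : S.card ≤ N * (S.image f).card := by
    refine Finset.card_le_mul_card_image S N (f := f) ?_
    intro t0 ht0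
    obtain ⟨t1, ht1, rfl⟩ := Finset.mem_image.mp ht0
    refine (Finset.card_le_card ?_).trans (hN t1)
    intro t ht
    obtain ⟨h1, h2⟩ := Finset.mem_filter.mp ht
    refine Finset.mem_filter.mpr ⟨h1, fun i hi => ?_⟩
    have := congrFun h2 i
    simpa [f, hi] using this
  have h2 : (S.image f).card ≤ b ^ (Fintype.card α - s.card) := by
    have h3 : S.image f ⊆ Fintype.piFinset fun i => if i ∈ s then {0} else B i := by
      intro t ht
      obtain ⟨t1, ht1, rfl⟩ := Finset.mem_image.mp ht
      rw [Fintype.mem_piFinset]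
      intro i
      have := Fintype.mem_piFinset.mp (hS ht1) i
      by_cases hi : i ∈ s
      · simp [f, hi]
      · simpa [f, hi] using this
    refine (Finset.card_le_card h3).trans ?_
    rw [Fintype.card_piFinset]
    have h4 : ∀ i ∈ (Finset.univ : Finset α), (if i ∈ s then ({0} : Finset O) else B i).card
        ≤ if i ∈ s then 1 else b := by
      intro i _
      by_cases hi : i ∈ s
      · simp [hi]
      · simpa [hi] using hB i
    refine (Finset.prod_le_prod' h4).trans ?_
    rw [Finset.prod_ite, Finset.prod_const_one, one_mul, Finset.prod_const]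
    apply le_of_eq
    congr 1
    have h5 : (Finset.univ.filter fun i => i ∉ s) = sᶜ := by
      ext i
      simp
    rw [h5, Finset.card_compl]
  exact h1.trans (Nat.mul_le_mul_left N h2)

end fibre

section subspace

variable {a b : ℤ} [Aniso a b]

open Classical in
/-- the number of points of a box in a subspace over the fraction field -/
lemma card_box_subspace_le {ι : Type} [Fintype ι] [DecidableEq ι] (K : Type) [Field K]
    [Algebra (QuadraticAlgebra ℤ a b) K] [FaithfulSMul (QuadraticAlgebra ℤ a b) K]
    (c : ι → QuadraticAlgebra ℤ a b) (R : ℕ) (W : Submodule K (ι → K)) :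
    ((Fintype.piFinset fun i => box (c i) R).filter fun v =>
      (fun i => algebraMap (QuadraticAlgebra ℤ a b) K (v i)) ∈ W).card
      ≤ ((2 * R + 1) ^ 2) ^ (Module.finrank K W) := by
  obtain ⟨κ, _, j, hj, hcard, hbij⟩ := Pool.Agent.Lib.MP_938ce2_ag_h67.exists_info W
  have hle : ((Fintype.piFinset fun i => box (c i) R).filter fun v =>
      (fun i => algebraMap (QuadraticAlgebra ℤ a b) K (v i)) ∈ W).card
      ≤ (Fintype.piFinset fun i : κ => box (c (j i)) R).card := by
    refine Finset.card_le_card_of_injOn (fun v i => v (j i)) ?_ ?_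
    · intro v hv
      rw [Finset.mem_coe, Finset.mem_filter, Fintype.mem_piFinset] at hv
      rw [Finset.mem_coe, Fintype.mem_piFinset]
      intro i
      exact hv.1 (j i)
    · intro v hv w hw hvw
      rw [Finset.mem_coe, Finset.mem_filter] at hv hw
      obtain ⟨-, h1⟩ := hv
      obtain ⟨-, h2⟩ := hw
      have h3 : (⟨_, h1⟩ : W) = ⟨_, h2⟩ := by
        apply hbij.1
        funext i
        exact congrArg (algebraMap (QuadraticAlgebra ℤ a b) K) (congrFun hvw i)
      funext i
      have h4 := congrFun (congrArg Subtype.val h3) i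
      exact FaithfulSMul.algebraMap_injective (QuadraticAlgebra ℤ a b) K h4
  refine hle.trans (le_of_eq ?_)
  rw [Fintype.card_piFinset, Finset.prod_congr rfl fun i _ => card_box (c (j i)) R,
    Finset.prod_const, Finset.card_univ, hcard]

end subspace

end Pool.Agent.Lib.MP_938ce2_ag_h65u
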