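import Mathlib
import Pool.Agent.Lib.MP_938ce2_ag_h65u.Schur

/-!
Singular matrices over a quadratic order with entries in boxes: the part where the lower right block
is invertible.
-/

set_option autoImplicit false
set_option linter.unusedSectionVars false

namespace Pool.Agent.Lib.MP_938ce2_ag_h65u

open Matrix QuadraticAlgebra

section

variable {κ : Type} [Fintype κ] [DecidableEq κ] {O : Type} [CommRing O]

/-- the index set of rows and columns -/
abbrev Ix (κ : Type) : Type := Fin 2 ⊕ κ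

/-- the matrix of a function on pairs of indices -/
def TM (t : Ix κ × Ix κ → O) : Matrix (Ix κ) (Ix κ) O := fun i j => t (i, j)

/-- the four blocks -/
def bX (t : Ix κ × Ix κ → O) : Matrix (Fin 2) (Fin 2) O := fun i j => t (Sum.inl i, Sum.inl j)
/-- upper right block -/
def bU (t : Ix κ × Ix κ → O) : Matrix (Fin 2) κ O := fun i j => t (Sum.inl i, Sum.inr j)
/-- lower left block -/
def bV (t : Ix κ × Ix κ → O) : Matrix κ (Fin 2) O := fun i j => t (Sum.inr i, Sum.inl j)
/-- lower right block -/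
def bM (t : Ix κ × Ix κ → O) : Matrix κ κ O := fun i j => t (Sum.inr i, Sum.inr j)
/-- the correction term of the Schur complement -/
def bW (t : Ix κ × Ix κ → O) : Matrix (Fin 2) (Fin 2) O := bU t * (bM t).adjugate * bV t

lemma TM_eq (t : Ix κ × Ix κ → O) : TM t = fromBlocks (bX t) (bU t) (bV t) (bM t) := by
  ext i j
  rcases i with i | i <;> rcases j with j | j <;> rfl

/-- the right hand side of the equation of the conic -/
def th (t : Ix κ × Ix κ → O) : O :=
  ((bM t).det * t (Sum.inl 0, Sum.inl 1) - bW t 0 1) *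
    ((bM t).det * t (Sum.inl 1, Sum.inl 0) - bW t 1 0)

lemma conic_eq [IsDomain O] (t : Ix κ × Ix κ → O) (hM : (bM t).det ≠ 0) (h : (TM t).det = 0) :
    ((bM t).det * t (Sum.inl 0, Sum.inl 0) - bW t 0 0) *
      ((bM t).det * t (Sum.inl 1, Sum.inl 1) - bW t 1 1) = th t := by
  rw [TM_eq] at h
  exact schur_singular (bX t) (bU t) (bV t) (bM t) hM h

lemma blocks_congr {t t1 : Ix κ × Ix κ → O} {s : Finset (Ix κ × Ix κ)}
    (h : ∀ i, i ∉ s → t i = t1 i) (hs : ∀ i ∈ s, ∃ u v : Fin 2, i = (Sum.inl u, Sum.inl v)) :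
    bM t = bM t1 ∧ bW t = bW t1 := by
  have hM : bM t = bM t1 := by
    ext i j
    apply h
    intro hmem
    obtain ⟨u, v, h'⟩ := hs _ hmem
    simp at h'
  have hU : bU t = bU t1 := by
    ext i j
    apply h
    intro hmem
    obtain ⟨u, v, h'⟩ := hs _ hmem
    simp at h'
  have hV : bV t = bV t1 := by
    ext i j
    apply h
    intro hmem
    obtain ⟨u, v, h'⟩ := hs _ hmem
    simp at h'
  exact ⟨hM, by unfold bW; rw [hM, hU, hV]⟩

end

section

variable {a b : ℤ} [Aniso a b] {κ : Type} [Fintype κ] [DecidableEq κ]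

open Classical in
/-- all functions with values in boxes -/
noncomputable def FB (c : Ix κ × Ix κ → QuadraticAlgebra ℤ a b) (R : ℕ) :
    Finset (Ix κ × Ix κ → QuadraticAlgebra ℤ a b) :=
  Fintype.piFinset fun i => box (c i) R

open Classical in
/-- singular matrices with invertible lower right block -/
noncomputable def SB (c : Ix κ × Ix κ → QuadraticAlgebra ℤ a b) (R : ℕ) :
    Finset (Ix κ × Ix κ → QuadraticAlgebra ℤ a b) :=
  (FB c R).filter fun t => (TM t).det = 0 ∧ (bM t).det ≠ 0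

lemma mem_FB {c : Ix κ × Ix κ → QuadraticAlgebra ℤ a b} {R : ℕ}
    {t : Ix κ × Ix κ → QuadraticAlgebra ℤ a b} : t ∈ FB c R ↔ ∀ i, t i ∈ box (c i) R := by
  unfold FB
  rw [Fintype.mem_piFinset]

lemma mem_SB {c : Ix κ × Ix κ → QuadraticAlgebra ℤ a b} {R : ℕ}
    {t : Ix κ × Ix κ → QuadraticAlgebra ℤ a b} :
    t ∈ SB c R ↔ t ∈ FB c R ∧ (TM t).det = 0 ∧ (bM t).det ≠ 0 := by
  unfold SB
  rw [Finset.mem_filter]

open Classical in
lemma card_SBa_le (c : Ix κ × Ix κ → QuadraticAlgebra ℤ a b) (R D : ℕ)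
    (hD : ∀ t ∈ FB c R, (norm (th t)).natAbs.divisors.card ≤ D) :
    ((SB c R).filter fun t => th t ≠ 0).card
      ≤ 4 * (2 * R + 1) * D * ((2 * R + 1) ^ 2) ^ (Fintype.card (Ix κ × Ix κ) - 2) := by
  set s : Finset (Ix κ × Ix κ) := {(Sum.inl 0, Sum.inl 0), (Sum.inl 1, Sum.inl 1)} with hs
  have hscard : s.card = 2 := by
    rw [hs, Finset.card_pair]
    simp
  have hsm : ∀ i ∈ s, ∃ u v : Fin 2, i = (Sum.inl u, Sum.inl v) := by
    intro i hi
    rw [hs, Finset.mem_insert, Finset.mem_singleton] at hi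
    rcases hi with rfl | rfl
    · exact ⟨0, 0, rfl⟩
    · exact ⟨1, 1, rfl⟩
  have h := card_le_of_fibre (fun i : Ix κ × Ix κ => box (c i) R) ((2 * R + 1) ^ 2)
    (fun i => le_of_eq (card_box (c i) R)) ((SB c R).filter fun t => th t ≠ 0) (by
      intro t ht
      have h1 := (mem_SB.mp (Finset.mem_filter.mp ht).1).1
      exact h1) s (4 * (2 * R + 1) * D) ?_
  · rw [hscard] at h
    exact h
  intro t0
  rcases Finset.eq_empty_or_nonempty (((SB c R).filter fun t => th t ≠ 0).filter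
    fun t => ∀ i, i ∉ s → t i = t0 i) with hE | ⟨t1, ht1⟩
  · rw [hE, Finset.card_empty]
    exact Nat.zero_le _
  obtain ⟨h1, hoff1⟩ := Finset.mem_filter.mp ht1
  obtain ⟨hSB1, hth1⟩ := Finset.mem_filter.mp h1
  obtain ⟨hF1, hdet1, hM1⟩ := mem_SB.mp hSB1
  have key : ∀ t ∈ (((SB c R).filter fun t => th t ≠ 0).filter fun t => ∀ i, i ∉ s → t i = t0 i),
      (t ∈ FB c R ∧ ((bM t1).det * t (Sum.inl 0, Sum.inl 0) - bW t1 0 0) *
      ((bM t1).det * t (Sum.inl 1, Sum.inl 1) - bW t1 1 1) = th t1) ∧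
      ∀ i, i ∉ s → t i = t0 i := by
    intro t ht
    obtain ⟨h2, hoff⟩ := Finset.mem_filter.mp ht
    obtain ⟨hSB, hth⟩ := Finset.mem_filter.mp h2
    obtain ⟨hF, hdet, hM⟩ := mem_SB.mp hSB
    have hoff' : ∀ i, i ∉ s → t i = t1 i := fun i hi => by rw [hoff i hi, hoff1 i hi]
    obtain ⟨e1, e2⟩ := blocks_congr hoff' hsm
    have e3 := conic_eq t hM hdet
    have e4 : th t = th t1 := by
      unfold th
      rw [e1, e2, hoff' (Sum.inl 0, Sum.inl 1) (by rw [hs]; simp),
        hoff' (Sum.inl 1, Sum.inl 0) (by rw [hs]; simp)]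
    rw [e1, e2, e4] at e3
    exact ⟨⟨hF, e3⟩, hoff⟩
  calc (((SB c R).filter fun t => th t ≠ 0).filter fun t => ∀ i, i ∉ s → t i = t0 i).card
      ≤ (((box (c (Sum.inl 0, Sum.inl 0)) R) ×ˢ (box (c (Sum.inl 1, Sum.inl 1)) R)).filter
        fun p => ((bM t1).det * p.1 - bW t1 0 0) * ((bM t1).det * p.2 - bW t1 1 1) = th t1).card := by
        refine Finset.card_le_card_of_injOn
          (fun t => (t (Sum.inl 0, Sum.inl 0), t (Sum.inl 1, Sum.inl 1))) ?_ ?_
        · intro t ht
          obtain ⟨⟨hF, he⟩, -⟩ := key t ht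
          rw [Finset.mem_coe, Finset.mem_filter, Finset.mem_product]
          exact ⟨⟨mem_FB.mp hF _, mem_FB.mp hF _⟩, he⟩
        · intro t ht t' ht' htt
          obtain ⟨-, hoff⟩ := key t ht
          obtain ⟨-, hoff'⟩ := key t' ht'
          have h3 := congrArg Prod.fst htt
          have h4 := congrArg Prod.snd htt
          simp only at h3 h4
          funext i
          by_cases hi : i ∈ s
          · rw [hs, Finset.mem_insert, Finset.mem_singleton] at hi
            rcases hi with rfl | rfl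
            · exact h3
            · exact h4
          · rw [hoff i hi, hoff' i hi]
    _ ≤ 4 * (2 * R + 1) * (norm (th t1)).natAbs.divisors.card :=
        card_conic_le _ _ R _ _ _ _ hM1 hth1
    _ ≤ 4 * (2 * R + 1) * D := Nat.mul_le_mul_left _ (hD t1 hF1)

open Classical in
lemma card_SBb_le (c : Ix κ × Ix κ → QuadraticAlgebra ℤ a b) (R : ℕ) (u v : Fin 2) (huv : u ≠ v) :
    ((SB c R).filter fun t => (bM t).det * t (Sum.inl u, Sum.inl v) - bW t u v = 0
      ∧ th t = 0).card
      ≤ 2 * (2 * R + 1) ^ 2 * ((2 * R + 1) ^ 2) ^ (Fintype.card (Ix κ × Ix κ) - 3) := by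
  set s : Finset (Ix κ × Ix κ) := {(Sum.inl 0, Sum.inl 0), (Sum.inl 1, Sum.inl 1),
    (Sum.inl u, Sum.inl v)} with hs
  have hscard : s.card = 3 := by
    rw [hs, Finset.card_insert_of_notMem, Finset.card_insert_of_notMem, Finset.card_singleton]
    · rw [Finset.mem_singleton]
      intro h
      simp only [Prod.mk.injEq, Sum.inl.injEq] at h
      exact huv (h.1.symm.trans h.2)
    · rw [Finset.mem_insert, Finset.mem_singleton]
      rintro (h | h)
      · simp at h
      · simp only [Prod.mk.injEq, Sum.inl.injEq] at h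
        exact huv (h.1.symm.trans h.2)
  have hsm : ∀ i ∈ s, ∃ u v : Fin 2, i = (Sum.inl u, Sum.inl v) := by
    intro i hi
    rw [hs, Finset.mem_insert, Finset.mem_insert, Finset.mem_singleton] at hi
    rcases hi with rfl | rfl | rfl
    · exact ⟨0, 0, rfl⟩
    · exact ⟨1, 1, rfl⟩
    · exact ⟨u, v, rfl⟩
  have h := card_le_of_fibre (fun i : Ix κ × Ix κ => box (c i) R) ((2 * R + 1) ^ 2)
    (fun i => le_of_eq (card_box (c i) R))
    ((SB c R).filter fun t => (bM t).det * t (Sum.inl u, Sum.inl v) - bW t u v = 0 ∧ th t = 0) (by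
      intro t ht
      have h1 := (mem_SB.mp (Finset.mem_filter.mp ht).1).1
      exact h1) s (2 * (2 * R + 1) ^ 2) ?_
  · rw [hscard] at h
    exact h
  intro t0
  rcases Finset.eq_empty_or_nonempty (((SB c R).filter fun t =>
    (bM t).det * t (Sum.inl u, Sum.inl v) - bW t u v = 0 ∧ th t = 0).filter
    fun t => ∀ i, i ∉ s → t i = t0 i) with hE | ⟨t1, ht1⟩
  · rw [hE, Finset.card_empty]
    exact Nat.zero_le _
  obtain ⟨h1, hoff1⟩ := Finset.mem_filter.mp ht1
  obtain ⟨hSB1, hz1, hth1⟩ := Finset.mem_filter.mp h1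
  obtain ⟨hF1, hdet1, hM1⟩ := mem_SB.mp hSB1
  have key : ∀ t ∈ (((SB c R).filter fun t =>
      (bM t).det * t (Sum.inl u, Sum.inl v) - bW t u v = 0 ∧ th t = 0).filter
        fun t => ∀ i, i ∉ s → t i = t0 i),
      (t ∈ FB c R ∧ ((bM t1).det * t (Sum.inl 0, Sum.inl 0) - bW t1 0 0) *
      ((bM t1).det * t (Sum.inl 1, Sum.inl 1) - bW t1 1 1) = 0) ∧
      (∀ i, i ∉ s → t i = t0 i) ∧ t (Sum.inl u, Sum.inl v) = t1 (Sum.inl u, Sum.inl v) := by
    intro t ht
    obtain ⟨h2, hoff⟩ := Finset.mem_filter.mp ht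
    obtain ⟨hSB, hz, hth⟩ := Finset.mem_filter.mp h2
    obtain ⟨hF, hdet, hM⟩ := mem_SB.mp hSB
    have hoff' : ∀ i, i ∉ s → t i = t1 i := fun i hi => by rw [hoff i hi, hoff1 i hi]
    obtain ⟨e1, e2⟩ := blocks_congr hoff' hsm
    have e3 := conic_eq t hM hdet
    rw [e1, e2, hth] at e3
    rw [e1, e2] at hz
    refine ⟨⟨hF, e3⟩, hoff, ?_⟩
    have e5 : (bM t1).det * t (Sum.inl u, Sum.inl v) = (bM t1).det * t1 (Sum.inl u, Sum.inl v) := by
      rw [sub_eq_zero.mp hz, sub_eq_zero.mp hz1]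
    exact mul_left_cancel₀ hM1 e5
  calc (((SB c R).filter fun t =>
      (bM t).det * t (Sum.inl u, Sum.inl v) - bW t u v = 0 ∧ th t = 0).filter
        fun t => ∀ i, i ∉ s → t i = t0 i).card
      ≤ (((box (c (Sum.inl 0, Sum.inl 0)) R) ×ˢ (box (c (Sum.inl 1, Sum.inl 1)) R)).filter
        fun p => ((bM t1).det * p.1 - bW t1 0 0) * ((bM t1).det * p.2 - bW t1 1 1) = 0).card := by
        refine Finset.card_le_card_of_injOn
          (fun t => (t (Sum.inl 0, Sum.inl 0), t (Sum.inl 1, Sum.inl 1))) ?_ ?_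
        · intro t ht
          obtain ⟨⟨hF, he⟩, -⟩ := key t ht
          rw [Finset.mem_coe, Finset.mem_filter, Finset.mem_product]
          exact ⟨⟨mem_FB.mp hF _, mem_FB.mp hF _⟩, he⟩
        · intro t ht t' ht' htt
          obtain ⟨-, hoff, hz⟩ := key t ht
          obtain ⟨-, hoff', hz'⟩ := key t' ht'
          have h3 := congrArg Prod.fst htt
          have h4 := congrArg Prod.snd htt
          simp only at h3 h4
          funext i
          by_cases hi : i ∈ s
          · rw [hs, Finset.mem_insert, Finset.mem_insert, Finset.mem_singleton] at hi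
            rcases hi with rfl | rfl | rfl
            · exact h3
            · exact h4
            · rw [hz, hz']
          · rw [hoff i hi, hoff' i hi]
    _ ≤ 2 * (2 * R + 1) ^ 2 := card_conic_zero_le _ _ R _ _ _ hM1

lemma three_le_card : 3 ≤ Fintype.card (Ix κ × Ix κ) := by
  rw [Fintype.card_prod, Fintype.card_sum, Fintype.card_fin]
  nlinarith [Nat.zero_le (Fintype.card κ)]

/-- singular matrices with invertible lower right block -/
theorem card_SB_le (c : Ix κ × Ix κ → QuadraticAlgebra ℤ a b) (R D : ℕ) (hD1 : 1 ≤ D)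
    (hD : ∀ t ∈ FB c R, (norm (th t)).natAbs.divisors.card ≤ D) :
    (SB c R).card
      ≤ 8 * (2 * R + 1) * D * ((2 * R + 1) ^ 2) ^ (Fintype.card (Ix κ × Ix κ) - 2) := by
  classical
  have hsub : SB c R ⊆ ((SB c R).filter fun t => th t ≠ 0) ∪
      (((SB c R).filter fun t => (bM t).det * t (Sum.inl 0, Sum.inl 1) - bW t 0 1 = 0 ∧ th t = 0) ∪
      ((SB c R).filter fun t => (bM t).det * t (Sum.inl 1, Sum.inl 0) - bW t 1 0 = 0
        ∧ th t = 0)) := by
    intro t ht
    rw [Finset.mem_union, Finset.mem_union, Finset.mem_filter, Finset.mem_filter,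
      Finset.mem_filter]
    by_cases h : th t = 0
    · right
      have h' := h
      unfold th at h'
      rcases mul_eq_zero.mp h' with h1 | h1
      · exact Or.inl ⟨ht, h1, h⟩
      · exact Or.inr ⟨ht, h1, h⟩
    · exact Or.inl ⟨ht, h⟩
  have h1 := card_SBa_le c R D hD
  have h2 := card_SBb_le c R 0 1 (by simp)
  have h3 := card_SBb_le c R 1 0 (by simp)
  have h4 : 2 * (2 * R + 1) ^ 2 * ((2 * R + 1) ^ 2) ^ (Fintype.card (Ix κ × Ix κ) - 3)
      = 2 * ((2 * R + 1) ^ 2) ^ (Fintype.card (Ix κ × Ix κ) - 2) := by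
    have h5 := three_le_card (κ := κ)
    have h6 : Fintype.card (Ix κ × Ix κ) - 2 = Fintype.card (Ix κ × Ix κ) - 3 + 1 := by omega
    rw [h6, pow_succ]
    ring
  rw [h4] at h2 h3
  have h5 := (Finset.card_le_card hsub).trans ((Finset.card_union_le _ _).trans
    (Nat.add_le_add_left (Finset.card_union_le _ _) _))
  set Q := ((2 * R + 1) ^ 2) ^ (Fintype.card (Ix κ × Ix κ) - 2)
  have h6 : 4 * Q ≤ 4 * (2 * R + 1) * D * Q := by
    apply Nat.mul_le_mul_right
    nlinarith [Nat.zero_le R, Nat.zero_le (R * D)]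
  calc (SB c R).card ≤ 4 * (2 * R + 1) * D * Q + (2 * Q + 2 * Q) := by
        refine h5.trans ?_
        exact Nat.add_le_add h1 (Nat.add_le_add h2 h3)
    _ ≤ 4 * (2 * R + 1) * D * Q + 4 * (2 * R + 1) * D * Q := by omega
    _ = 8 * (2 * R + 1) * D * Q := by ring

end

end Pool.Agent.Lib.MP_938ce2_ag_h65u
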