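import Mathlib
import Pool.Agent.Lib.MP_938ce2_ag_h65u.Count

/-!
The size of the right hand side of the conic.
-/

set_option autoImplicit false
set_option linter.unusedSectionVars false

namespace Pool.Agent.Lib.MP_938ce2_ag_h65u

open Matrix QuadraticAlgebra

variable {a b : ℤ}

/-- a submultiplicative size -/
def sz (z : QuadraticAlgebra ℤ a b) : ℕ :=
  (1 + a.natAbs + b.natAbs) * (z.re.natAbs + z.im.natAbs)

lemma sz_add (z w : QuadraticAlgebra ℤ a b) : sz (z + w) ≤ sz z + sz w := by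
  unfold sz
  rw [← Nat.mul_add]
  apply Nat.mul_le_mul_left
  rw [re_add, im_add]
  have h1 := Int.natAbs_add_le z.re w.re
  have h2 := Int.natAbs_add_le z.im w.im
  omega

lemma sz_neg (z : QuadraticAlgebra ℤ a b) : sz (-z) = sz z := by
  unfold sz
  rw [re_neg, im_neg, Int.natAbs_neg, Int.natAbs_neg]

lemma sz_sub (z w : QuadraticAlgebra ℤ a b) : sz (z - w) ≤ sz z + sz w := by
  rw [sub_eq_add_neg]
  refine (sz_add _ _).trans ?_
  rw [sz_neg]

lemma sz_zero : sz (0 : QuadraticAlgebra ℤ a b) = 0 := by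
  unfold sz
  simp

lemma sz_one : sz (1 : QuadraticAlgebra ℤ a b) = 1 + a.natAbs + b.natAbs := by
  unfold sz
  simp

lemma sz_mul (z w : QuadraticAlgebra ℤ a b) : sz (z * w) ≤ sz z * sz w := by
  unfold sz
  rw [re_mul, im_mul]
  have h1 : (z.re * w.re + a * z.im * w.im).natAbs
      ≤ z.re.natAbs * w.re.natAbs + a.natAbs * z.im.natAbs * w.im.natAbs := by
    refine (Int.natAbs_add_le _ _).trans ?_
    rw [Int.natAbs_mul, Int.natAbs_mul, Int.natAbs_mul]
  have h2 : (z.re * w.im + z.im * w.re + b * z.im * w.im).natAbs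
      ≤ z.re.natAbs * w.im.natAbs + z.im.natAbs * w.re.natAbs
        + b.natAbs * z.im.natAbs * w.im.natAbs := by
    refine (Int.natAbs_add_le _ _).trans ?_
    have h3 := Int.natAbs_add_le (z.re * w.im) (z.im * w.re)
    rw [Int.natAbs_mul, Int.natAbs_mul] at h3
    rw [Int.natAbs_mul, Int.natAbs_mul]
    omega
  have h4 : (z.re * w.re + a * z.im * w.im).natAbs
      + (z.re * w.im + z.im * w.re + b * z.im * w.im).natAbs
      ≤ (1 + a.natAbs + b.natAbs) * ((z.re.natAbs + z.im.natAbs) * (w.re.natAbs + w.im.natAbs)) := by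
    refine (Nat.add_le_add h1 h2).trans ?_
    generalize z.re.natAbs = p
    generalize z.im.natAbs = q
    generalize w.re.natAbs = r
    generalize w.im.natAbs = s
    generalize a.natAbs = x
    generalize b.natAbs = y
    have e : (1 + x + y) * ((p + q) * (r + s)) = (p * r + x * q * s + (p * s + q * r + y * q * s))
      + (q * s + x * (p * r + p * s + q * r) + y * (p * r + p * s + q * r)) := by ring
    rw [e]
    exact Nat.le_add_right _ _
  calc (1 + a.natAbs + b.natAbs) * ((z.re * w.re + a * z.im * w.im).natAbs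
      + (z.re * w.im + z.im * w.re + b * z.im * w.im).natAbs)
      ≤ (1 + a.natAbs + b.natAbs) * ((1 + a.natAbs + b.natAbs)
        * ((z.re.natAbs + z.im.natAbs) * (w.re.natAbs + w.im.natAbs))) :=
        Nat.mul_le_mul_left _ h4
    _ = _ := by ring

lemma norm_le_sz (z : QuadraticAlgebra ℤ a b) : (norm z).natAbs ≤ sz z ^ 2 := by
  rw [QuadraticAlgebra.norm_def]
  have h1 : (z.re * z.re + b * z.re * z.im - a * z.im * z.im).natAbs
      ≤ z.re.natAbs * z.re.natAbs + b.natAbs * z.re.natAbs * z.im.natAbs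
        + a.natAbs * z.im.natAbs * z.im.natAbs := by
    refine (Int.natAbs_sub_le _ _).trans ?_
    have h3 := Int.natAbs_add_le (z.re * z.re) (b * z.re * z.im)
    rw [Int.natAbs_mul, Int.natAbs_mul, Int.natAbs_mul] at h3
    rw [Int.natAbs_mul, Int.natAbs_mul]
    omega
  refine h1.trans ?_
  unfold sz
  generalize z.re.natAbs = p
  generalize z.im.natAbs = q
  generalize a.natAbs = x
  generalize b.natAbs = y
  have e : ((1 + x + y) * (p + q)) ^ 2 = p * p + y * p * q + x * q * q
    + ((2 * p * q + q * q) + (2 * x + 2 * y + (x + y) ^ 2) * (p + q) ^ 2 - y * p * q - x * q * q) := by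
    have h : y * p * q + x * q * q ≤ (2 * p * q + q * q) + (2 * x + 2 * y + (x + y) ^ 2) * (p + q) ^ 2 := by
      nlinarith [Nat.zero_le (x * p * p), Nat.zero_le (y * p * p), Nat.zero_le (x * p * q),
        Nat.zero_le (y * q * q), Nat.zero_le ((x + y) ^ 2 * (p + q) ^ 2), Nat.zero_le (p * q),
        Nat.zero_le (q * q), Nat.zero_le (y * p * q), Nat.zero_le (x * q * q)]
    have h2 : ((1 + x + y) * (p + q)) ^ 2 + (y * p * q + x * q * q) = p * p + y * p * q + x * q * q
      + ((2 * p * q + q * q) + (2 * x + 2 * y + (x + y) ^ 2) * (p + q) ^ 2) := by ring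
    omega
  rw [e]
  exact Nat.le_add_right _ _

lemma sz_sum {ι : Type} (s : Finset ι) (f : ι → QuadraticAlgebra ℤ a b) :
    sz (∑ i ∈ s, f i) ≤ ∑ i ∈ s, sz (f i) := by
  classical
  induction s using Finset.induction_on with
  | empty => simp [sz_zero]
  | insert i s hi ih =>
    rw [Finset.sum_insert hi, Finset.sum_insert hi]
    exact (sz_add _ _).trans (Nat.add_le_add_left ih _)

lemma sz_prod {ι : Type} (s : Finset ι) (f : ι → QuadraticAlgebra ℤ a b) :
    sz (∏ i ∈ s, f i) ≤ (1 + a.natAbs + b.natAbs) * ∏ i ∈ s, sz (f i) := by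
  classical
  induction s using Finset.induction_on with
  | empty => simp [sz_one]
  | insert i s hi ih =>
    rw [Finset.prod_insert hi, Finset.prod_insert hi]
    calc sz (f i * ∏ j ∈ s, f j) ≤ sz (f i) * sz (∏ j ∈ s, f j) := sz_mul _ _
      _ ≤ sz (f i) * ((1 + a.natAbs + b.natAbs) * ∏ j ∈ s, sz (f j)) := Nat.mul_le_mul_left _ ih
      _ = _ := by ring

variable {κ : Type} [Fintype κ] [DecidableEq κ]

lemma sz_det_le (M : Matrix κ κ (QuadraticAlgebra ℤ a b)) (Y : ℕ)
    (hY : 1 + a.natAbs + b.natAbs ≤ Y) (hM : ∀ i j, sz (M i j) ≤ Y) :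
    sz M.det ≤ (Fintype.card κ).factorial * Y ^ (Fintype.card κ + 1) := by
  rw [det_apply]
  refine (sz_sum _ _).trans ?_
  have h : ∀ σ ∈ (Finset.univ : Finset (Equiv.Perm κ)),
      sz (Equiv.Perm.sign σ • ∏ i, M (σ i) i) ≤ Y ^ (Fintype.card κ + 1) := by
    intro σ _
    have h1 : sz (Equiv.Perm.sign σ • ∏ i, M (σ i) i) = sz (∏ i, M (σ i) i) := by
      rcases Int.units_eq_one_or (Equiv.Perm.sign σ) with h | h
      · rw [h, one_smul]
      · rw [h, Units.neg_smul, one_smul, sz_neg]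
    rw [h1]
    calc sz (∏ i, M (σ i) i) ≤ (1 + a.natAbs + b.natAbs) * ∏ i, sz (M (σ i) i) := sz_prod _ _
      _ ≤ Y * ∏ _i : κ, Y := Nat.mul_le_mul hY (Finset.prod_le_prod' fun i _ => hM _ _)
      _ = Y ^ (Fintype.card κ + 1) := by
        rw [Finset.prod_const, Finset.card_univ, pow_succ, mul_comm]
  refine (Finset.sum_le_card_nsmul _ _ _ h).trans (le_of_eq ?_)
  rw [Finset.card_univ, Fintype.card_perm, smul_eq_mul]

lemma sz_adjugate_le (M : Matrix κ κ (QuadraticAlgebra ℤ a b)) (Y : ℕ)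
    (hY : 1 + a.natAbs + b.natAbs ≤ Y) (hM : ∀ i j, sz (M i j) ≤ Y) (i j : κ) :
    sz (M.adjugate i j) ≤ (Fintype.card κ).factorial * Y ^ (Fintype.card κ + 1) := by
  rw [adjugate_apply]
  apply sz_det_le _ _ hY
  intro u v
  rw [updateRow_apply]
  split_ifs
  · rw [Pi.single_apply]
    split_ifs
    · rw [sz_one]
      exact hY
    · rw [sz_zero]
      exact Nat.zero_le _
  · exact hM u v

/-- a bound for the right hand side of the conic -/
theorem norm_th_le (t : Ix κ × Ix κ → QuadraticAlgebra ℤ a b) (Y : ℕ)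
    (hY : 1 + a.natAbs + b.natAbs ≤ Y) (ht : ∀ i, sz (t i) ≤ Y) :
    (norm (th t)).natAbs ≤ ((1 + Fintype.card κ ^ 2) * (Fintype.card κ).factorial) ^ 4
      * Y ^ (4 * Fintype.card κ + 12) := by
  set k := Fintype.card κ with hk
  have hY1 : 1 ≤ Y := by omega
  have hdet : sz (bM t).det ≤ k.factorial * Y ^ (k + 1) := sz_det_le _ _ hY fun i j => ht _
  have hW : ∀ u v, sz (bW t u v) ≤ k ^ 2 * k.factorial * Y ^ (k + 3) := by
    intro u v
    unfold bW
    rw [Matrix.mul_apply]
    refine (sz_sum _ _).trans ?_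
    have h1 : ∀ l ∈ (Finset.univ : Finset κ), sz ((bU t * (bM t).adjugate) u l * bV t l v)
        ≤ k * (k.factorial * Y ^ (k + 3)) := by
      intro l _
      refine (sz_mul _ _).trans ?_
      have h2 : sz ((bU t * (bM t).adjugate) u l) ≤ k * (Y * (k.factorial * Y ^ (k + 1))) := by
        rw [Matrix.mul_apply]
        refine (sz_sum _ _).trans ?_
        refine (Finset.sum_le_card_nsmul _ _ (Y * (k.factorial * Y ^ (k + 1))) ?_).trans
          (le_of_eq ?_)
        · intro m _
          exact (sz_mul _ _).trans (Nat.mul_le_mul (ht _) (sz_adjugate_le _ _ hY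
            (fun i j => ht _) _ _))
        · rw [Finset.card_univ, smul_eq_mul]
      calc sz ((bU t * (bM t).adjugate) u l) * sz (bV t l v)
          ≤ (k * (Y * (k.factorial * Y ^ (k + 1)))) * Y := Nat.mul_le_mul h2 (ht _)
        _ = k * (k.factorial * Y ^ (k + 3)) := by ring
    refine (Finset.sum_le_card_nsmul _ _ _ h1).trans (le_of_eq ?_)
    rw [Finset.card_univ, smul_eq_mul]
    ring
  have hf : ∀ u v, sz ((bM t).det * t (Sum.inl u, Sum.inl v) - bW t u v)
      ≤ (1 + k ^ 2) * k.factorial * Y ^ (k + 3) := by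
    intro u v
    refine (sz_sub _ _).trans ?_
    have h1 : sz ((bM t).det * t (Sum.inl u, Sum.inl v)) ≤ k.factorial * Y ^ (k + 3) := by
      refine (sz_mul _ _).trans ((Nat.mul_le_mul hdet (ht _)).trans ?_)
      calc k.factorial * Y ^ (k + 1) * Y = k.factorial * Y ^ (k + 2) := by ring
        _ ≤ k.factorial * Y ^ (k + 3) :=
          Nat.mul_le_mul_left _ (Nat.pow_le_pow_right hY1 (by omega))
    refine (Nat.add_le_add h1 (hW u v)).trans (le_of_eq ?_)
    ring
  have hth : sz (th t) ≤ ((1 + k ^ 2) * k.factorial * Y ^ (k + 3)) ^ 2 := by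
    unfold th
    refine (sz_mul _ _).trans ?_
    rw [sq]
    exact Nat.mul_le_mul (hf 0 1) (hf 1 0)
  refine (norm_le_sz _).trans ?_
  refine (Nat.pow_le_pow_left hth 2).trans (le_of_eq ?_)
  ring

end Pool.Agent.Lib.MP_938ce2_ag_h65u
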