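import Mathlib
import Pool.Agent.Lib.MP_938ce2_ag_h65u.Size

/-!
The number of singular matrices over a quadratic order with entries in boxes.
-/

set_option autoImplicit false
set_option linter.unusedSectionVars false

namespace Pool.Agent.Lib.MP_938ce2_ag_h65u

open Matrix QuadraticAlgebra Module

variable {a b : ℤ} [Aniso a b] {κ : Type} [Fintype κ] [DecidableEq κ]

/-- the fraction field -/
abbrev FK (a b : ℤ) [Aniso a b] : Type := FractionRing (QuadraticAlgebra ℤ a b)

/-- the lower rows over the fraction field -/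
noncomputable def rowK (t : Ix κ × Ix κ → QuadraticAlgebra ℤ a b) (i : κ) : Ix κ → FK a b :=
  fun j => algebraMap (QuadraticAlgebra ℤ a b) (FK a b) (t (Sum.inr i, j))

open Classical in
/-- lower rows dependent -/
noncomputable def DB (c : Ix κ × Ix κ → QuadraticAlgebra ℤ a b) (R : ℕ) :
    Finset (Ix κ × Ix κ → QuadraticAlgebra ℤ a b) :=
  (FB c R).filter fun t => ¬ LinearIndependent (FK a b) (rowK t)

lemma card_Ix : Fintype.card (Ix κ) = Fintype.card κ + 2 := by
  rw [Fintype.card_sum, Fintype.card_fin, add_comm]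

open Classical in
lemma card_DB_one_le (c : Ix κ × Ix κ → QuadraticAlgebra ℤ a b) (R : ℕ) (i0 : κ) :
    ((FB c R).filter fun t => rowK t i0 ∈ Submodule.span (FK a b)
      (rowK t '' (Set.univ \ {i0}))).card
      ≤ ((2 * R + 1) ^ 2) ^ (Fintype.card (Ix κ × Ix κ) - 3) := by
  set s : Finset (Ix κ × Ix κ) := Finset.univ.image fun j : Ix κ => ((Sum.inr i0 : Ix κ), j) with hs
  have hscard : s.card = Fintype.card κ + 2 := by
    rw [hs, Finset.card_image_of_injective _ (fun x y h => (Prod.mk.inj h).2), Finset.card_univ,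
      card_Ix]
  have hk1 : 1 ≤ Fintype.card κ := Fintype.card_pos_iff.mpr ⟨i0⟩
  have h := card_le_of_fibre (fun i : Ix κ × Ix κ => box (c i) R) ((2 * R + 1) ^ 2)
    (fun i => le_of_eq (card_box (c i) R))
    ((FB c R).filter fun t => rowK t i0 ∈ Submodule.span (FK a b)
      (rowK t '' (Set.univ \ {i0}))) (by
      intro t ht
      exact (Finset.mem_filter.mp ht).1) s (((2 * R + 1) ^ 2) ^ (Fintype.card κ - 1)) ?_
  · refine h.trans (le_of_eq ?_)
    rw [hscard, ← pow_add, Fintype.card_prod, card_Ix]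
    congr 1
    have h2 : 3 ≤ (Fintype.card κ + 2) * (Fintype.card κ + 2) := by nlinarith
    have h3 : Fintype.card κ + 2 ≤ (Fintype.card κ + 2) * (Fintype.card κ + 2) := by nlinarith
    obtain ⟨m, hm⟩ := Nat.exists_eq_add_of_le hk1
    rw [hm]
    rw [hm] at h3 h2
    have h4 : (1 + m + 2) * (1 + m + 2) = (1 + m + 2) + (1 + m + 2) * (m + 2) := by ring
    have h5 : (1 + m + 2) * (m + 2) ≥ 2 * m := by nlinarith
    omega
  intro t0
  rcases Finset.eq_empty_or_nonempty (((FB c R).filter fun t => rowK t i0 ∈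
    Submodule.span (FK a b) (rowK t '' (Set.univ \ {i0}))).filter
    fun t => ∀ i, i ∉ s → t i = t0 i) with hE | ⟨t1, ht1⟩
  · rw [hE, Finset.card_empty]
    exact Nat.zero_le _
  obtain ⟨h1, hoff1⟩ := Finset.mem_filter.mp ht1
  have hrow : ∀ t : Ix κ × Ix κ → QuadraticAlgebra ℤ a b, (∀ i, i ∉ s → t i = t0 i) →
      rowK t '' (Set.univ \ {i0}) = rowK t1 '' (Set.univ \ {i0}) := by
    intro t ht
    apply Set.image_congr
    intro i hi
    funext j
    have hi' : i ≠ i0 := fun h => hi.2 h
    have hne : ((Sum.inr i : Ix κ), j) ∉ s := by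
      rw [hs, Finset.mem_image]
      rintro ⟨j', _, h⟩
      have := (Prod.mk.inj h).1
      exact hi' (Sum.inr_injective this).symm
    unfold rowK
    rw [ht _ hne, hoff1 _ hne]
  set W : Submodule (FK a b) (Ix κ → FK a b) :=
    Submodule.span (FK a b) (rowK t1 '' (Set.univ \ {i0})) with hW
  have hWrank : finrank (FK a b) W ≤ Fintype.card κ - 1 := by
    have e : rowK t1 '' (Set.univ \ {i0}) = ((Finset.univ.erase i0).image (rowK t1) : Finset _) := by
      ext v
      simp only [Set.mem_image, Set.mem_diff, Set.mem_univ, true_and, Set.mem_singleton_iff,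
        Finset.coe_image, Finset.coe_erase, Finset.coe_univ]
    rw [hW, e]
    refine (finrank_span_finset_le_card _).trans (Finset.card_image_le.trans ?_)
    rw [Finset.card_erase_of_mem (Finset.mem_univ _), Finset.card_univ]
  refine le_trans ?_ ((card_box_subspace_le (FK a b) (fun j : Ix κ => c (Sum.inr i0, j)) R
    W).trans (Nat.pow_le_pow_right (by positivity) hWrank))
  refine Finset.card_le_card_of_injOn (fun t j => t (Sum.inr i0, j)) ?_ ?_
  · intro t ht
    rw [Finset.mem_coe, Finset.mem_filter, Finset.mem_filter] at ht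
    obtain ⟨⟨hF, hin⟩, hoff⟩ := ht
    rw [Finset.mem_coe, Finset.mem_filter, Fintype.mem_piFinset]
    refine ⟨fun j => mem_FB.mp hF _, ?_⟩
    rw [hrow t hoff] at hin
    exact hin
  · intro t ht t' ht' htt
    rw [Finset.mem_coe, Finset.mem_filter] at ht ht'
    funext i
    by_cases hi : i ∈ s
    · rw [hs, Finset.mem_image] at hi
      obtain ⟨j, _, rfl⟩ := hi
      exact congrFun htt j
    · rw [ht.2 i hi, ht'.2 i hi]

/-- the number of matrices with dependent lower rows -/
theorem card_DB_le (c : Ix κ × Ix κ → QuadraticAlgebra ℤ a b) (R : ℕ) :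
    (DB c R).card ≤ Fintype.card κ * ((2 * R + 1) ^ 2) ^ (Fintype.card (Ix κ × Ix κ) - 3) := by
  classical
  have hsub : DB c R ⊆ (Finset.univ : Finset κ).biUnion fun i0 =>
      (FB c R).filter fun t => rowK t i0 ∈ Submodule.span (FK a b)
        (rowK t '' (Set.univ \ {i0})) := by
    intro t ht
    unfold DB at ht
    obtain ⟨h1, h2⟩ := Finset.mem_filter.mp ht
    rw [linearIndependent_iff_notMem_span] at h2
    push Not at h2
    obtain ⟨i0, hi0⟩ := h2
    rw [Finset.mem_biUnion]
    exact ⟨i0, Finset.mem_univ _, Finset.mem_filter.mpr ⟨h1, hi0⟩⟩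
  refine (Finset.card_le_card hsub).trans (Finset.card_biUnion_le.trans ?_)
  refine (Finset.sum_le_card_nsmul _ _ _ fun i0 _ => card_DB_one_le c R i0).trans (le_of_eq ?_)
  rw [Finset.card_univ, smul_eq_mul]

/-- permuting the columns -/
def pt {O : Type} (e : Equiv.Perm (Ix κ)) (t : Ix κ × Ix κ → O) : Ix κ × Ix κ → O :=
  fun p => t (p.1, e p.2)

open Classical in
lemma card_perm_le (c : Ix κ × Ix κ → QuadraticAlgebra ℤ a b) (R : ℕ) (e : Equiv.Perm (Ix κ)) :
    ((FB c R).filter fun t => (TM t).det = 0 ∧ (bM (pt e t)).det ≠ 0).card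
      ≤ (SB (pt e c) R).card := by
  refine Finset.card_le_card_of_injOn (pt e) ?_ ?_
  · intro t ht
    rw [Finset.mem_coe, Finset.mem_filter] at ht
    obtain ⟨hF, hdet, hM⟩ := ht
    rw [Finset.mem_coe, mem_SB]
    refine ⟨mem_FB.mpr fun p => mem_FB.mp hF (p.1, e p.2), ?_, hM⟩
    have h1 : TM (pt e t) = (TM t).submatrix id e := rfl
    rw [h1, Matrix.det_permute', hdet, mul_zero]
  · intro t _ t' _ h
    funext p
    have := congrFun h (p.1, e.symm p.2)
    simpa [pt] using this

lemma exists_perm (t : Ix κ × Ix κ → QuadraticAlgebra ℤ a b)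
    (h : LinearIndependent (FK a b) (rowK t)) : ∃ e : Equiv.Perm (Ix κ), (bM (pt e t)).det ≠ 0 := by
  classical
  set W : Submodule (FK a b) (Ix κ → FK a b) := Submodule.span (FK a b) (Set.range (rowK t)) with hW
  obtain ⟨κ', _, j, hj, hcard, hbij⟩ := Pool.Agent.Lib.MP_938ce2_ag_h67.exists_info W
  have hrank : finrank (FK a b) W = Fintype.card κ := finrank_span_eq_card h
  have hf : Fintype.card κ = Fintype.card κ' := by rw [hcard, hrank]
  let f : κ ≃ κ' := Fintype.equivOfCardEq hf
  -- the permutation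
  have hinj : Function.Injective fun l : κ => j (f l) := hj.comp f.injective
  obtain ⟨g, hg⟩ := Finset.exists_equiv_extend_of_card_eq (α := Ix κ) (β := Ix κ)
    (t := Finset.univ) (by rw [Finset.card_univ]) (s := Finset.univ.image Sum.inr)
    (f := Sum.elim (fun i => Sum.inl i) (fun l => j (f l))) (Finset.subset_univ _) (by
      intro x hx y hy hxy
      simp only [Finset.coe_image, Finset.coe_univ, Set.image_univ, Set.mem_range] at hx hy
      obtain ⟨l, rfl⟩ := hx
      obtain ⟨l', rfl⟩ := hy
      simp only [Sum.elim_inr] at hxy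
      rw [hinj hxy])
  let e : Equiv.Perm (Ix κ) := g.trans (Equiv.subtypeUnivEquiv fun x => Finset.mem_univ x)
  have he : ∀ l : κ, e (Sum.inr l) = j (f l) := by
    intro l
    have := hg (Sum.inr l) (Finset.mem_image.mpr ⟨l, Finset.mem_univ _, rfl⟩)
    rw [Sum.elim_inr] at this
    exact this
  refine ⟨e, ?_⟩
  -- the rows restricted to the information set
  let A : Matrix κ κ (FK a b) := fun i l => rowK t i (j (f l))
  have hA : A = (bM (pt e t)).map (algebraMap (QuadraticAlgebra ℤ a b) (FK a b)) := by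
    ext i l
    show rowK t i (j (f l)) = algebraMap _ _ (t (Sum.inr i, e (Sum.inr l)))
    rw [he]
    rfl
  have hAli : LinearIndependent (FK a b) A.row := by
    rw [Fintype.linearIndependent_iff]
    intro w hw i
    rw [Fintype.linearIndependent_iff] at h
    apply h w
    -- the combination lies in `W` and vanishes on the information set
    have hmem : ∑ i, w i • rowK t i ∈ W :=
      Submodule.sum_mem _ fun i _ => Submodule.smul_mem _ _ (Submodule.subset_span ⟨i, rfl⟩)
    have h0 : (⟨∑ i, w i • rowK t i, hmem⟩ : W) = 0 := by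
      apply hbij.1
      funext x
      obtain ⟨l, rfl⟩ := f.surjective x
      have h1 := congrFun hw l
      simp only [Finset.sum_apply, Pi.smul_apply, Pi.zero_apply] at h1
      simp only [Finset.sum_apply, Pi.smul_apply, Submodule.coe_zero, Pi.zero_apply]
      exact h1
    exact congrArg Subtype.val h0
  have hu : IsUnit A := Matrix.linearIndependent_rows_iff_isUnit.mp hAli
  intro h0
  rw [Matrix.isUnit_iff_isUnit_det, hA, ← RingHom.mapMatrix_apply, ← RingHom.map_det, h0,
    map_zero] at hu
  exact not_isUnit_zero hu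

open Classical in
/-- the number of singular matrices with entries in boxes -/
theorem card_sing_le (c : Ix κ × Ix κ → QuadraticAlgebra ℤ a b) (R D : ℕ) (hD1 : 1 ≤ D)
    (hD : ∀ e : Equiv.Perm (Ix κ), ∀ t ∈ FB (pt e c) R, (norm (th t)).natAbs.divisors.card ≤ D) :
    ((FB c R).filter fun t => (TM t).det = 0).card
      ≤ (Fintype.card κ + 8 * (Fintype.card κ + 2).factorial) *
        ((2 * R + 1) * D * ((2 * R + 1) ^ 2) ^ (Fintype.card (Ix κ × Ix κ) - 2)) := by
  have hsub : ((FB c R).filter fun t => (TM t).det = 0) ⊆ DB c R ∪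
      (Finset.univ : Finset (Equiv.Perm (Ix κ))).biUnion fun e =>
        (FB c R).filter fun t => (TM t).det = 0 ∧ (bM (pt e t)).det ≠ 0 := by
    intro t ht
    obtain ⟨h1, h2⟩ := Finset.mem_filter.mp ht
    rw [Finset.mem_union]
    by_cases h : LinearIndependent (FK a b) (rowK t)
    · right
      obtain ⟨e, he⟩ := exists_perm t h
      rw [Finset.mem_biUnion]
      exact ⟨e, Finset.mem_univ _, Finset.mem_filter.mpr ⟨h1, h2, he⟩⟩
    · left
      unfold DB
      exact Finset.mem_filter.mpr ⟨h1, h⟩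
  set Q := ((2 * R + 1) ^ 2) ^ (Fintype.card (Ix κ × Ix κ) - 2) with hQ
  have h1 : (DB c R).card ≤ Fintype.card κ * Q := by
    refine (card_DB_le c R).trans (Nat.mul_le_mul_left _ ?_)
    exact Nat.pow_le_pow_right (by positivity) (by omega)
  have h2 : ((Finset.univ : Finset (Equiv.Perm (Ix κ))).biUnion fun e =>
        (FB c R).filter fun t => (TM t).det = 0 ∧ (bM (pt e t)).det ≠ 0).card
      ≤ (Fintype.card κ + 2).factorial * (8 * (2 * R + 1) * D * Q) := by
    refine Finset.card_biUnion_le.trans ?_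
    refine (Finset.sum_le_card_nsmul _ _ (8 * (2 * R + 1) * D * Q) fun e _ =>
      (card_perm_le c R e).trans (card_SB_le (pt e c) R D hD1 (hD e))).trans (le_of_eq ?_)
    rw [Finset.card_univ, Fintype.card_perm, card_Ix, smul_eq_mul]
  refine (Finset.card_le_card hsub).trans ((Finset.card_union_le _ _).trans
    ((Nat.add_le_add h1 h2).trans ?_))
  have h3 : Q ≤ (2 * R + 1) * D * Q := by
    nlinarith [Nat.zero_le Q, Nat.zero_le (R * D * Q), Nat.zero_le ((D - 1) * Q),
      Nat.mul_le_mul_right Q hD1]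
  calc Fintype.card κ * Q + (Fintype.card κ + 2).factorial * (8 * (2 * R + 1) * D * Q)
      ≤ Fintype.card κ * ((2 * R + 1) * D * Q)
        + (Fintype.card κ + 2).factorial * (8 * (2 * R + 1) * D * Q) :=
        Nat.add_le_add_right (Nat.mul_le_mul_left _ h3) _
    _ = _ := by ring

end Pool.Agent.Lib.MP_938ce2_ag_h65u
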