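import Mathlib
import Pool.Agent.Lib.MP_938ce2_ag_h65u.Sing
import Pool.Agent.Lib.MP_938ce2_ag_h65u.Divisor

/-!
The number of singular matrices over a quadratic order with entries in boxes, asymptotic form.
-/

set_option autoImplicit false
set_option linter.unusedSectionVars false

namespace Pool.Agent.Lib.MP_938ce2_ag_h65u

open Matrix QuadraticAlgebra Module

lemma exists_D (j : ℕ) : ∃ C : ℕ, 1 ≤ C ∧ ∀ Z : ℕ, 1 ≤ Z → ∃ D : ℕ, 1 ≤ D ∧
    (∀ N ≤ Z, N.divisors.card ≤ D) ∧ D ^ j ≤ C * Z := by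
  obtain ⟨C, hC1, hC⟩ := divisor_bound j
  refine ⟨C, hC1, fun Z hZ => ?_⟩
  obtain ⟨N0, hN0, hmax⟩ := Finset.exists_max_image (Finset.range (Z + 1))
    (fun N => N.divisors.card) ⟨1, Finset.mem_range.mpr (by omega)⟩
  have h1 : 1 ≤ N0.divisors.card := by
    have := hmax 1 (Finset.mem_range.mpr (by omega))
    simpa using this
  have hN1 : 1 ≤ N0 := by
    rcases Nat.eq_zero_or_pos N0 with h | h
    · rw [h] at h1
      simp at h1
    · exact h
  refine ⟨N0.divisors.card, h1, fun N hN => hmax N (Finset.mem_range.mpr (by omega)), ?_⟩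
  refine (hC N0 hN1).trans (Nat.mul_le_mul_left _ ?_)
  have := Finset.mem_range.mp hN0
  omega

variable {a b : ℤ} [Aniso a b] {κ : Type} [Fintype κ] [DecidableEq κ]

open Classical in
/-- the number of singular matrices with entries in boxes of side `2R+1` -/
theorem sing_count (ε : ℝ) (hε : 0 < ε) : ∃ C : ℝ, 0 < C ∧
    ∀ (c : Ix κ × Ix κ → QuadraticAlgebra ℤ a b) (R Y : ℕ), 1 ≤ Y → R ≤ Y →
      (∀ i, (c i).re.natAbs ≤ Y ∧ (c i).im.natAbs ≤ Y) →
      (((FB c R).filter fun t => (TM t).det = 0).card : ℝ)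
        ≤ C * (2 * R + 1 : ℝ) ^ (2 * Fintype.card (Ix κ × Ix κ) - 3) * (Y : ℝ) ^ ε := by
  set k := Fintype.card κ with hk
  set j : ℕ := ⌈((4 * k + 12 : ℕ) : ℝ) / ε⌉₊ + 1 with hj
  have hjε : ((4 * k + 12 : ℕ) : ℝ) ≤ ε * j := by
    have h1 : ((4 * k + 12 : ℕ) : ℝ) / ε ≤ j := by
      rw [hj]
      push_cast
      have := Nat.le_ceil (((4 * k + 12 : ℕ) : ℝ) / ε)
      push_cast at this
      linarith
    rw [div_le_iff₀ hε] at h1
    linarith
  obtain ⟨Cj, hCj1, hCj⟩ := exists_D j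
  set c0 : ℕ := 1 + a.natAbs + b.natAbs with hc0
  set A : ℕ := ((1 + k ^ 2) * k.factorial) ^ 4 * (4 * c0) ^ (4 * k + 12) with hA
  have hA1 : 1 ≤ A := by
    rw [hA]
    have : 0 < k.factorial := k.factorial_pos
    have h2 : 0 < ((1 + k ^ 2) * k.factorial) ^ 4 := by positivity
    have h3 : 0 < (4 * c0) ^ (4 * k + 12) := by
      rw [hc0]
      positivity
    exact Nat.mul_pos h2 h3
  set B : ℝ := ((Cj * A : ℕ) : ℝ) with hB
  have hB1 : 1 ≤ B := by
    rw [hB]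
    exact_mod_cast Nat.mul_pos hCj1 hA1
  refine ⟨(k + 8 * (k + 2).factorial : ℕ) * B, ?_, ?_⟩
  · have : 0 < (k + 2).factorial := (k + 2).factorial_pos
    have h2 : (0 : ℝ) < (k + 8 * (k + 2).factorial : ℕ) := by
      exact_mod_cast (by omega : 0 < k + 8 * (k + 2).factorial)
    positivity
  intro c R Y hY1 hRY hcY
  -- the size of the entries
  have hent : ∀ e : Equiv.Perm (Ix κ), ∀ t ∈ FB (pt e c) R, ∀ i, sz (t i) ≤ 4 * c0 * Y := by
    intro e t ht i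
    have h1 := mem_FB.mp ht i
    rw [mem_box] at h1
    obtain ⟨⟨h2, h3⟩, h4, h5⟩ := h1
    have hc := hcY (i.1, e i.2)
    have e1 : pt e c i = c (i.1, e i.2) := rfl
    rw [e1] at h2 h3 h4 h5
    unfold sz
    have h6 : (t i).re.natAbs ≤ 2 * Y := by omega
    have h7 : (t i).im.natAbs ≤ 2 * Y := by omega
    calc (1 + a.natAbs + b.natAbs) * ((t i).re.natAbs + (t i).im.natAbs)
        ≤ c0 * (2 * Y + 2 * Y) := Nat.mul_le_mul_left _ (by omega)
      _ = 4 * c0 * Y := by ring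
  have hc0Y : 1 + a.natAbs + b.natAbs ≤ 4 * c0 * Y := by
    have : c0 ≤ c0 * Y := Nat.le_mul_of_pos_right _ hY1
    nlinarith
  set Z : ℕ := A * Y ^ (4 * k + 12) with hZ
  have hZ1 : 1 ≤ Z := Nat.mul_pos hA1 (by positivity)
  obtain ⟨D, hD1, hDd, hDj⟩ := hCj Z hZ1
  have hnorm : ∀ e : Equiv.Perm (Ix κ), ∀ t ∈ FB (pt e c) R,
      (norm (th t)).natAbs.divisors.card ≤ D := by
    intro e t ht
    apply hDd
    refine (norm_th_le t (4 * c0 * Y) hc0Y (hent e t ht)).trans (le_of_eq ?_)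
    rw [hZ, hA, mul_pow (4 * c0) Y]
    ring
  have hmain := card_sing_le c R D hD1 hnorm
  -- the bound for `D`
  have hYpos : (0 : ℝ) < (Y : ℝ) := by exact_mod_cast hY1
  have hY1R : (1 : ℝ) ≤ (Y : ℝ) := by exact_mod_cast hY1
  have hDle : (D : ℝ) ≤ B * (Y : ℝ) ^ ε := by
    by_contra hcon
    push Not at hcon
    have h1 : (B * (Y : ℝ) ^ ε) ^ j < (D : ℝ) ^ j :=
      pow_lt_pow_left₀ hcon (by positivity) (by omega)
    have h2 : (D : ℝ) ^ j ≤ B * (Y : ℝ) ^ (4 * k + 12) := by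
      have h3 : ((D ^ j : ℕ) : ℝ) ≤ ((Cj * Z : ℕ) : ℝ) := by exact_mod_cast hDj
      rw [hZ] at h3
      rw [hB]
      push_cast at h3 ⊢
      calc (D : ℝ) ^ j ≤ Cj * (A * (Y : ℝ) ^ (4 * k + 12)) := h3
        _ = _ := by ring
    have h4 : B * (Y : ℝ) ^ (4 * k + 12) ≤ (B * (Y : ℝ) ^ ε) ^ j := by
      rw [mul_pow]
      have h5 : B ≤ B ^ j := le_self_pow₀ hB1 (by omega)
      have h6 : (Y : ℝ) ^ (4 * k + 12) ≤ ((Y : ℝ) ^ ε) ^ j := by
        rw [← Real.rpow_natCast ((Y : ℝ) ^ ε) j, ← Real.rpow_mul hYpos.le,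
          ← Real.rpow_natCast (Y : ℝ) (4 * k + 12)]
        exact Real.rpow_le_rpow_of_exponent_le hY1R hjε
      exact mul_le_mul h5 h6 (by positivity) (by positivity)
    linarith
  have hN3 := three_le_card (κ := κ)
  have hexp : (2 * R + 1 : ℝ) * ((2 * R + 1 : ℝ) ^ 2) ^ (Fintype.card (Ix κ × Ix κ) - 2)
      = (2 * R + 1 : ℝ) ^ (2 * Fintype.card (Ix κ × Ix κ) - 3) := by
    rw [← pow_mul, ← pow_succ']
    congr 1
    omega
  have hmainR : (((FB c R).filter fun t => (TM t).det = 0).card : ℝ)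
      ≤ (k + 8 * (k + 2).factorial : ℕ) *
        ((2 * R + 1) * D * ((2 * R + 1) ^ 2) ^ (Fintype.card (Ix κ × Ix κ) - 2)) := by
    exact_mod_cast hmain
  refine hmainR.trans ?_
  rw [mul_assoc ((k + 8 * (k + 2).factorial : ℕ) : ℝ) B, mul_assoc ((k + 8 * (k + 2).factorial : ℕ) : ℝ)]
  apply mul_le_mul_of_nonneg_left _ (Nat.cast_nonneg _)
  calc (2 * (R : ℝ) + 1) * D * ((2 * (R : ℝ) + 1) ^ 2) ^ (Fintype.card (Ix κ × Ix κ) - 2)
      = D * (2 * (R : ℝ) + 1) ^ (2 * Fintype.card (Ix κ × Ix κ) - 3) := by rw [← hexp]; ring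
    _ ≤ (B * (Y : ℝ) ^ ε) * (2 * (R : ℝ) + 1) ^ (2 * Fintype.card (Ix κ × Ix κ) - 3) :=
        mul_le_mul_of_nonneg_right hDle (by positivity)
    _ = _ := by ring

end Pool.Agent.Lib.MP_938ce2_ag_h65u
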