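import Mathlib
import Pool.Agent.Lib.MP_938ce2_ag_h65u.SingReal
import Pool.Agent.Lib.MP_938ce2_ag_h65u.Binom

/-!
The probability that a random matrix over a quadratic order is singular.
-/

set_option autoImplicit false
set_option linter.unusedSectionVars false

namespace Pool.Agent.Lib.MP_938ce2_ag_h65u

open Matrix QuadraticAlgebra Module Finset

section fibre

variable {α X : Type} [Fintype α] [DecidableEq α] [DecidableEq X]

/-- counting functions by the values outside `s` -/
lemma card_le_of_fibre' (o : X) (B : α → Finset X) (b : ℕ) (hB : ∀ i, (B i).card ≤ b)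
    (S : Finset (α → X)) (hS : S ⊆ Fintype.piFinset B) (s : Finset α) (N : ℝ)
    (hN : ∀ t0 : α → X, ((S.filter fun t => (∀ i, i ∉ s → t i = t0 i)).card : ℝ) ≤ N) :
    (S.card : ℝ) ≤ N * b ^ (Fintype.card α - s.card) := by
  let f : (α → X) → (α → X) := fun t i => if i ∈ s then o else t i
  have hN0 : 0 ≤ N := (Nat.cast_nonneg _).trans (hN fun _ => o)
  have h1 : (S.card : ℝ) ≤ N * (S.image f).card := by
    have e : S.card = ∑ c ∈ S.image f, (S.filter fun t => f t = c).card :=
      Finset.card_eq_sum_card_image f S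
    rw [e]
    push_cast
    refine (Finset.sum_le_card_nsmul _ _ N ?_).trans (le_of_eq ?_)
    · intro t0 ht0
      obtain ⟨t1, ht1, rfl⟩ := Finset.mem_image.mp ht0
      refine le_trans ?_ (hN t1)
      have : (S.filter fun t => f t = f t1) ⊆ S.filter fun t => (∀ i, i ∉ s → t i = t1 i) := by
        intro t ht
        obtain ⟨h1, h2⟩ := Finset.mem_filter.mp ht
        refine Finset.mem_filter.mpr ⟨h1, fun i hi => ?_⟩
        have := congrFun h2 i
        simpa [f, hi] using this
      exact_mod_cast Finset.card_le_card this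
    · rw [nsmul_eq_mul, mul_comm]
  have h2 : (S.image f).card ≤ b ^ (Fintype.card α - s.card) := by
    have h3 : S.image f ⊆ Fintype.piFinset fun i => if i ∈ s then {o} else B i := by
      intro t ht
      obtain ⟨t1, ht1, rfl⟩ := Finset.mem_image.mp ht
      rw [Fintype.mem_piFinset]
      intro i
      have := Fintype.mem_piFinset.mp (hS ht1) i
      by_cases hi : i ∈ s
      · simp [f, hi]
      · simpa [f, hi] using this
    refine (Finset.card_le_card h3).trans ?_
    rw [Fintype.card_piFinset]
    have h4 : ∀ i ∈ (Finset.univ : Finset α), (if i ∈ s then ({o} : Finset X) else B i).card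
        ≤ if i ∈ s then 1 else b := by
      intro i _
      by_cases hi : i ∈ s
      · simp [hi]
      · simpa [hi] using hB i
    refine (Finset.prod_le_prod' h4).trans ?_
    rw [Finset.prod_ite, Finset.prod_const_one, one_mul, Finset.prod_const]
    apply le_of_eq
    congr 1
    have h5 : (Finset.univ.filter fun i => i ∉ s) = sᶜ := by
      ext i
      simp
    rw [h5, Finset.card_compl]
  refine h1.trans (mul_le_mul_of_nonneg_left ?_ hN0)
  exact_mod_cast h2

end fibre

variable {a b : ℤ} [Aniso a b] {κ : Type} [Fintype κ] [DecidableEq κ] {G : Type} [Fintype G]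
  [DecidableEq G]

/-- the random function on pairs of indices -/
noncomputable def comb (A : G → Ix κ × Ix κ → QuadraticAlgebra ℤ a b) {r : ℕ}
    (s : G → Finset (Fin r)) : Ix κ × Ix κ → QuadraticAlgebra ℤ a b :=
  ∑ y, sv (s y) • A y

/-- a bound for the coefficients -/
def C1 (A : G → Ix κ × Ix κ → QuadraticAlgebra ℤ a b) : ℕ :=
  1 + ∑ y, ∑ p, ((A y p).re.natAbs + (A y p).im.natAbs)

lemma re_sum' {ι : Type} (s : Finset ι) (f : ι → QuadraticAlgebra ℤ a b) :
    (∑ i ∈ s, f i).re = ∑ i ∈ s, (f i).re := by
  classical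
  induction s using Finset.induction_on with
  | empty => simp
  | insert i s hi ih => rw [Finset.sum_insert hi, Finset.sum_insert hi, re_add, ih]

lemma im_sum' {ι : Type} (s : Finset ι) (f : ι → QuadraticAlgebra ℤ a b) :
    (∑ i ∈ s, f i).im = ∑ i ∈ s, (f i).im := by
  classical
  induction s using Finset.induction_on with
  | empty => simp
  | insert i s hi ih => rw [Finset.sum_insert hi, Finset.sum_insert hi, im_add, ih]

lemma natAbs_sum_le' {ι : Type} (s : Finset ι) (f : ι → ℤ) :
    (∑ i ∈ s, f i).natAbs ≤ ∑ i ∈ s, (f i).natAbs := by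
  classical
  induction s using Finset.induction_on with
  | empty => simp
  | insert i s hi ih =>
    rw [Finset.sum_insert hi, Finset.sum_insert hi]
    exact (Int.natAbs_add_le _ _).trans (Nat.add_le_add_left ih _)

/-- coordinates of an integral combination -/
lemma comb_coord_le (A : G → Ix κ × Ix κ → QuadraticAlgebra ℤ a b) (z : G → ℤ) (R : ℕ)
    (hz : ∀ y, (z y).natAbs ≤ R) (p : Ix κ × Ix κ) :
    ((∑ y, z y • A y) p).re.natAbs ≤ C1 A * R ∧ ((∑ y, z y • A y) p).im.natAbs ≤ C1 A * R := by
  have h1 : (∑ y, z y • A y) p = ∑ y, z y • A y p := by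
    rw [Finset.sum_apply]
    rfl
  have h2 : ∑ y, ((A y p).re.natAbs + (A y p).im.natAbs) ≤ C1 A := by
    unfold C1
    refine le_trans ?_ (Nat.le_add_left _ _)
    apply Finset.sum_le_sum
    intro y _
    exact Finset.single_le_sum (f := fun p => (A y p).re.natAbs + (A y p).im.natAbs)
      (fun _ _ => Nat.zero_le _) (Finset.mem_univ p)
  rw [h1, re_sum', im_sum']
  constructor
  · refine (natAbs_sum_le' _ _).trans ?_
    calc ∑ y, (z y • A y p).re.natAbs ≤ ∑ y, ((A y p).re.natAbs + (A y p).im.natAbs) * R := by
          apply Finset.sum_le_sum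
          intro y _
          rw [re_smul, smul_eq_mul, Int.natAbs_mul, mul_comm]
          exact Nat.mul_le_mul (Nat.le_add_right _ _) (hz y)
      _ ≤ C1 A * R := by
          rw [← Finset.sum_mul]
          exact Nat.mul_le_mul_right R h2
  · refine (natAbs_sum_le' _ _).trans ?_
    calc ∑ y, (z y • A y p).im.natAbs ≤ ∑ y, ((A y p).re.natAbs + (A y p).im.natAbs) * R := by
          apply Finset.sum_le_sum
          intro y _
          rw [im_smul, smul_eq_mul, Int.natAbs_mul, mul_comm]
          exact Nat.mul_le_mul (Nat.le_add_left _ _) (hz y)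
      _ ≤ C1 A * R := by
          rw [← Finset.sum_mul]
          exact Nat.mul_le_mul_right R h2

section

variable (A : G → Ix κ × Ix κ → QuadraticAlgebra ℤ a b) (I : Finset G)
  (hli : ∀ z : G → ℤ, (∀ y, y ∉ I → z y = 0) → ∑ y, z y • A y = 0 → z = 0)

open Classical in
/-- the typical part of one fibre -/
lemma card_typical_le (r R : ℕ) (hr : 1 ≤ r) (t0 : G → Finset (Fin r))
    (Q : ℝ) (hli : ∀ z : G → ℤ, (∀ y, y ∉ I → z y = 0) → ∑ y, z y • A y = 0 → z = 0)
    (hQ : ∀ c : Ix κ × Ix κ → QuadraticAlgebra ℤ a b,
      (∀ i, (c i).re.natAbs ≤ C1 A * (r + R) ∧ (c i).im.natAbs ≤ C1 A * (r + R)) →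
      (((FB c (C1 A * R)).filter fun t => (TM t).det = 0).card : ℝ) ≤ Q) :
    (((univ : Finset (G → Finset (Fin r))).filter fun s => (TM (comb A s)).det = 0 ∧
      (∀ y ∈ I, (sv (s y)).natAbs ≤ R) ∧ ∀ y, y ∉ I → s y = t0 y).card : ℝ)
      ≤ (2 ^ r * (r : ℝ) ^ (-(1 / 2 : ℝ))) ^ I.card * Q := by
  set S := (univ : Finset (G → Finset (Fin r))).filter fun s => (TM (comb A s)).det = 0 ∧
      (∀ y ∈ I, (sv (s y)).natAbs ≤ R) ∧ ∀ y, y ∉ I → s y = t0 y with hS
  let f : (G → Finset (Fin r)) → (G → ℤ) := fun s y => if y ∈ I then sv (s y) else 0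
  let c : Ix κ × Ix κ → QuadraticAlgebra ℤ a b := ∑ y, (if y ∈ I then 0 else sv (t0 y)) • A y
  have hsplit : ∀ s ∈ S, comb A s = c + ∑ y, f s y • A y := by
    intro s hs
    obtain ⟨-, -, -, hoff⟩ := Finset.mem_filter.mp hs
    show ∑ y, sv (s y) • A y = ∑ y, (if y ∈ I then 0 else sv (t0 y)) • A y + ∑ y, f s y • A y
    rw [← Finset.sum_add_distrib]
    refine Finset.sum_congr rfl fun y _ => ?_
    rw [← add_smul]
    congr 1
    by_cases hy : y ∈ I
    · simp [f, hy]
    · simp [f, hy, hoff y hy]
  have h1 : (S.card : ℝ) ≤ (2 ^ r * (r : ℝ) ^ (-(1 / 2 : ℝ))) ^ I.card * (S.image f).card := by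
    have e : S.card = ∑ z ∈ S.image f, (S.filter fun t => f t = z).card :=
      Finset.card_eq_sum_card_image f S
    rw [e]
    push_cast
    refine (Finset.sum_le_card_nsmul _ _ ((2 ^ r * (r : ℝ) ^ (-(1 / 2 : ℝ))) ^ I.card) ?_).trans
      (le_of_eq ?_)
    · intro z hz
      obtain ⟨s1, hs1, rfl⟩ := Finset.mem_image.mp hz
      have hsub : (S.filter fun t => f t = f s1) ⊆ Fintype.piFinset fun y =>
          if y ∈ I then Finset.powersetCard (s1 y).card univ else {t0 y} := by
        intro s hs
        obtain ⟨h2, h3⟩ := Finset.mem_filter.mp hs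
        obtain ⟨-, -, -, hoff⟩ := Finset.mem_filter.mp h2
        rw [Fintype.mem_piFinset]
        intro y
        by_cases hy : y ∈ I
        · have h4 := congrFun h3 y
          simp only [f, hy, if_true] at h4
          rw [if_pos hy, Finset.mem_powersetCard]
          refine ⟨Finset.subset_univ _, ?_⟩
          unfold sv at h4
          omega
        · rw [if_neg hy, Finset.mem_singleton]
          exact hoff y hy
      have h5 : ((S.filter fun t => f t = f s1).card : ℝ)
          ≤ ((Fintype.piFinset fun y =>
          if y ∈ I then Finset.powersetCard (s1 y).card univ else {t0 y}).card : ℝ) := by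
        exact_mod_cast Finset.card_le_card hsub
      refine h5.trans ?_
      rw [Fintype.card_piFinset]
      push_cast
      have h6 : ∀ y ∈ (univ : Finset G), (((if y ∈ I then
          Finset.powersetCard (s1 y).card (univ : Finset (Fin r)) else {t0 y}).card : ℕ) : ℝ)
          ≤ if y ∈ I then 2 ^ r * (r : ℝ) ^ (-(1 / 2 : ℝ)) else 1 := by
        intro y _
        by_cases hy : y ∈ I
        · rw [if_pos hy, if_pos hy, Finset.card_powersetCard, Finset.card_univ, Fintype.card_fin]
          exact choose_le_real r _ hr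
        · rw [if_neg hy, if_neg hy, Finset.card_singleton, Nat.cast_one]
      refine (Finset.prod_le_prod (fun y _ => Nat.cast_nonneg _) h6).trans (le_of_eq ?_)
      rw [Finset.prod_ite, Finset.prod_const_one, mul_one, Finset.prod_const]
      congr 1
      rw [Finset.filter_mem_eq_inter, Finset.univ_inter]
    · rw [nsmul_eq_mul, mul_comm]
  have h2 : ((S.image f).card : ℝ) ≤ Q := by
    refine le_trans ?_ (hQ c ?_)
    · have h3 : (S.image f).card ≤ ((FB c (C1 A * R)).filter fun t => (TM t).det = 0).card := by
        refine Finset.card_le_card_of_injOn (fun z => c + ∑ y, z y • A y) ?_ ?_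
        · intro z hz
          rw [Finset.mem_coe, Finset.mem_image] at hz
          obtain ⟨s, hs, rfl⟩ := hz
          obtain ⟨-, hdet, hR, hoff⟩ := Finset.mem_filter.mp hs
          rw [Finset.mem_coe, Finset.mem_filter]
          refine ⟨?_, ?_⟩
          · rw [mem_FB]
            intro p
            have h4 := comb_coord_le A (f s) R (by
              intro y
              by_cases hy : y ∈ I
              · simp only [f, hy, if_true]
                exact hR y hy
              · simp [f, hy]) p
            show (c + ∑ y, f s y • A y) p ∈ box (c p) (C1 A * R)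
            rw [mem_box]
            have e1 : (c + ∑ y, f s y • A y) p = c p + (∑ y, f s y • A y) p := rfl
            rw [e1, re_add, im_add]
            obtain ⟨h5, h6⟩ := h4
            zify at h5 h6
            rw [abs_le] at h5 h6
            push_cast
            constructor <;> constructor <;> linarith [h5.1, h5.2, h6.1, h6.2]
          · have := hsplit s hs
            simp only
            rw [← this]
            exact hdet
        · intro z hz z' hz' hzz
          rw [Finset.mem_coe, Finset.mem_image] at hz hz'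
          obtain ⟨s, hs, rfl⟩ := hz
          obtain ⟨s', hs', rfl⟩ := hz'
          have h4 : ∑ y, f s y • A y = ∑ y, f s' y • A y := add_left_cancel hzz
          have h5 : f s - f s' = 0 := by
            apply hli
            · intro y hy
              simp [f, hy]
            · simp only [Pi.sub_apply, sub_smul, Finset.sum_sub_distrib]
              rw [h4, sub_self]
          exact sub_eq_zero.mp h5
      exact_mod_cast h3
    · intro p
      have h4 := comb_coord_le A (fun y => if y ∈ I then 0 else sv (t0 y)) (r + R) (by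
        intro y
        by_cases hy : y ∈ I
        · simp [hy]
        · simp only [hy, if_false]
          exact (sv_le (t0 y)).trans (Nat.le_add_right _ _)) p
      exact h4
  refine h1.trans (mul_le_mul_of_nonneg_left h2 (by positivity))

open Classical in
/-- the atypical part of one fibre -/
lemma card_atypical_le (r R : ℕ) (hr : 1 ≤ r) (t0 : G → Finset (Fin r)) :
    (((univ : Finset (G → Finset (Fin r))).filter fun s =>
      (∃ y ∈ I, R < (sv (s y)).natAbs) ∧ ∀ y, y ∉ I → s y = t0 y).card : ℝ)
      ≤ 2 * I.card * ((2 : ℝ) ^ r) ^ I.card * Real.exp (-((R : ℝ) ^ 2 / (2 * r))) := by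
  have hsub : ((univ : Finset (G → Finset (Fin r))).filter fun s =>
      (∃ y ∈ I, R < (sv (s y)).natAbs) ∧ ∀ y, y ∉ I → s y = t0 y)
      ⊆ I.biUnion fun y0 => Fintype.piFinset fun y => if y = y0 then
        (univ : Finset (Finset (Fin r))).filter (fun u => R < (sv u).natAbs)
        else if y ∈ I then univ else {t0 y} := by
    intro s hs
    obtain ⟨-, ⟨y0, hy0, hR⟩, hoff⟩ := Finset.mem_filter.mp hs
    rw [Finset.mem_biUnion]
    refine ⟨y0, hy0, ?_⟩
    rw [Fintype.mem_piFinset]
    intro y
    by_cases h : y = y0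
    · subst h
      rw [if_pos rfl, Finset.mem_filter]
      exact ⟨Finset.mem_univ _, hR⟩
    · rw [if_neg h]
      by_cases hy : y ∈ I
      · rw [if_pos hy]
        exact Finset.mem_univ _
      · rw [if_neg hy, Finset.mem_singleton]
        exact hoff y hy
  have h1 := (Finset.card_le_card hsub).trans Finset.card_biUnion_le
  have h1R : (((univ : Finset (G → Finset (Fin r))).filter fun s =>
      (∃ y ∈ I, R < (sv (s y)).natAbs) ∧ ∀ y, y ∉ I → s y = t0 y).card : ℝ)
      ≤ ∑ y0 ∈ I, ((Fintype.piFinset fun y => if y = y0 then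
        (univ : Finset (Finset (Fin r))).filter (fun u => R < (sv u).natAbs)
        else if y ∈ I then univ else {t0 y}).card : ℝ) := by exact_mod_cast h1
  refine h1R.trans ?_
  have h2 : ∀ y0 ∈ I, ((Fintype.piFinset fun y => if y = y0 then
        (univ : Finset (Finset (Fin r))).filter (fun u => R < (sv u).natAbs)
        else if y ∈ I then univ else {t0 y}).card : ℝ)
      ≤ 2 * ((2 : ℝ) ^ r) ^ I.card * Real.exp (-((R : ℝ) ^ 2 / (2 * r))) := by
    intro y0 hy0
    rw [Fintype.card_piFinset]
    push_cast
    rw [← Finset.mul_prod_erase univ _ (Finset.mem_univ y0), if_pos rfl]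
    have h3 : ∏ y ∈ univ.erase y0, (((if y = y0 then
        (univ : Finset (Finset (Fin r))).filter (fun u => R < (sv u).natAbs)
        else if y ∈ I then univ else {t0 y} : Finset (Finset (Fin r))).card : ℕ) : ℝ)
        ≤ ((2 : ℝ) ^ r) ^ (I.card - 1) := by
      have h4 : ∀ y ∈ univ.erase y0, (((if y = y0 then
          (univ : Finset (Finset (Fin r))).filter (fun u => R < (sv u).natAbs)
          else if y ∈ I then univ else {t0 y} : Finset (Finset (Fin r))).card : ℕ) : ℝ)
          ≤ if y ∈ I then (2 : ℝ) ^ r else 1 := by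
        intro y hy
        rw [if_neg (Finset.ne_of_mem_erase hy)]
        by_cases hyI : y ∈ I
        · rw [if_pos hyI, if_pos hyI, Finset.card_univ, Fintype.card_finset, Fintype.card_fin]
          push_cast
          exact le_refl _
        · rw [if_neg hyI, if_neg hyI, Finset.card_singleton, Nat.cast_one]
      refine (Finset.prod_le_prod (fun y _ => Nat.cast_nonneg _) h4).trans (le_of_eq ?_)
      rw [Finset.prod_ite, Finset.prod_const_one, mul_one, Finset.prod_const]
      congr 1
      have h5 : (univ.erase y0).filter (fun y => y ∈ I) = I.erase y0 := by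
        ext y
        simp only [Finset.mem_filter, Finset.mem_erase, Finset.mem_univ, and_true]
      rw [h5, Finset.card_erase_of_mem hy0]
    have h6 := card_tail_le r R hr
    have hI1 : 1 ≤ I.card := Finset.card_pos.mpr ⟨y0, hy0⟩
    calc _ ≤ (2 * 2 ^ r * Real.exp (-((R : ℝ) ^ 2 / (2 * r)))) * ((2 : ℝ) ^ r) ^ (I.card - 1) :=
          mul_le_mul h6 h3 (Finset.prod_nonneg fun _ _ => Nat.cast_nonneg _) (by positivity)
      _ = 2 * ((2 : ℝ) ^ r) ^ I.card * Real.exp (-((R : ℝ) ^ 2 / (2 * r))) := by
          obtain ⟨m, hm⟩ := Nat.exists_eq_add_of_le hI1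
          rw [hm]
          have : 1 + m - 1 = m := by omega
          rw [this, pow_add, pow_one]
          ring
  refine (Finset.sum_le_card_nsmul _ _ _ h2).trans (le_of_eq ?_)
  rw [nsmul_eq_mul]
  ring

end

end Pool.Agent.Lib.MP_938ce2_ag_h65u
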