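import Mathlib
import Pool.Agent.Lib.MP_938ce2_ag_h65u.Prob

/-!
The probability that a random matrix over a quadratic order is singular: asymptotic form.
-/

set_option autoImplicit false
set_option linter.unusedSectionVars false

namespace Pool.Agent.Lib.MP_938ce2_ag_h65u

open Matrix QuadraticAlgebra Module Finset

/-- exponential decay beats powers -/
lemma exp_neg_le (p : ℕ) (x : ℝ) (hx : 0 < x) : Real.exp (-x) ≤ (p.factorial : ℝ) / x ^ p := by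
  have h1 : x ^ p / (p.factorial : ℝ) ≤ Real.exp x := Real.pow_div_factorial_le_exp x hx.le p
  rw [Real.exp_neg, le_div_iff₀ (by positivity), ← div_eq_inv_mul, div_le_iff₀ (Real.exp_pos x)]
  rw [div_le_iff₀ (by positivity)] at h1
  linarith

/-- the radius -/
lemma radius (N : ℕ) (hN : 4 ≤ N) (r : ℕ) (hr : 1 ≤ r) : ∃ R : ℕ, 1 ≤ R ∧
    (R : ℝ) ≤ 2 * (r : ℝ) ^ (1 / 2 + 1 / (16 * N) : ℝ) ∧
    (R : ℝ) ≤ 2 * r ∧ (r : ℝ) ^ (1 + 1 / (8 * N) : ℝ) ≤ (R : ℝ) ^ 2 := by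
  have hr1 : (1 : ℝ) ≤ r := by exact_mod_cast hr
  have hN4 : (4 : ℝ) ≤ N := by exact_mod_cast hN
  have h1 : (1 : ℝ) ≤ (r : ℝ) ^ (1 / 2 + 1 / (16 * N) : ℝ) :=
    Real.one_le_rpow hr1 (by positivity)
  have h2 : (r : ℝ) ^ (1 / 2 + 1 / (16 * N) : ℝ) ≤ r := by
    calc (r : ℝ) ^ (1 / 2 + 1 / (16 * N) : ℝ) ≤ (r : ℝ) ^ (1 : ℝ) := by
          apply Real.rpow_le_rpow_of_exponent_le hr1
          have : (1 : ℝ) / (16 * N) ≤ 1 / (16 * 4) :=
            one_div_le_one_div_of_le (by norm_num) (by linarith)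
          linarith
      _ = r := Real.rpow_one _
  refine ⟨⌈(r : ℝ) ^ (1 / 2 + 1 / (16 * N) : ℝ)⌉₊, ?_, ?_, ?_, ?_⟩
  · exact Nat.one_le_ceil_iff.mpr (by linarith)
  · have := (Nat.ceil_lt_add_one (by linarith : (0 : ℝ) ≤ (r : ℝ) ^ (1 / 2 + 1 / (16 * N) : ℝ))).le
    linarith
  · have := (Nat.ceil_lt_add_one (by linarith : (0 : ℝ) ≤ (r : ℝ) ^ (1 / 2 + 1 / (16 * N) : ℝ))).le
    linarith
  · have h3 := Nat.le_ceil ((r : ℝ) ^ (1 / 2 + 1 / (16 * N) : ℝ))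
    have h4 : (r : ℝ) ^ (1 + 1 / (8 * N) : ℝ) = ((r : ℝ) ^ (1 / 2 + 1 / (16 * N) : ℝ)) ^ 2 := by
      rw [← Real.rpow_natCast, ← Real.rpow_mul (by linarith)]
      congr 1
      push_cast
      field_simp
      ring
    rw [h4]
    exact pow_le_pow_left₀ (by linarith) h3 2

variable {a b : ℤ} [Aniso a b] {κ : Type} [Fintype κ] [DecidableEq κ] {G : Type} [Fintype G]
  [DecidableEq G]

open Classical in
/-- the count of bad points -/
lemma exists_Q (c1 : ℕ) (hc1 : 1 ≤ c1) : ∃ C : ℝ, 0 < C ∧ ∀ r R : ℕ, 1 ≤ r → 1 ≤ R →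
    (R : ℝ) ≤ 2 * (r : ℝ) ^ (1 / 2 + 1 / (16 * (Fintype.card (Ix κ × Ix κ) : ℕ)) : ℝ) →
    (R : ℝ) ≤ 2 * r →
    ∀ c : Ix κ × Ix κ → QuadraticAlgebra ℤ a b,
      (∀ i, (c i).re.natAbs ≤ c1 * (r + R) ∧ (c i).im.natAbs ≤ c1 * (r + R)) →
      (((FB c (c1 * R)).filter fun t => (TM t).det = 0).card : ℝ)
        ≤ C * (r : ℝ) ^ ((Fintype.card (Ix κ × Ix κ) : ℝ) - 5 / 4) := by
  obtain ⟨C0, hC0, hC⟩ := sing_count (a := a) (b := b) (κ := κ) (1 / 8) (by norm_num)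
  set N := Fintype.card (Ix κ × Ix κ) with hN
  have hN3 : 3 ≤ N := three_le_card
  have hc1R : (1 : ℝ) ≤ c1 := by exact_mod_cast hc1
  refine ⟨C0 * (6 * c1 : ℝ) ^ (2 * N - 3) * (3 * c1 : ℝ) ^ (1 / 8 : ℝ), by positivity, ?_⟩
  intro r R hr hR hR1 hR2 c hc
  have hr1 : (1 : ℝ) ≤ r := by exact_mod_cast hr
  have hRR : (1 : ℝ) ≤ R := by exact_mod_cast hR
  have h1 := hC c (c1 * R) (c1 * (r + R)) (Nat.mul_pos hc1 (by omega))
    (Nat.mul_le_mul_left _ (by omega)) hc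
  refine h1.trans ?_
  push_cast
  have h2 : (2 * ((c1 : ℝ) * R) + 1) ≤ (6 * c1) * (r : ℝ) ^ (1 / 2 + 1 / (16 * (N : ℝ))) := by
    have h3 : (1 : ℝ) ≤ c1 * R := by nlinarith
    have h4 : (c1 : ℝ) * R ≤ c1 * (2 * (r : ℝ) ^ (1 / 2 + 1 / (16 * (N : ℝ)))) :=
      mul_le_mul_of_nonneg_left hR1 (by linarith)
    linarith
  have h3 : ((c1 : ℝ) * (r + R)) ≤ 3 * c1 * r := by nlinarith
  have h4 : (2 * ((c1 : ℝ) * R) + 1) ^ (2 * N - 3)
      ≤ (6 * c1) ^ (2 * N - 3) * (r : ℝ) ^ ((N : ℝ) - 3 / 2 + 1 / 8) := by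
    refine (pow_le_pow_left₀ (by positivity) h2 _).trans ?_
    rw [mul_pow]
    refine mul_le_mul_of_nonneg_left ?_ (by positivity)
    rw [← Real.rpow_natCast, ← Real.rpow_mul (by linarith)]
    apply Real.rpow_le_rpow_of_exponent_le hr1
    have h5 : ((2 * N - 3 : ℕ) : ℝ) = 2 * N - 3 := by
      rw [Nat.cast_sub (by omega)]
      push_cast
      ring
    rw [h5]
    have hN0 : (0 : ℝ) < N := by
      have : 0 < N := by omega
      exact_mod_cast this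
    have h6 : (1 / 2 + 1 / (16 * (N : ℝ))) * (2 * N - 3)
        = (N : ℝ) - 3 / 2 + 1 / 8 - 3 / (16 * N) := by
      field_simp
      ring
    rw [h6]
    have : (0 : ℝ) ≤ 3 / (16 * N) := by positivity
    linarith
  have h5 : ((c1 : ℝ) * (r + R)) ^ (1 / 8 : ℝ) ≤ (3 * c1) ^ (1 / 8 : ℝ) * (r : ℝ) ^ (1 / 8 : ℝ) := by
    rw [← Real.mul_rpow (by positivity) (by positivity)]
    exact Real.rpow_le_rpow (by positivity) h3 (by norm_num)
  have h6 : (r : ℝ) ^ ((N : ℝ) - 5 / 4)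
      = (r : ℝ) ^ ((N : ℝ) - 3 / 2 + 1 / 8) * (r : ℝ) ^ (1 / 8 : ℝ) := by
    rw [← Real.rpow_add (by linarith)]
    congr 1
    ring
  rw [h6]
  calc C0 * (2 * ((c1 : ℝ) * R) + 1) ^ (2 * N - 3) * ((c1 : ℝ) * (r + R)) ^ (1 / 8 : ℝ)
      ≤ C0 * ((6 * c1) ^ (2 * N - 3) * (r : ℝ) ^ ((N : ℝ) - 3 / 2 + 1 / 8))
        * ((3 * c1) ^ (1 / 8 : ℝ) * (r : ℝ) ^ (1 / 8 : ℝ)) := by
        apply mul_le_mul _ h5 (by positivity) (by positivity)
        exact mul_le_mul_of_nonneg_left h4 hC0.le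
    _ = _ := by ring

/-- the tail is negligible -/
lemma tail_le (N : ℕ) (hN : 4 ≤ N) (r R : ℕ) (hr : 1 ≤ r)
    (hR : (r : ℝ) ^ (1 + 1 / (8 * N) : ℝ) ≤ (R : ℝ) ^ 2) :
    Real.exp (-((R : ℝ) ^ 2 / (2 * r)))
      ≤ ((10 * N).factorial : ℝ) * 2 ^ (10 * N) * (r : ℝ) ^ (-(5 / 4) : ℝ) := by
  have hr1 : (1 : ℝ) ≤ r := by exact_mod_cast hr
  have hr0 : (0 : ℝ) < r := by linarith
  have hN0 : (0 : ℝ) < N := by
    have : 0 < N := by omega
    exact_mod_cast this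
  have h1 : (r : ℝ) ^ (1 / (8 * N) : ℝ) / 2 ≤ (R : ℝ) ^ 2 / (2 * r) := by
    rw [Real.rpow_add hr0, Real.rpow_one] at hR
    rw [div_le_div_iff₀ (by norm_num) (by positivity)]
    nlinarith
  have h2 : Real.exp (-((R : ℝ) ^ 2 / (2 * r))) ≤ Real.exp (-((r : ℝ) ^ (1 / (8 * N) : ℝ) / 2)) := by
    apply Real.exp_le_exp.mpr
    linarith
  refine h2.trans ((exp_neg_le (10 * N) _ (by positivity)).trans (le_of_eq ?_))
  rw [div_pow, ← Real.rpow_natCast ((r : ℝ) ^ (1 / (8 * N) : ℝ)), ← Real.rpow_mul hr0.le,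
    Real.rpow_neg hr0.le]
  have h3 : (1 / (8 * (N : ℝ)) * ((10 * N : ℕ) : ℝ)) = 5 / 4 := by
    push_cast
    field_simp
    ring
  rw [h3]
  field_simp

open Classical in
/-- a random integral combination of matrices is rarely singular -/
theorem matrix_prob (A : G → Ix κ × Ix κ → QuadraticAlgebra ℤ a b) (I : Finset G)
    (hI : I.card = 2 * Fintype.card (Ix κ × Ix κ))
    (hli : ∀ z : G → ℤ, (∀ y, y ∉ I → z y = 0) → ∑ y, z y • A y = 0 → z = 0) :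
    ∃ C : ℝ, 0 < C ∧ ∀ r : ℕ, 1 ≤ r →
      (((univ : Finset (G → Finset (Fin r))).filter fun s => (TM (comb A s)).det = 0).card : ℝ)
        ≤ C * (r : ℝ) ^ (-(5 / 4) : ℝ) * 2 ^ (r * Fintype.card G) := by
  have hc1 : 1 ≤ C1 A := by
    unfold C1
    omega
  obtain ⟨CQ, hCQ, hQ⟩ := exists_Q (a := a) (b := b) (κ := κ) (C1 A) hc1
  set N := Fintype.card (Ix κ × Ix κ) with hN
  have hN4 : 4 ≤ N := by
    rw [hN, Fintype.card_prod, card_Ix]
    nlinarith [Nat.zero_le (Fintype.card κ)]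
  set T : ℝ := ((10 * N).factorial : ℝ) * 2 ^ (10 * N) with hT
  refine ⟨CQ + 4 * N * T, by positivity, ?_⟩
  intro r hr
  have hr1 : (1 : ℝ) ≤ r := by exact_mod_cast hr
  have hr0 : (0 : ℝ) < r := by linarith
  obtain ⟨R, hR1, hRa, hRb, hRc⟩ := radius N hN4 r hr
  have hfib : ∀ t0 : G → Finset (Fin r),
      ((((univ : Finset (G → Finset (Fin r))).filter fun s => (TM (comb A s)).det = 0).filter
        fun t => (∀ i, i ∉ I → t i = t0 i)).card : ℝ)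
      ≤ (CQ + 4 * N * T) * (r : ℝ) ^ (-(5 / 4) : ℝ) * (2 ^ r) ^ (2 * N) := by
    intro t0
    have h1 := card_typical_le A I r R hr t0 (CQ * (r : ℝ) ^ ((N : ℝ) - 5 / 4)) hli
      (fun c hc => hQ r R hr hR1 hRa hRb c hc)
    have h2 := card_atypical_le I r R hr t0
    have h3 := tail_le N hN4 r R hr hRc
    have hsub : (((univ : Finset (G → Finset (Fin r))).filter fun s =>
        (TM (comb A s)).det = 0).filter fun t => (∀ i, i ∉ I → t i = t0 i))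
        ⊆ ((univ : Finset (G → Finset (Fin r))).filter fun s => (TM (comb A s)).det = 0 ∧
          (∀ y ∈ I, (sv (s y)).natAbs ≤ R) ∧ ∀ y, y ∉ I → s y = t0 y) ∪
          ((univ : Finset (G → Finset (Fin r))).filter fun s =>
          (∃ y ∈ I, R < (sv (s y)).natAbs) ∧ ∀ y, y ∉ I → s y = t0 y) := by
      intro s hs
      obtain ⟨h4, h5⟩ := Finset.mem_filter.mp hs
      obtain ⟨-, h6⟩ := Finset.mem_filter.mp h4
      rw [Finset.mem_union, Finset.mem_filter, Finset.mem_filter]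
      by_cases h7 : ∀ y ∈ I, (sv (s y)).natAbs ≤ R
      · exact Or.inl ⟨Finset.mem_univ _, h6, h7, h5⟩
      · push Not at h7
        exact Or.inr ⟨Finset.mem_univ _, h7, h5⟩
    have h8 := (Finset.card_le_card hsub).trans (Finset.card_union_le _ _)
    have h9 : ((((univ : Finset (G → Finset (Fin r))).filter fun s =>
        (TM (comb A s)).det = 0).filter fun t => (∀ i, i ∉ I → t i = t0 i)).card : ℝ)
        ≤ (((univ : Finset (G → Finset (Fin r))).filter fun s => (TM (comb A s)).det = 0 ∧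
          (∀ y ∈ I, (sv (s y)).natAbs ≤ R) ∧ ∀ y, y ∉ I → s y = t0 y).card : ℝ) +
          (((univ : Finset (G → Finset (Fin r))).filter fun s =>
          (∃ y ∈ I, R < (sv (s y)).natAbs) ∧ ∀ y, y ∉ I → s y = t0 y).card : ℝ) := by
      exact_mod_cast h8
    refine h9.trans ((add_le_add h1 h2).trans ?_)
    rw [hI]
    have h10 : (2 ^ r * (r : ℝ) ^ (-(1 / 2) : ℝ)) ^ (2 * N) * (CQ * (r : ℝ) ^ ((N : ℝ) - 5 / 4))
        = CQ * (r : ℝ) ^ (-(5 / 4) : ℝ) * (2 ^ r) ^ (2 * N) := by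
      rw [mul_pow, ← Real.rpow_natCast ((r : ℝ) ^ (-(1 / 2) : ℝ)), ← Real.rpow_mul hr0.le]
      have h11 : (-(1 / 2) : ℝ) * ((2 * N : ℕ) : ℝ) = -N := by
        push_cast
        ring
      rw [h11]
      have h12 : (r : ℝ) ^ (-(5 / 4) : ℝ) = (r : ℝ) ^ (-(N : ℝ)) * (r : ℝ) ^ ((N : ℝ) - 5 / 4) := by
        rw [← Real.rpow_add hr0]
        congr 1
        ring
      rw [h12]
      ring
    rw [h10]
    have h13 : 2 * ((2 * N : ℕ) : ℝ) * ((2 : ℝ) ^ r) ^ (2 * N) * Real.exp (-((R : ℝ) ^ 2 / (2 * r)))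
        ≤ 4 * N * T * (r : ℝ) ^ (-(5 / 4) : ℝ) * (2 ^ r) ^ (2 * N) := by
      push_cast
      have h14 : (0 : ℝ) ≤ 4 * N * (2 ^ r) ^ (2 * N) := by positivity
      have h15 := mul_le_mul_of_nonneg_left h3 h14
      rw [← hT] at h15
      calc _ = 4 * N * (2 ^ r) ^ (2 * N) * Real.exp (-((R : ℝ) ^ 2 / (2 * r))) := by ring
        _ ≤ _ := h15
        _ = _ := by ring
    calc _ ≤ CQ * (r : ℝ) ^ (-(5 / 4) : ℝ) * (2 ^ r) ^ (2 * N)
          + 4 * N * T * (r : ℝ) ^ (-(5 / 4) : ℝ) * (2 ^ r) ^ (2 * N) := by linarith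
      _ = _ := by ring
  have h1 := card_le_of_fibre' (α := G) (X := Finset (Fin r)) ∅ (fun _ => univ) (2 ^ r)
    (fun i => by rw [Finset.card_univ, Fintype.card_finset, Fintype.card_fin])
    ((univ : Finset (G → Finset (Fin r))).filter fun s => (TM (comb A s)).det = 0)
    (fun s _ => by
      rw [Fintype.mem_piFinset]
      exact fun _ => Finset.mem_univ _) I _ hfib
  refine h1.trans (le_of_eq ?_)
  have hle : 2 * N ≤ Fintype.card G := by
    rw [← hI, ← Finset.card_univ]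
    exact Finset.card_le_card (Finset.subset_univ I)
  rw [hI]
  push_cast
  rw [mul_assoc, ← pow_add, Nat.add_sub_cancel' hle, pow_mul]

end Pool.Agent.Lib.MP_938ce2_ag_h65u
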