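import Mathlib
import Pool.Agent.Lib.MP_938ce2_ag_h65u.Matrix

/-!
Random combinations of operators on a vector space over a quadratic field are rarely singular.
-/

set_option autoImplicit false
set_option linter.unusedSectionVars false

namespace Pool.Agent.Lib.MP_938ce2_ag_h65u

open Module Finset

/-- a common denominator -/
lemma common_den {O F ι : Type} [CommRing O] [Field F] (j : O →+* F) [Fintype ι]
    (hden : ∀ x : F, ∃ d : ℕ, 1 ≤ d ∧ ∃ z, j z = (d : F) * x) (f : ι → F) :
    ∃ d : ℕ, 1 ≤ d ∧ ∀ i, ∃ z, j z = (d : F) * f i := by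
  classical
  choose d hd z hz using fun i => hden (f i)
  refine ⟨∏ i, d i, ?_, ?_⟩
  · exact Nat.succ_le_of_lt (Finset.prod_pos fun i _ => hd i)
  · intro i
    refine ⟨(∏ k ∈ univ.erase i, (d k : O)) * z i, ?_⟩
    rw [map_mul, hz, map_prod]
    simp only [map_natCast]
    rw [← mul_assoc, ← Nat.cast_prod, ← Nat.cast_mul, Finset.prod_erase_mul _ _ (Finset.mem_univ i)]

/-- a basis extracted from a spanning family -/
lemma exists_basis_set {G V : Type} [Fintype G] [DecidableEq G] [AddCommGroup V] [Module ℚ V]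
    [Module.Finite ℚ V] (v : G → V) (hv : Submodule.span ℚ (Set.range v) = ⊤) :
    ∃ I : Finset G, I.card = finrank ℚ V ∧
      ∀ z : G → ℚ, (∀ y, y ∉ I → z y = 0) → ∑ y, z y • v y = 0 → z = 0 := by
  classical
  obtain ⟨κ, f, hf, hsp, hli⟩ := exists_linearIndependent' ℚ v
  rw [hv] at hsp
  have : Fintype κ := Fintype.ofInjective f hf
  refine ⟨univ.image f, ?_, ?_⟩
  · rw [Finset.card_image_of_injective _ hf, Finset.card_univ]
    exact (finrank_eq_card_basis (Basis.mk hli (by rw [hsp]))).symm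
  · intro z hz h0
    have h1 : ∑ k, z (f k) • (v ∘ f) k = 0 := by
      rw [← h0, ← Finset.sum_subset (Finset.subset_univ (univ.image f))]
      · rw [Finset.sum_image fun x _ y _ h => hf h]
        rfl
      · intro y _ hy
        rw [hz y hy, zero_smul]
    have h2 := Fintype.linearIndependent_iff.mp hli (fun k => z (f k)) h1
    funext y
    by_cases hy : y ∈ univ.image f
    · obtain ⟨k, -, rfl⟩ := Finset.mem_image.mp hy
      exact h2 k
    · exact hz y hy

open Classical in
theorem prob_of_field {a b : ℤ} [Aniso a b] (F : Type) [Field F] [Algebra ℚ F]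
    (j : QuadraticAlgebra ℤ a b →+* F) (hj : Function.Injective j)
    (hden : ∀ x : F, ∃ d : ℕ, 1 ≤ d ∧ ∃ z, j z = (d : F) * x) (hF : finrank ℚ F = 2)
    (S : Type) [AddCommGroup S] [Module ℚ S] [Module F S] [IsScalarTower ℚ F S]
    [Module.Finite ℚ S] (h4 : 4 ≤ finrank ℚ S) (G : Type) [Fintype G] (ρ : G → (S →ₗ[F] S))
    (hρ : Submodule.span ℚ (Set.range ρ) = ⊤) :
    ∃ C : ℝ, 0 < C ∧ ∀ r : ℕ, 1 ≤ r →
      (((univ : Finset (G → Finset (Fin r))).filter fun s =>
        ∃ v : S, v ≠ 0 ∧ ∑ y, ((sv (s y) : ℤ) : ℚ) • ρ y v = 0).card : ℝ)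
        ≤ C * (r : ℝ) ^ (-(5 / 4) : ℝ) * 2 ^ (r * Fintype.card G) := by
  have hfF : Module.Finite F S := Module.Finite.of_restrictScalars_finite ℚ F S
  have hfQ : Module.Finite ℚ F := Module.finite_of_finrank_pos (by rw [hF]; norm_num)
  have hn := finrank_mul_finrank ℚ F S
  rw [hF] at hn
  have hn2 : 2 ≤ finrank F S := by omega
  let κ : Type := Fin (finrank F S - 2)
  have hcard : Fintype.card (Ix κ) = finrank F S := by
    rw [card_Ix, Fintype.card_fin]
    omega
  let bas : Basis (Ix κ) F S := (Module.finBasis F S).reindex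
    (Fintype.equivOfCardEq (by rw [Fintype.card_fin, hcard]))
  have hfE : Module.Finite F (S →ₗ[F] S) := inferInstance
  have hfEQ : Module.Finite ℚ (S →ₗ[F] S) := Module.Finite.trans F _
  have hE : finrank ℚ (S →ₗ[F] S) = 2 * Fintype.card (Ix κ × Ix κ) := by
    rw [← finrank_mul_finrank ℚ F (S →ₗ[F] S), hF, finrank_linearMap, Fintype.card_prod, hcard]
  obtain ⟨I, hI, hli⟩ := exists_basis_set ρ hρ
  rw [hE] at hI
  obtain ⟨d, hd, hz⟩ := common_den (ι := G × (Ix κ × Ix κ)) j hden
    (fun p => LinearMap.toMatrix bas bas (ρ p.1) p.2.1 p.2.2)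
  choose A hA using hz
  have hdF : (d : F) ≠ 0 := by
    have : CharZero F := algebraRat.charZero F
    exact_mod_cast (by omega : d ≠ 0)
  have hcomb : ∀ z : G → ℤ, ∀ p : Ix κ × Ix κ, j ((∑ y, z y • fun p => A (y, p)) p)
      = (d : F) * LinearMap.toMatrix bas bas (∑ y, ((z y : ℤ) : ℚ) • ρ y) p.1 p.2 := by
    intro z p
    rw [Finset.sum_apply, map_sum, map_sum, Matrix.sum_apply, Finset.mul_sum]
    refine Finset.sum_congr rfl fun y _ => ?_
    rw [Pi.smul_apply, zsmul_eq_mul, map_mul, map_intCast, hA]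
    have h1 : LinearMap.toMatrix bas bas (((z y : ℤ) : ℚ) • ρ y) p.1 p.2
        = ((z y : ℤ) : F) * LinearMap.toMatrix bas bas (ρ y) p.1 p.2 := by
      have h2 : (((z y : ℤ) : ℚ) • ρ y) = ((z y : ℤ) : F) • ρ y := by
        apply LinearMap.ext
        intro v
        rw [LinearMap.smul_apply, LinearMap.smul_apply, Int.cast_smul_eq_zsmul,
          Int.cast_smul_eq_zsmul]
      rw [h2, map_smul, Matrix.smul_apply, smul_eq_mul]
    rw [h1]
    ring
  obtain ⟨C, hC0, hC⟩ := matrix_prob (a := a) (b := b) (fun y p => A (y, p)) I hI (by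
    intro z hz h0
    have h1 : ∑ y, ((z y : ℤ) : ℚ) • ρ y = 0 := by
      apply (LinearMap.toMatrix bas bas).injective
      ext i k
      have h2 := hcomb z (i, k)
      rw [h0] at h2
      simp only [Pi.zero_apply, map_zero] at h2
      rw [map_zero, Matrix.zero_apply]
      exact (mul_eq_zero.mp h2.symm).resolve_left hdF
    have h2 := hli (fun y => ((z y : ℤ) : ℚ)) (fun y hy => by simp [hz y hy]) h1
    funext y
    have h3 := congrFun h2 y
    simpa using h3)
  refine ⟨C, hC0, fun r hr => le_trans ?_ (hC r hr)⟩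
  have hsub : ((univ : Finset (G → Finset (Fin r))).filter fun s =>
        ∃ v : S, v ≠ 0 ∧ ∑ y, ((sv (s y) : ℤ) : ℚ) • ρ y v = 0)
      ⊆ (univ : Finset (G → Finset (Fin r))).filter fun s =>
        (TM (comb (fun y p => A (y, p)) s)).det = 0 := by
    intro s hs
    obtain ⟨-, v, hv, h0⟩ := Finset.mem_filter.mp hs
    rw [Finset.mem_filter]
    refine ⟨Finset.mem_univ _, ?_⟩
    apply hj
    rw [map_zero, RingHom.map_det]
    have h1 : j.mapMatrix (TM (comb (fun y p => A (y, p)) s))
        = (d : F) • LinearMap.toMatrix bas bas (∑ y, ((sv (s y) : ℤ) : ℚ) • ρ y) := by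
      ext i k
      rw [Matrix.smul_apply, smul_eq_mul]
      exact hcomb (fun y => sv (s y)) (i, k)
    rw [h1, Matrix.det_smul]
    have h2 : (LinearMap.toMatrix bas bas (∑ y, ((sv (s y) : ℤ) : ℚ) • ρ y)).det = 0 := by
      rw [← Matrix.exists_mulVec_eq_zero_iff]
      refine ⟨bas.repr v, ?_, ?_⟩
      · intro h
        apply hv
        apply bas.repr.injective
        rw [map_zero]
        exact DFunLike.coe_injective h
      · rw [LinearMap.toMatrix_mulVec_repr]
        have h3 : (∑ y, ((sv (s y) : ℤ) : ℚ) • ρ y) v = 0 := by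
          rw [LinearMap.sum_apply]
          exact h0
        rw [h3, map_zero]
        rfl
    rw [h2, mul_zero]
  exact_mod_cast Finset.card_le_card hsub

end Pool.Agent.Lib.MP_938ce2_ag_h65u
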