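import Mathlib
import Pool.Agent.Lib.MP_938ce2_ag_h65u.Field
import Pool.Agent.Lib.MP_938ce2_ag_h85d.Isotypic

/-!
Random elements of a group algebra act on a simple module with quadratic endomorphism field without
kernel, mostly.
-/

set_option autoImplicit false
set_option linter.unusedSectionVars false

namespace Pool.Agent.Lib.MP_938ce2_ag_h65u

open Module Finset

section quad

section ring

variable {D : Type} [Ring D] [Nontrivial D] [Algebra ℚ D]

/-- coordinates with respect to `1, w` -/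
def co (w : D) : (ℚ × ℚ) →ₗ[ℚ] D where
  toFun p := algebraMap ℚ D p.1 + algebraMap ℚ D p.2 * w
  map_add' p q := by
    rw [Prod.fst_add, Prod.snd_add, map_add, map_add, add_mul]
    abel
  map_smul' c p := by
    rw [Prod.smul_fst, Prod.smul_snd, smul_eq_mul, smul_eq_mul, RingHom.id_apply,
      Algebra.smul_def, map_mul, map_mul, mul_add, mul_assoc]

lemma co_apply (w : D) (x y : ℚ) : co w (x, y) = algebraMap ℚ D x + algebraMap ℚ D y * w := rfl

lemma co_inj (w : D) (hw : ∀ x : ℚ, w ≠ algebraMap ℚ D x) : Function.Injective (co w) := by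
  rw [← LinearMap.ker_eq_bot, LinearMap.ker_eq_bot']
  rintro ⟨x, y⟩ h
  rw [co_apply] at h
  by_cases hy : y = 0
  · rw [hy, map_zero, zero_mul, add_zero] at h
    have : x = 0 := (map_eq_zero _).mp h
    rw [this, hy]
    rfl
  · exfalso
    apply hw (-(y⁻¹ * x))
    have h1 : w = algebraMap ℚ D y⁻¹ * (algebraMap ℚ D y * w) := by
      rw [← mul_assoc, ← map_mul, inv_mul_cancel₀ hy, map_one, one_mul]
    rw [h1, eq_neg_of_add_eq_zero_right h, map_neg, map_mul, mul_neg]

lemma co_surj (hD : finrank ℚ D = 2) (w : D) (hw : ∀ x : ℚ, w ≠ algebraMap ℚ D x) :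
    Function.Surjective (co w) := by
  have : Module.Finite ℚ D := Module.finite_of_finrank_pos (by rw [hD]; norm_num)
  rw [← LinearMap.injective_iff_surjective_of_finrank_eq_finrank]
  · exact co_inj w hw
  · rw [hD, finrank_prod, finrank_self]

lemma comm_of_finrank (hD : finrank ℚ D = 2) (f g : D) : f * g = g * f := by
  by_cases hf : ∀ x : ℚ, f ≠ algebraMap ℚ D x
  · obtain ⟨⟨x, y⟩, rfl⟩ := co_surj hD f hf g
    rw [co_apply, mul_add, add_mul, ← Algebra.commutes x f, mul_assoc, ← mul_assoc f,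
      ← Algebra.commutes y f, mul_assoc]
  · push Not at hf
    obtain ⟨x, rfl⟩ := hf
    exact Algebra.commutes x g

end ring

variable {D : Type} [Field D] [Algebra ℚ D]

lemma exists_irr (hD : finrank ℚ D = 2) : ∃ w : D, ∀ x : ℚ, w ≠ algebraMap ℚ D x := by
  by_contra hcon
  push Not at hcon
  have h1 : finrank ℚ D ≤ 1 := by
    apply finrank_le_one (1 : D)
    intro w
    obtain ⟨x, hx⟩ := hcon w
    exact ⟨x, by rw [hx, Algebra.smul_def, mul_one]⟩
  omega

lemma num_den (q : ℚ) : (q.den : ℚ) * q = q.num := Rat.den_mul_eq_num q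

/-- a quadratic field is the fraction field of a quadratic order -/
theorem exists_quad (hD : finrank ℚ D = 2) : ∃ (a b : ℤ) (_ : Aniso a b)
    (j : QuadraticAlgebra ℤ a b →+* D), Function.Injective j ∧
      ∀ x : D, ∃ d : ℕ, 1 ≤ d ∧ ∃ z, j z = (d : D) * x := by
  obtain ⟨u, hu⟩ := exists_irr hD
  obtain ⟨⟨α, β⟩, hαβ⟩ := co_surj hD u hu (u * u)
  rw [co_apply] at hαβ
  set d : ℚ := (α.den : ℚ) * β.den with hd
  have hd0 : d ≠ 0 := by
    rw [hd]
    exact mul_ne_zero (by exact_mod_cast α.den_nz) (by exact_mod_cast β.den_nz)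
  have hd0' : algebraMap ℚ D d ≠ 0 := by
    rw [Ne, map_eq_zero]
    exact hd0
  set w : D := algebraMap ℚ D d * u with hw
  set a : ℤ := α.num * α.den * β.den ^ 2 with ha
  set b : ℤ := β.num * α.den with hb
  have ha' : (a : ℚ) = d ^ 2 * α := by
    rw [ha, hd]
    push_cast
    rw [← num_den α]
    ring
  have hb' : (b : ℚ) = d * β := by
    rw [hb, hd]
    push_cast
    rw [← num_den β]
    ring
  have hww : w * w = (a : D) + (b : D) * w := by
    have e1 : (a : D) = algebraMap ℚ D d ^ 2 * algebraMap ℚ D α := by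
      rw [← map_intCast (algebraMap ℚ D), ha', map_mul, map_pow]
    have e2 : (b : D) = algebraMap ℚ D d * algebraMap ℚ D β := by
      rw [← map_intCast (algebraMap ℚ D), hb', map_mul]
    rw [e1, e2, hw]
    linear_combination (-(algebraMap ℚ D d ^ 2)) * hαβ
  have hwirr : ∀ x : ℚ, w ≠ algebraMap ℚ D x := by
    intro x hx
    apply hu (d⁻¹ * x)
    rw [map_mul, ← hx, hw, map_inv₀, ← mul_assoc, inv_mul_cancel₀ hd0', one_mul]
  have hinj : ∀ x y : ℤ, (x : D) + (y : D) * w = 0 → x = 0 ∧ y = 0 := by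
    intro x y h
    have h1 : co w ((x : ℚ), (y : ℚ)) = 0 := by
      rw [co_apply, map_intCast, map_intCast]
      exact h
    have h2 := (map_eq_zero_iff _ (co_inj w hwirr)).mp h1
    rw [Prod.mk_eq_zero] at h2
    exact_mod_cast h2
  let j : QuadraticAlgebra ℤ a b →+* D :=
    { toFun := fun z => (z.re : D) + (z.im : D) * w
      map_one' := by
        rw [QuadraticAlgebra.re_one, QuadraticAlgebra.im_one, Int.cast_one, Int.cast_zero,
          zero_mul, add_zero]
      map_mul' := by
        intro x y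
        rw [QuadraticAlgebra.re_mul, QuadraticAlgebra.im_mul]
        push_cast
        linear_combination (-((x.im : D) * (y.im : D))) * hww
      map_zero' := by
        rw [QuadraticAlgebra.re_zero, QuadraticAlgebra.im_zero, Int.cast_zero, zero_mul, add_zero]
      map_add' := by
        intro x y
        rw [QuadraticAlgebra.re_add, QuadraticAlgebra.im_add]
        push_cast
        ring }
  have hj : ∀ z, j z = (z.re : D) + (z.im : D) * w := fun z => rfl
  refine ⟨a, b, ⟨?_⟩, j, ?_, ?_⟩
  · intro z hz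
    rw [QuadraticAlgebra.norm_def] at hz
    have h1 : ((z.re : D) + (z.im : D) * w) * ((z.re + b * z.im : ℤ) + ((-z.im : ℤ) : D) * w) = 0 := by
      have h2 : (((z.re * z.re + b * z.re * z.im - a * z.im * z.im : ℤ)) : D) = 0 := by
        rw [hz, Int.cast_zero]
      push_cast at h2 ⊢
      linear_combination h2 - ((z.im : D) * (z.im : D)) * hww
    rcases mul_eq_zero.mp h1 with h | h
    · obtain ⟨h3, h4⟩ := hinj _ _ h
      exact QuadraticAlgebra.ext h3 h4
    · obtain ⟨h3, h4⟩ := hinj _ _ h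
      have h5 : z.im = 0 := neg_eq_zero.mp h4
      rw [h5, mul_zero, add_zero] at h3
      exact QuadraticAlgebra.ext h3 h5
  · rw [injective_iff_map_eq_zero]
    intro z hz
    obtain ⟨h3, h4⟩ := hinj _ _ hz
    exact QuadraticAlgebra.ext h3 h4
  · intro x
    obtain ⟨⟨p, q⟩, hpq⟩ := co_surj hD w hwirr x
    rw [co_apply] at hpq
    refine ⟨p.den * q.den, Nat.mul_pos p.pos q.pos, ⟨p.num * q.den, q.num * p.den⟩, ?_⟩
    rw [hj, ← hpq]
    have e2 : ((p.num : ℤ) : D) = (p.den : D) * algebraMap ℚ D p := by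
      rw [← map_intCast (algebraMap ℚ D), ← num_den p, map_mul, map_natCast]
    have e3 : ((q.num : ℤ) : D) = (q.den : D) * algebraMap ℚ D q := by
      rw [← map_intCast (algebraMap ℚ D), ← num_den q, map_mul, map_natCast]
    show (((p.num * q.den : ℤ)) : D) + ((q.num * p.den : ℤ) : D) * w = _
    push_cast
    rw [e2, e3]
    ring

end quad

open Classical in
lemma rep_of_field (D : Type) [Field D] [Algebra ℚ D] (hD : finrank ℚ D = 2)
    (S : Type) [AddCommGroup S] [Module ℚ S] [Module D S] [IsScalarTower ℚ D S]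
    [Module.Finite ℚ S] (h4 : 4 ≤ finrank ℚ S) (G : Type) [Fintype G] (ρ : G → (S →ₗ[D] S))
    (hρ : Submodule.span ℚ (Set.range ρ) = ⊤) :
    ∃ C : ℝ, 0 < C ∧ ∀ r : ℕ, 1 ≤ r →
      (((univ : Finset (G → Finset (Fin r))).filter fun s =>
        ∃ v : S, v ≠ 0 ∧ ∑ y, ((sv (s y) : ℤ) : ℚ) • ρ y v = 0).card : ℝ)
        ≤ C * (r : ℝ) ^ (-(5 / 4) : ℝ) * 2 ^ (r * Fintype.card G) := by
  obtain ⟨a, b, _, j, hj, hden⟩ := exists_quad hD
  exact prob_of_field D j hj hden hD S h4 G ρ hρ

section rep

variable (G : Type) [Group G] [Fintype G] (S : Type) [AddCommGroup S] [Module ℚ S]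
  [Module (MonoidAlgebra ℚ G) S] [IsScalarTower ℚ (MonoidAlgebra ℚ G) S] [Module.Finite ℚ S]

/-- the elements of the group as operators commuting with the endomorphisms -/
noncomputable def rho (y : G) : S →ₗ[Module.End (MonoidAlgebra ℚ G) S] S :=
  Module.toModuleEnd (Module.End (MonoidAlgebra ℚ G) S) S (MonoidAlgebra.single y (1 : ℚ))

lemma rho_apply (y : G) (v : S) : rho G S y v = MonoidAlgebra.single y (1 : ℚ) • v := rfl

lemma toModuleEnd_smul (q : ℚ) (x : MonoidAlgebra ℚ G) :
    Module.toModuleEnd (Module.End (MonoidAlgebra ℚ G) S) S (q • x)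
      = q • Module.toModuleEnd (Module.End (MonoidAlgebra ℚ G) S) S x := by
  apply LinearMap.ext
  intro v
  show (q • x) • v = q • (x • v)
  rw [smul_assoc]

lemma span_rho [IsSimpleModule (MonoidAlgebra ℚ G) S] :
    Submodule.span ℚ (Set.range (rho G S)) = ⊤ := by
  have hfin : Module.Finite (Module.End (MonoidAlgebra ℚ G) S) S :=
    Module.Finite.of_restrictScalars_finite ℚ _ S
  rw [eq_top_iff]
  intro T _
  obtain ⟨x, rfl⟩ := Module.Finite.toModuleEnd_moduleEnd_surjective (R := MonoidAlgebra ℚ G)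
    (M := S) T
  induction x using MonoidAlgebra.induction_linear with
  | zero =>
    rw [map_zero]
    exact Submodule.zero_mem _
  | add f g hf hg =>
    rw [map_add]
    exact Submodule.add_mem _ (hf trivial) (hg trivial)
  | single y q =>
    have h1 : MonoidAlgebra.single y q = q • MonoidAlgebra.single y (1 : ℚ) := by
      rw [MonoidAlgebra.smul_single, smul_eq_mul, mul_one]
    rw [h1, toModuleEnd_smul]
    exact Submodule.smul_mem _ _ (Submodule.subset_span ⟨y, rfl⟩)

open Classical in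
/-- random elements of the group algebra rarely act with kernel -/
theorem rep_prob [IsSimpleModule (MonoidAlgebra ℚ G) S]
    (h2 : finrank ℚ (S →ₗ[MonoidAlgebra ℚ G] S) = 2) (h4 : 4 ≤ finrank ℚ S) :
    ∃ C : ℝ, 0 < C ∧ ∀ r : ℕ, 1 ≤ r →
      (((univ : Finset (G → Finset (Fin r))).filter fun s =>
        ∃ v : S, v ≠ 0 ∧ ∑ y, ((sv (s y) : ℤ) : ℚ) • (MonoidAlgebra.single y (1 : ℚ) • v) = 0).card : ℝ)
        ≤ C * (r : ℝ) ^ (-(5 / 4) : ℝ) * 2 ^ (r * Fintype.card G) := by
  let fld : Field (Module.End (MonoidAlgebra ℚ G) S) :=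
    { (Module.End.instDivisionRing : DivisionRing (Module.End (MonoidAlgebra ℚ G) S)) with
      mul_comm := comm_of_finrank h2 }
  have h := @rep_of_field (Module.End (MonoidAlgebra ℚ G) S) fld _ h2 S _ _ _ _ _ h4 G _
    (rho G S) (span_rho G S)
  exact h

end rep

end Pool.Agent.Lib.MP_938ce2_ag_h65u
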