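import Mathlib
import Pool.Agent.Lib.MP_938ce2_ag_h65u.Rep
import Pool.Agent.Lib.MP_938ce2_ag_h67.Red

/-!
Uniformity in the simple module and in the group.
-/

set_option autoImplicit false
set_option linter.unusedSectionVars false

namespace Pool.Agent.Lib.MP_938ce2_ag_h65u

open Module Finset
open Pool.Agent.Lib.MP_938ce2_ag_h85d (isotypic_numbers)
open Pool.Agent.Lib.MP_938ce2_ag_h67 (finrank_hom_congr)

open Classical in
/-- the elements acting with kernel -/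
noncomputable def ker_set (G : Type) [Group G] [Fintype G] (S : Type) [AddCommGroup S] [Module ℚ S]
    [Module (MonoidAlgebra ℚ G) S] (r : ℕ) : Finset (G → Finset (Fin r)) :=
  (univ : Finset (G → Finset (Fin r))).filter fun s =>
    ∃ v : S, v ≠ 0 ∧ ∑ y, ((sv (s y) : ℤ) : ℚ) • (MonoidAlgebra.single y (1 : ℚ) • v) = 0

lemma mem_ker_set {G : Type} [Group G] [Fintype G] {S : Type} [AddCommGroup S] [Module ℚ S]
    [Module (MonoidAlgebra ℚ G) S] {r : ℕ} (s : G → Finset (Fin r)) :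
    s ∈ ker_set G S r ↔ ∃ v : S, v ≠ 0 ∧
      ∑ y, ((sv (s y) : ℤ) : ℚ) • (MonoidAlgebra.single y (1 : ℚ) • v) = 0 := by
  classical
  unfold ker_set
  rw [Finset.mem_filter]
  exact ⟨fun h => h.2, fun h => ⟨Finset.mem_univ _, h⟩⟩

lemma ker_set_subset {G : Type} [Group G] [Fintype G] {S S' : Type} [AddCommGroup S] [Module ℚ S]
    [Module (MonoidAlgebra ℚ G) S] [IsScalarTower ℚ (MonoidAlgebra ℚ G) S]
    [AddCommGroup S'] [Module ℚ S']
    [Module (MonoidAlgebra ℚ G) S'] [IsScalarTower ℚ (MonoidAlgebra ℚ G) S']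
    (e : S ≃ₗ[MonoidAlgebra ℚ G] S') (r : ℕ) : ker_set G S r ⊆ ker_set G S' r := by
  intro s hs
  rw [mem_ker_set] at hs ⊢
  obtain ⟨v, hv, h⟩ := hs
  refine ⟨e v, ?_, ?_⟩
  · intro h0
    exact hv ((LinearEquiv.map_eq_zero_iff e).mp h0)
  · have h1 := congrArg e h
    rw [map_sum, map_zero] at h1
    rw [← h1]
    refine Finset.sum_congr rfl fun y _ => ?_
    rw [LinearMapClass.map_smul_of_tower e, map_smul]

/-- uniformity in the simple module -/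
theorem unif_S (G : Type) [Group G] [Fintype G] : ∃ C : ℝ, 0 < C ∧
    ∀ (S : Type) [AddCommGroup S] [Module ℚ S]
      [Module (MonoidAlgebra ℚ G) S] [IsScalarTower ℚ (MonoidAlgebra ℚ G) S] [Module.Finite ℚ S]
      [IsSimpleModule (MonoidAlgebra ℚ G) S], finrank ℚ (S →ₗ[MonoidAlgebra ℚ G] S) = 2 →
      4 ≤ finrank ℚ S → ∀ r : ℕ, 1 ≤ r →
      ((ker_set G S r).card : ℝ) ≤ C * (r : ℝ) ^ (-(5 / 4) : ℝ) * 2 ^ (r * Fintype.card G) := by
  have hneP : NeZero (Nat.card G : ℚ) := ⟨by exact_mod_cast Nat.card_pos.ne'⟩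
  obtain ⟨ι, _, S0, k, hS, hall, -, -, -⟩ :=
    isotypic_numbers (K := ℚ) (R := MonoidAlgebra ℚ G) (V := MonoidAlgebra ℚ G)
  have hfin : ∀ i : ι, Module.Finite ℚ (S0 i) := fun i =>
    Module.Finite.of_injective ((S0 i).subtype.restrictScalars ℚ) Subtype.val_injective
  have key : ∀ i : ι, ∃ C : ℝ, 0 < C ∧
      (finrank ℚ (S0 i →ₗ[MonoidAlgebra ℚ G] S0 i) = 2 → 4 ≤ finrank ℚ (S0 i) → ∀ r : ℕ, 1 ≤ r →
      ((ker_set G (S0 i) r).card : ℝ)
        ≤ C * (r : ℝ) ^ (-(5 / 4) : ℝ) * 2 ^ (r * Fintype.card G)) := by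
    intro i
    by_cases h : finrank ℚ (S0 i →ₗ[MonoidAlgebra ℚ G] S0 i) = 2 ∧ 4 ≤ finrank ℚ (S0 i)
    · have := hS i
      obtain ⟨C, hC0, hC⟩ := rep_prob G (S0 i) h.1 h.2
      exact ⟨C, hC0, fun _ _ => hC⟩
    · exact ⟨1, one_pos, fun h1 h2 => absurd ⟨h1, h2⟩ h⟩
  choose C hC0 hC using key
  refine ⟨∑ i, C i + 1, by
    have : 0 ≤ ∑ i, C i := Finset.sum_nonneg fun i _ => (hC0 i).le
    linarith, ?_⟩
  intro S _ _ _ _ _ _ h2 h4 r hr
  obtain ⟨I, ⟨e⟩⟩ := IsSemisimpleRing.exists_linearEquiv_ideal_of_isSimpleModule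
    (MonoidAlgebra ℚ G) S
  have hI : IsSimpleModule (MonoidAlgebra ℚ G) I := IsSimpleModule.congr e.symm
  obtain ⟨i, ⟨e'⟩⟩ := hall I hI
  let E : S ≃ₗ[MonoidAlgebra ℚ G] S0 i := e.trans e'
  have h2' : finrank ℚ (S0 i →ₗ[MonoidAlgebra ℚ G] S0 i) = 2 := by
    rw [← h2]
    exact (finrank_hom_congr E E).symm
  have h4' : 4 ≤ finrank ℚ (S0 i) := by
    rw [← (E.restrictScalars ℚ).finrank_eq]
    exact h4
  have h5 := hC i h2' h4' r hr
  have h6 : ((ker_set G S r).card : ℝ) ≤ (ker_set G (S0 i) r).card := by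
    exact_mod_cast Finset.card_le_card (ker_set_subset E r)
  refine h6.trans (h5.trans ?_)
  have h7 : C i ≤ ∑ i, C i + 1 := by
    have := Finset.single_le_sum (f := C) (fun i _ => (hC0 i).le) (Finset.mem_univ i)
    linarith
  have h8 : (0 : ℝ) ≤ (r : ℝ) ^ (-(5 / 4) : ℝ) * 2 ^ (r * Fintype.card G) := by positivity
  nlinarith [mul_le_mul_of_nonneg_right h7 h8]

/-- uniformity in the group -/
theorem unif (B : ℕ) : ∃ C : ℝ, 0 < C ∧
    ∀ n ≤ B, ∀ (G : Subgroup (Equiv.Perm (Fin n))) [Fintype G] (S : Type) [AddCommGroup S]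
      [Module ℚ S] [Module (MonoidAlgebra ℚ G) S] [IsScalarTower ℚ (MonoidAlgebra ℚ G) S]
      [Module.Finite ℚ S] [IsSimpleModule (MonoidAlgebra ℚ G) S],
      finrank ℚ (S →ₗ[MonoidAlgebra ℚ G] S) = 2 → 4 ≤ finrank ℚ S → ∀ r : ℕ, 1 ≤ r →
      ((ker_set G S r).card : ℝ) ≤ C * (r : ℝ) ^ (-(5 / 4) : ℝ) * 2 ^ (r * Fintype.card G) := by
  have key : ∀ (n : ℕ) (G : Subgroup (Equiv.Perm (Fin n))), ∃ C : ℝ, 0 < C ∧
    ∀ [Fintype G] (S : Type) [AddCommGroup S] [Module ℚ S]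
      [Module (MonoidAlgebra ℚ G) S] [IsScalarTower ℚ (MonoidAlgebra ℚ G) S] [Module.Finite ℚ S]
      [IsSimpleModule (MonoidAlgebra ℚ G) S], finrank ℚ (S →ₗ[MonoidAlgebra ℚ G] S) = 2 →
      4 ≤ finrank ℚ S → ∀ r : ℕ, 1 ≤ r →
      ((ker_set G S r).card : ℝ) ≤ C * (r : ℝ) ^ (-(5 / 4) : ℝ) * 2 ^ (r * Fintype.card G) := by
    intro n G
    let ft : Fintype G := Fintype.ofFinite G
    obtain ⟨C, hC0, hC⟩ := unif_S G
    refine ⟨C, hC0, fun {ft'} => ?_⟩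
    have : ft' = ft := Subsingleton.elim _ _
    subst this
    exact hC
  choose C hC0 hC using key
  have hft : ∀ n, Fintype (Subgroup (Equiv.Perm (Fin n))) := fun n => Fintype.ofFinite _
  refine ⟨∑ n ∈ range (B + 1), ∑ G, C n G + 1, by
    have : 0 ≤ ∑ n ∈ range (B + 1), ∑ G, C n G :=
      Finset.sum_nonneg fun n _ => Finset.sum_nonneg fun G _ => (hC0 n G).le
    linarith, ?_⟩
  intro n hn G _ S _ _ _ _ _ _ h2 h4 r hr
  refine (hC n G S h2 h4 r hr).trans ?_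
  have h7 : C n G ≤ ∑ n ∈ range (B + 1), ∑ G, C n G + 1 := by
    have h8 := Finset.single_le_sum (f := fun n => ∑ G, C n G)
      (fun n _ => Finset.sum_nonneg fun G _ => (hC0 n G).le)
      (Finset.mem_range.mpr (Nat.lt_succ_of_le hn))
    have h9 := Finset.single_le_sum (f := fun G => C n G) (fun G _ => (hC0 n G).le)
      (Finset.mem_univ G)
    linarith
  have h8 : (0 : ℝ) ≤ (r : ℝ) ^ (-(5 / 4) : ℝ) * 2 ^ (r * Fintype.card G) := by positivity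
  nlinarith [mul_le_mul_of_nonneg_right h7 h8]

end Pool.Agent.Lib.MP_938ce2_ag_h65u
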