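import Mathlib
import Pool.Agent.Lib.MP_938ce2_ag_h67.Type
import Pool.Agent.Lib.MP_938ce2_ag_h65u.Unif

/-!
Sign vectors on a transitive set fibred over a group.
-/

set_option autoImplicit false
set_option linter.unusedSectionVars false

namespace Pool.Agent.Lib.MP_938ce2_ag_h65u

open Module MonoidAlgebra Finset
open Pool.Agent.Lib.MP_938ce2_ag_h67 (VV ev ev_ext ev_single ev_add ev_smul ev_sum sg badOf
  mem_badOf)

section fibre

variable {P Ω Q : Type} [Group P] [MulAction P Ω] [MulAction.IsPretransitive P Ω] [Group Q]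
  (φ : P →* Q) (x₀ : Ω)

/-- the map to the group -/
lemma exists_pi (hstab : ∀ τ : P, τ • x₀ = x₀ → φ τ = 1) :
    ∃ π : Ω → Q, ∀ σ : P, π (σ • x₀) = φ σ := by
  choose s hs using fun x : Ω => MulAction.exists_smul_eq P x₀ x
  refine ⟨fun x => φ (s x), fun σ => ?_⟩
  have h1 : φ (σ⁻¹ * s (σ • x₀)) = 1 := by
    apply hstab
    rw [mul_smul, hs, inv_smul_smul]
  rw [map_mul, map_inv] at h1
  exact (inv_mul_eq_one.mp h1).symm

variable {φ x₀} {π : Ω → Q} (hπ : ∀ σ : P, π (σ • x₀) = φ σ)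

include hπ in
lemma pi_smul (τ : P) (x : Ω) : π (τ • x) = φ τ * π x := by
  obtain ⟨σ, rfl⟩ := MulAction.exists_smul_eq P x₀ x
  rw [← mul_smul, hπ, hπ, map_mul]

variable [Fintype Ω] [Fintype Q] [DecidableEq Q] (hφ : Function.Surjective φ)

include hπ hφ in
/-- the fibres have the same number of points -/
lemma exists_r : ∃ r : ℕ, 1 ≤ r ∧ (∀ y : Q, Fintype.card {x // π x = y} = r) ∧
    Fintype.card Ω = r * Fintype.card Q := by
  have h1 : ∀ y : Q, Fintype.card {x // π x = y} = Fintype.card {x // π x = 1} := by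
    intro y
    obtain ⟨τ, hτ⟩ := hφ y
    refine Fintype.card_congr ((MulAction.toPerm τ⁻¹).subtypeEquiv fun x => ?_)
    rw [MulAction.toPerm_apply, pi_smul hπ, map_inv, hτ, inv_mul_eq_one, eq_comm]
  refine ⟨Fintype.card {x // π x = 1}, ?_, h1, ?_⟩
  · apply Fintype.card_pos_iff.mpr
    exact ⟨⟨x₀, by rw [← one_smul P x₀, hπ, map_one]⟩⟩
  · have h2 : Fintype.card Ω = Fintype.card (Σ y : Q, {x // π x = y}) :=
      Fintype.card_congr (Equiv.sigmaFiberEquiv π).symm
    rw [h2, Fintype.card_sigma, Finset.sum_congr rfl fun y _ => h1 y, Finset.sum_const,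
      Finset.card_univ, smul_eq_mul, mul_comm]

end fibre

section count

variable {P Ω Q : Type} [Group P] [Fintype P] [MulAction P Ω] [MulAction.IsPretransitive P Ω]
  [Fintype Ω] [DecidableEq Ω] [Group Q] [Fintype Q] [DecidableEq Q]
  {φ : P →* Q} {x₀ : Ω} {π : Ω → Q} (hπ : ∀ σ : P, π (σ • x₀) = φ σ)
  {r : ℕ} (b : ∀ y : Q, {x // π x = y⁻¹} ≃ Fin r)

/-- the family of subsets of `Fin r` given by a subset of the points -/
def fam (η : Finset Ω) (y : Q) : Finset (Fin r) :=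
  univ.filter fun i => (((b y).symm i : {x // π x = y⁻¹}) : Ω) ∈ η

lemma mem_fam (η : Finset Ω) (y : Q) (i : Fin r) :
    i ∈ fam b η y ↔ (((b y).symm i : {x // π x = y⁻¹}) : Ω) ∈ η := by
  unfold fam
  rw [Finset.mem_filter]
  exact ⟨fun h => h.2, fun h => ⟨Finset.mem_univ _, h⟩⟩

lemma fam_inj : Function.Injective (fam b : Finset Ω → Q → Finset (Fin r)) := by
  intro η η' h
  have key : ∀ (η : Finset Ω) (x : Ω), x ∈ η ↔
      b (π x)⁻¹ ⟨x, by rw [inv_inv]⟩ ∈ fam b η (π x)⁻¹ := by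
    intro η x
    rw [mem_fam, Equiv.symm_apply_apply]
  ext x
  rw [key η x, key η' x, h]

lemma sv_fam (η : Finset Ω) (y : Q) :
    sv (fam b η y) = ∑ x : {x // π x = y⁻¹}, sg η (x : Ω) := by
  have h1 : ∑ x : {x // π x = y⁻¹}, sg η (x : Ω)
      = ∑ i : Fin r, sg η (((b y).symm i : {x // π x = y⁻¹}) : Ω) :=
    (Equiv.sum_comp (b y).symm (fun x : {x // π x = y⁻¹} => sg η (x : Ω))).symm
  rw [h1]
  have h2 : ∀ i : Fin r, sg η (((b y).symm i : {x // π x = y⁻¹}) : Ω)
      = 2 * (if i ∈ fam b η y then 1 else 0) - 1 := by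
    intro i
    unfold sg
    by_cases h : (((b y).symm i : {x // π x = y⁻¹}) : Ω) ∈ η
    · rw [if_pos h, if_pos ((mem_fam b η y i).mpr h)]
      norm_num
    · rw [if_neg h, if_neg (fun h' => h ((mem_fam b η y i).mp h'))]
      norm_num
  rw [Finset.sum_congr rfl fun i _ => h2 i, Finset.sum_sub_distrib, ← Finset.mul_sum,
    Finset.sum_boole, Finset.sum_const, Finset.card_univ, Fintype.card_fin]
  unfold sv
  have h3 : (univ.filter fun i => i ∈ fam b η y) = fam b η y := by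
    ext i
    rw [Finset.mem_filter]
    exact ⟨fun h => h.2, fun h => ⟨Finset.mem_univ _, h⟩⟩
  rw [h3, nsmul_eq_mul, mul_one]

variable (M : Submodule (MonoidAlgebra ℚ P) (VV ℚ P Ω)) [Module (MonoidAlgebra ℚ Q) M]
  [IsScalarTower ℚ (MonoidAlgebra ℚ Q) M] [hne : Nontrivial M]
  (h : ∀ (σ : P) (s : M), (MonoidAlgebra.single (φ σ) (1 : ℚ) : MonoidAlgebra ℚ Q) • s
        = (MonoidAlgebra.single σ (1 : ℚ) : MonoidAlgebra ℚ P) • s)

include hπ h hne in
/-- a bad sign vector gives an element acting with kernel -/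
theorem fam_mem (η : Finset Ω) (hη : η ∈ badOf M) : fam b η ∈ ker_set Q M r := by
  have hfin : Module.Finite ℚ M := Module.Finite.of_injective (M.subtype.restrictScalars ℚ)
    Subtype.val_injective
  obtain ⟨M', ⟨e⟩, horth⟩ := (mem_badOf M η).mp hη
  let L : M →ₗ[ℚ] ℚ :=
    { toFun := fun s => ev ((e s : M') : VV ℚ P Ω) x₀
      map_add' := by
        intro s t
        rw [map_add]
        exact ev_add _ _ _
      map_smul' := by
        intro a s
        rw [LinearMapClass.map_smul_of_tower e]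
        exact ev_smul _ _ _ }
  have hL : ∀ s, L s = ev ((e s : M') : VV ℚ P Ω) x₀ := fun s => rfl
  have hLx : ∀ (s : M) (x : Ω), ev ((e s : M') : VV ℚ P Ω) x
      = L ((MonoidAlgebra.single (π x)⁻¹ (1 : ℚ) : MonoidAlgebra ℚ Q) • s) := by
    intro s x
    obtain ⟨σ, rfl⟩ := MulAction.exists_smul_eq P x₀ x
    rw [hπ, ← map_inv, h, hL, map_smul]
    show _ = ev (MonoidAlgebra.single σ⁻¹ (1 : ℚ) • ((e s : M') : VV ℚ P Ω)) x₀
    rw [ev_single, one_mul, inv_inv]
  let T : M →ₗ[ℚ] M := ∑ y : Q, ((sv (fam b η y) : ℤ) : ℚ) •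
    (Module.toModuleEnd ℚ M (MonoidAlgebra.single y (1 : ℚ) : MonoidAlgebra ℚ Q))
  have hT : ∀ s, T s = ∑ y : Q, ((sv (fam b η y) : ℤ) : ℚ) •
      ((MonoidAlgebra.single y (1 : ℚ) : MonoidAlgebra ℚ Q) • s) := by
    intro s
    show (∑ y : Q, ((sv (fam b η y) : ℤ) : ℚ) •
      (Module.toModuleEnd ℚ M (MonoidAlgebra.single y (1 : ℚ) : MonoidAlgebra ℚ Q))) s = _
    rw [LinearMap.sum_apply]
    rfl
  have hLT : ∀ s, L (T s) = 0 := by
    intro s
    rw [hT, map_sum]
    have h1 := horth _ (e s).2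
    have h2 : ∑ x, (sg η x : ℚ) * ev ((e s : M') : VV ℚ P Ω) x
        = ∑ y : Q, ∑ x : {x // π x = y⁻¹}, (sg η (x : Ω) : ℚ)
          * L ((MonoidAlgebra.single y (1 : ℚ) : MonoidAlgebra ℚ Q) • s) := by
      rw [← Equiv.sum_comp (Equiv.sigmaFiberEquiv π), Fintype.sum_sigma,
        ← Equiv.sum_comp (Equiv.inv Q)]
      refine Finset.sum_congr rfl fun y _ => ?_
      rw [Equiv.inv_apply]
      refine Finset.sum_congr rfl fun x _ => ?_
      show (sg η (x : Ω) : ℚ) * ev ((e s : M') : VV ℚ P Ω) (x : Ω) = _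
      rw [hLx, x.2, inv_inv]
    rw [h2] at h1
    rw [← h1]
    refine Finset.sum_congr rfl fun y _ => ?_
    rw [map_smul, smul_eq_mul, sv_fam, Int.cast_sum, Finset.sum_mul]
  have hLne : ∃ s, L s ≠ 0 := by
    by_contra hcon
    push Not at hcon
    obtain ⟨s, hs⟩ := exists_ne (0 : M)
    apply hs
    apply e.injective
    rw [map_zero]
    apply Subtype.ext
    apply ev_ext
    intro x
    rw [hLx, hcon]
    rfl
  have hninj : ¬ Function.Injective T := by
    intro hinj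
    have hsurj := LinearMap.surjective_of_injective hinj
    obtain ⟨s, hs⟩ := hLne
    obtain ⟨t, rfl⟩ := hsurj s
    exact hs (hLT t)
  rw [← LinearMap.ker_eq_bot, LinearMap.ker_eq_bot'] at hninj
  push Not at hninj
  obtain ⟨v, hv, hv0⟩ := hninj
  rw [mem_ker_set]
  exact ⟨v, hv0, by rw [← hT, hv]⟩

include hπ b h hne in
theorem card_badOf_le : (badOf M).card ≤ (ker_set Q M r).card :=
  Finset.card_le_card_of_injOn (fam b) (fun η hη => fam_mem hπ b M h η hη)
    fun η _ η' _ he => fam_inj b he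

end count

end Pool.Agent.Lib.MP_938ce2_ag_h65u
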