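import Mathlib

/-!
Modules over the group algebra of a quotient group.
-/

set_option autoImplicit false
set_option linter.unusedSectionVars false

namespace Pool.Agent.Lib.MP_938ce2_ag_h65u

open Module MonoidAlgebra

section exist

variable {P Q : Type} [Group P] [Group Q] (φ : P →* Q) (hφ : Function.Surjective φ)
  (S : Type) [AddCommGroup S] [Module ℚ S] [Module (MonoidAlgebra ℚ P) S]
  [IsScalarTower ℚ (MonoidAlgebra ℚ P) S]

/-- a group element as a linear operator -/
noncomputable def opP (σ : P) : S →ₗ[ℚ] S where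
  toFun s := MonoidAlgebra.single σ (1 : ℚ) • s
  map_add' v w := smul_add _ _ _
  map_smul' a v := by
    rw [RingHom.id_apply]
    exact smul_comm _ _ _

lemma opP_apply (σ : P) (s : S) : opP S σ s = MonoidAlgebra.single σ (1 : ℚ) • s := rfl

lemma opP_mul (σ τ : P) : opP S (σ * τ) = opP S σ * opP S τ := by
  apply LinearMap.ext
  intro s
  rw [Module.End.mul_apply, opP_apply, opP_apply, opP_apply, ← mul_smul,
    MonoidAlgebra.single_mul_single, one_mul]

lemma opP_one : opP S (1 : P) = 1 := by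
  apply LinearMap.ext
  intro s
  rw [opP_apply, ← MonoidAlgebra.one_def, one_smul]
  rfl

variable (hK : ∀ σ : P, φ σ = 1 → ∀ s : S, MonoidAlgebra.single σ (1 : ℚ) • s = s)

include hK in
lemma opP_congr {σ τ : P} (h : φ σ = φ τ) : opP S σ = opP S τ := by
  have h1 : φ (σ⁻¹ * τ) = 1 := by rw [map_mul, map_inv, h, inv_mul_cancel]
  have h2 : opP S (σ⁻¹ * τ) = 1 := by
    apply LinearMap.ext
    intro s
    exact hK _ h1 s
  have h3 : opP S τ = opP S σ * opP S (σ⁻¹ * τ) := by rw [← opP_mul, mul_inv_cancel_left]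
  rw [h3, h2, mul_one]

/-- the representation of the quotient group -/
noncomputable def repQ : Q →* Module.End ℚ S where
  toFun y := opP S (Function.surjInv hφ y)
  map_one' := by
    rw [opP_congr φ S hK (τ := 1) (by rw [Function.surjInv_eq hφ, map_one]), opP_one]
  map_mul' y z := by
    rw [← opP_mul]
    apply opP_congr φ S hK
    rw [Function.surjInv_eq hφ, map_mul, Function.surjInv_eq hφ, Function.surjInv_eq hφ]

lemma repQ_apply (σ : P) : repQ φ hφ S hK (φ σ) = opP S σ :=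
  opP_congr φ S hK (by rw [Function.surjInv_eq hφ])

include hφ hK in
/-- the module over the group algebra of the quotient -/
theorem exists_module : ∃ (_ : Module (MonoidAlgebra ℚ Q) S)
    (_ : IsScalarTower ℚ (MonoidAlgebra ℚ Q) S), ∀ (σ : P) (s : S),
      (MonoidAlgebra.single (φ σ) (1 : ℚ) : MonoidAlgebra ℚ Q) • s
        = (MonoidAlgebra.single σ (1 : ℚ) : MonoidAlgebra ℚ P) • s := by
  let f : MonoidAlgebra ℚ Q →ₐ[ℚ] Module.End ℚ S :=
    MonoidAlgebra.lift ℚ (Module.End ℚ S) Q (repQ φ hφ S hK)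
  let inst : Module (MonoidAlgebra ℚ Q) S := Module.compHom S f.toRingHom
  have hdef : ∀ (x : MonoidAlgebra ℚ Q) (s : S), x • s = f x s := fun _ _ => rfl
  refine ⟨inst, ⟨fun a x s => ?_⟩, fun σ s => ?_⟩
  · rw [hdef, hdef, map_smul, LinearMap.smul_apply]
  · rw [hdef, MonoidAlgebra.lift_single, one_smul, repQ_apply]
    rfl

end exist

section transfer

variable {P Q : Type} [Group P] [Group Q] (φ : P →* Q) (hφ : Function.Surjective φ)
  (S : Type) [AddCommGroup S] [Module ℚ S] [Module (MonoidAlgebra ℚ P) S]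
  [IsScalarTower ℚ (MonoidAlgebra ℚ P) S] [Module (MonoidAlgebra ℚ Q) S]
  [IsScalarTower ℚ (MonoidAlgebra ℚ Q) S]
  (h : ∀ (σ : P) (s : S), (MonoidAlgebra.single (φ σ) (1 : ℚ) : MonoidAlgebra ℚ Q) • s
        = (MonoidAlgebra.single σ (1 : ℚ) : MonoidAlgebra ℚ P) • s)

include h in
lemma exists_smul_eq (x : MonoidAlgebra ℚ P) : ∃ y : MonoidAlgebra ℚ Q, ∀ s : S, y • s = x • s := by
  induction x using MonoidAlgebra.induction_linear with
  | zero => exact ⟨0, fun s => by rw [zero_smul, zero_smul]⟩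
  | add f g hf hg =>
    obtain ⟨y, hy⟩ := hf
    obtain ⟨z, hz⟩ := hg
    exact ⟨y + z, fun s => by rw [add_smul, add_smul, hy, hz]⟩
  | single σ a =>
    refine ⟨a • MonoidAlgebra.single (φ σ) (1 : ℚ), fun s => ?_⟩
    have h1 : MonoidAlgebra.single σ a = a • MonoidAlgebra.single σ (1 : ℚ) := by
      rw [MonoidAlgebra.smul_single, smul_eq_mul, mul_one]
    rw [h1, smul_assoc, smul_assoc, h]

include h in
theorem simple_transfer [hs : IsSimpleModule (MonoidAlgebra ℚ P) S] :
    IsSimpleModule (MonoidAlgebra ℚ Q) S := by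
  rw [isSimpleModule_iff_toSpanSingleton_surjective] at hs ⊢
  refine ⟨hs.1, fun s hs0 t => ?_⟩
  obtain ⟨x, hx⟩ := hs.2 s hs0 t
  obtain ⟨y, hy⟩ := exists_smul_eq φ S h x
  refine ⟨y, ?_⟩
  rw [LinearMap.toSpanSingleton_apply] at hx ⊢
  rw [hy, hx]

/-- endomorphisms -/
noncomputable def endTransfer :
    (S →ₗ[MonoidAlgebra ℚ Q] S) ≃ₗ[ℚ] (S →ₗ[MonoidAlgebra ℚ P] S) where
  toFun f := MonoidAlgebra.equivariantOfLinearOfComm (f.restrictScalars ℚ) (by
    intro σ v
    show f (MonoidAlgebra.single σ (1 : ℚ) • v) = MonoidAlgebra.single σ (1 : ℚ) • f v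
    rw [← h, map_smul, h])
  invFun f := MonoidAlgebra.equivariantOfLinearOfComm (f.restrictScalars ℚ) (by
    intro y v
    obtain ⟨σ, rfl⟩ := hφ y
    show f (MonoidAlgebra.single (φ σ) (1 : ℚ) • v) = MonoidAlgebra.single (φ σ) (1 : ℚ) • f v
    rw [h, map_smul, h])
  map_add' f g := rfl
  map_smul' a f := rfl
  left_inv f := rfl
  right_inv f := rfl

include hφ h in
theorem finrank_end_transfer :
    finrank ℚ (S →ₗ[MonoidAlgebra ℚ Q] S) = finrank ℚ (S →ₗ[MonoidAlgebra ℚ P] S) :=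
  (endTransfer φ hφ S h).finrank_eq

end transfer

/-- a quotient group as a permutation group on `Fin n` -/
theorem exists_perm_quot (P : Type) [Group P] (K : Subgroup P) [hKn : K.Normal] [Finite (P ⧸ K)] :
    ∃ (Q : Subgroup (Equiv.Perm (Fin (Nat.card (P ⧸ K))))) (φ : P →* Q),
      Function.Surjective φ ∧ (∀ σ, φ σ = 1 ↔ σ ∈ K) ∧ Nat.card Q = Nat.card (P ⧸ K) := by
  let e : P ⧸ K ≃ Fin (Nat.card (P ⧸ K)) := Finite.equivFin _
  let φ₀ : P →* Equiv.Perm (Fin (Nat.card (P ⧸ K))) :=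
    (e.permCongrHom).toMonoidHom.comp (MulAction.toPermHom P (P ⧸ K))
  have hK : ∀ σ, φ₀ σ = 1 ↔ σ ∈ K := by
    intro σ
    have h1 : φ₀ σ = 1 ↔ MulAction.toPermHom P (P ⧸ K) σ = 1 := by
      show e.permCongrHom (MulAction.toPermHom P (P ⧸ K) σ) = 1 ↔ _
      exact map_eq_one_iff _ (e.permCongrHom).injective
    rw [h1]
    constructor
    · intro h2
      have h3 : σ • ((1 : P) : P ⧸ K) = ((1 : P) : P ⧸ K) :=
        congrArg (fun p : Equiv.Perm (P ⧸ K) => p ((1 : P) : P ⧸ K)) h2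
      have h4 : ((σ * 1 : P) : P ⧸ K) = ((1 : P) : P ⧸ K) := by
        have h5 : σ • ((1 : P) : P ⧸ K) = ((σ • (1 : P) : P) : P ⧸ K) := rfl
        have h6 : σ • ((1 : P) : P ⧸ K) = ((1 : P) : P ⧸ K) :=
          congrArg (fun p : Equiv.Perm (P ⧸ K) => p ((1 : P) : P ⧸ K)) h2
        rw [h5, smul_eq_mul] at h6
        exact h6
      rw [mul_one, eq_comm, QuotientGroup.eq, inv_one, one_mul] at h4
      exact h4
    · intro h2
      apply Equiv.ext
      intro a
      obtain ⟨τ, rfl⟩ := QuotientGroup.mk_surjective a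
      show ((σ * τ : P) : P ⧸ K) = ((τ : P) : P ⧸ K)
      rw [eq_comm, QuotientGroup.eq]
      have h3 := hKn.conj_mem σ h2 τ⁻¹
      rwa [inv_inv, mul_assoc] at h3
  refine ⟨φ₀.range, φ₀.rangeRestrict, MonoidHom.rangeRestrict_surjective _, ?_, ?_⟩
  · intro σ
    rw [← hK σ]
    constructor
    · intro h
      exact congrArg Subtype.val h
    · intro h
      exact Subtype.ext h
  · have hker : φ₀.ker = K := by
      ext σ
      rw [MonoidHom.mem_ker, hK]
    have h1 := Nat.card_congr (QuotientGroup.quotientKerEquivRange φ₀).toEquiv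
    rw [← h1, hker]

end Pool.Agent.Lib.MP_938ce2_ag_h65u
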