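import Mathlib
import Pool.Agent.Lib.MP_938ce2_ag_h67.Kern
import Pool.Agent.Lib.MP_938ce2_ag_h65u.Field

/-!
The order of the image of a group of order prime to `q` in a rational representation is bounded.
-/

set_option autoImplicit false
set_option linter.unusedSectionVars false

namespace Pool.Agent.Lib.MP_938ce2_ag_h65u

open Module Finset MonoidAlgebra
open Pool.Agent.Lib.MP_938ce2_ag_h67

variable {P Ω : Type} [Group P] [Fintype P] [MulAction P Ω] [Fintype Ω] [DecidableEq Ω]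
  (M : Submodule (MonoidAlgebra ℚ P) (VV ℚ P Ω)) (q : ℕ) [Fact q.Prime]

/-- reductions of integral vectors -/
lemma mem_red_of_lat (hq : ¬ q ∣ Fintype.card P) {f : Ω → ℤ} (hf : f ∈ lat M) :
    mkV P (fun x => (f x : ZMod q)) ∈ red M (ZMod q) := by
  have hn := card_ne_zero_mod (P := P) q hq
  refine ⟨mkV P (fun x => (Fintype.card P : ZMod q)⁻¹ * (f x : ZMod q)), ?_⟩
  apply ev_ext
  intro x
  rw [ev_opM, ev_mkV]
  have h1 := congrFun (mat_id M f hf) x
  rw [Matrix.mulVec, dotProduct] at h1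
  have h2 := congrArg (Int.cast : ℤ → ZMod q) h1
  rw [Int.cast_sum] at h2
  have h3 : ∑ y, castM (ZMod q) (mat M) x y *
      ev (mkV P (fun x => (Fintype.card P : ZMod q)⁻¹ * (f x : ZMod q))) y
      = (Fintype.card P : ZMod q)⁻¹ * ∑ y, ((mat M x y * f y : ℤ) : ZMod q) := by
    rw [Finset.mul_sum]
    refine Finset.sum_congr rfl fun y _ => ?_
    rw [ev_mkV, Int.cast_mul]
    show ((mat M x y : ℤ) : ZMod q) * _ = _
    ring
  refine h3.trans ?_
  rw [h2, Pi.smul_apply, smul_eq_mul, Int.cast_mul, Int.cast_natCast, ← mul_assoc,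
    inv_mul_cancel₀ hn, one_mul]

variable {M q}

/-- descent step -/
lemma descent (hq : ¬ q ∣ Fintype.card P) (σ : P)
    (hσ : ∀ u : red M (ZMod q), MonoidAlgebra.single σ (1 : ZMod q) • u = u) (h : Ω → ℤ)
    (hh : h ∈ lat M) (hs : ∑ i ∈ range (orderOf σ), tr (σ ^ i) h = 0) :
    ∃ h' ∈ lat M, h = (q : ℤ) • h' ∧ ∑ i ∈ range (orderOf σ), tr (σ ^ i) h' = 0 := by
  have hqp : q.Prime := Fact.out
  have h1 : ∀ f ∈ lat M, ∀ x, (q : ℤ) ∣ tr σ f x - f x := by
    intro f hf x
    have h2 := hσ ⟨_, mem_red_of_lat M q hq hf⟩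
    have h3 := congrArg (fun u : red M (ZMod q) => ev (u : VV (ZMod q) P Ω) x) h2
    have h4 : ev (MonoidAlgebra.single σ (1 : ZMod q) • mkV P (fun x => (f x : ZMod q))) x
        = (f x : ZMod q) := h3
    rw [ev_single, one_mul, ev_mkV] at h4
    rw [← ZMod.intCast_zmod_eq_zero_iff_dvd, Int.cast_sub, tr_apply, h4, sub_self]
  have h2 : ∀ i : ℕ, ∀ x, (q : ℤ) ∣ tr (σ ^ i) h x - h x := by
    intro i
    induction i with
    | zero =>
      intro x
      rw [pow_zero, tr_one, sub_self]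
      exact dvd_zero _
    | succ i ih =>
      intro x
      have h3 := h1 _ (tr_mem M (σ ^ i) hh) x
      rw [← tr_mul, ← pow_succ'] at h3
      have h4 := dvd_add h3 (ih x)
      rwa [sub_add_sub_cancel] at h4
  have h3 : ∀ x, (q : ℤ) ∣ h x := by
    intro x
    have h4 : (q : ℤ) ∣ ∑ i ∈ range (orderOf σ), (tr (σ ^ i) h x - h x) :=
      Finset.dvd_sum fun i _ => h2 i x
    have h5 : ∑ i ∈ range (orderOf σ), tr (σ ^ i) h x = 0 := by
      have := congrFun hs x
      rwa [Finset.sum_apply] at this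
    rw [Finset.sum_sub_distrib, h5, zero_sub, Finset.sum_const, card_range, dvd_neg,
      nsmul_eq_mul] at h4
    refine (Int.isCoprime_iff_gcd_eq_one.mpr ?_).dvd_of_dvd_mul_left h4
    have h6 : Nat.Coprime q (orderOf σ) := by
      rw [Nat.Prime.coprime_iff_not_dvd hqp]
      intro h7
      exact hq (h7.trans (orderOf_dvd_card))
    exact_mod_cast h6
  have hq0 : (q : ℤ) ≠ 0 := by exact_mod_cast hqp.ne_zero
  have h4 : h = (q : ℤ) • fun x => h x / q := by
    funext x
    rw [Pi.smul_apply, smul_eq_mul, Int.mul_ediv_cancel' (h3 x)]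
  refine ⟨fun x => h x / q, ?_, h4, ?_⟩
  · rw [mem_lat] at hh ⊢
    have h5 : mkV P (fun x => ((h x / (q : ℤ) : ℤ) : ℚ)) = (q : ℚ)⁻¹ • mkV P (fun x => (h x : ℚ)) := by
      apply ev_ext
      intro x
      rw [ev_smul, ev_mkV, ev_mkV]
      have h6 : ((h x : ℤ) : ℚ) = (q : ℚ) * ((h x / (q : ℤ) : ℤ) : ℚ) := by
        conv_lhs => rw [← Int.mul_ediv_cancel' (h3 x)]
        push_cast
        ring
      rw [h6, ← mul_assoc, inv_mul_cancel₀ (by exact_mod_cast hqp.ne_zero), one_mul]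
    rw [h5]
    exact (M.restrictScalars ℚ).smul_mem _ hh
  · have h5 : (q : ℤ) • ∑ i ∈ range (orderOf σ), tr (σ ^ i) (fun x => h x / q) = 0 := by
      rw [Finset.smul_sum, ← hs]
      refine Finset.sum_congr rfl fun i _ => ?_
      rw [← map_smul, ← h4]
    exact (smul_eq_zero.mp h5).resolve_left hq0

/-- elements acting trivially modulo `q` act trivially -/
theorem mem_kerM_of_red (hq : ¬ q ∣ Fintype.card P) (σ : P)
    (hσ : ∀ u : red M (ZMod q), MonoidAlgebra.single σ (1 : ZMod q) • u = u) : σ ∈ kerM M := by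
  have hqp : q.Prime := Fact.out
  have h1 : ∀ n : ℕ, ∀ h ∈ lat M, ∑ i ∈ range (orderOf σ), tr (σ ^ i) h = 0 →
      ∃ h' : Ω → ℤ, h = ((q : ℤ) ^ n) • h' := by
    intro n
    induction n with
    | zero =>
      intro h _ _
      exact ⟨h, by rw [pow_zero, one_smul]⟩
    | succ n ih =>
      intro h hh hs
      obtain ⟨h', hh', he, hs'⟩ := descent hq σ hσ h hh hs
      obtain ⟨h'', he'⟩ := ih h' hh' hs'
      exact ⟨h'', by rw [he, he', smul_smul, pow_succ']⟩
  have h2 : ∀ f ∈ lat M, tr σ f = f := by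
    intro f hf
    have h3 : ∑ i ∈ range (orderOf σ), tr (σ ^ i) (tr σ f - f) = 0 := by
      have h4 : ∀ i ∈ range (orderOf σ), tr (σ ^ i) (tr σ f - f)
          = tr (σ ^ (i + 1)) f - tr (σ ^ i) f := by
        intro i _
        rw [map_sub, ← tr_mul, ← pow_succ]
      rw [Finset.sum_congr rfl h4, Finset.sum_range_sub (fun i => tr (σ ^ i) f), pow_orderOf_eq_one,
        pow_zero, sub_self]
    have h4 : tr σ f - f ∈ lat M := Submodule.sub_mem _ (tr_mem M σ hf) hf
    rw [← sub_eq_zero]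
    funext x
    set c := (tr σ f - f) x with hc
    obtain ⟨h', he⟩ := h1 c.natAbs _ h4 h3
    have h5 : (q : ℤ) ^ c.natAbs ∣ c := ⟨h' x, congrFun he x⟩
    show c = 0
    by_contra hne
    have h6 := Int.natAbs_dvd_natAbs.mpr h5
    rw [Int.natAbs_pow, Int.natAbs_natCast] at h6
    have h7 := Nat.le_of_dvd (Int.natAbs_pos.mpr hne) h6
    have h8 : c.natAbs < q ^ c.natAbs := Nat.lt_pow_self hqp.one_lt
    omega
  intro s
  obtain ⟨d, hd, hz⟩ := common_den (O := ℤ) (F := ℚ) (ι := Ω) (Int.castRingHom ℚ)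
    (fun x => ⟨x.den, x.pos, x.num, by
      rw [eq_intCast, Rat.den_mul_eq_num]⟩) (fun x => ev (s : VV ℚ P Ω) x)
  choose f hf using hz
  have hd0 : (d : ℚ) ≠ 0 := by exact_mod_cast (by omega : d ≠ 0)
  have h3 : mkV P (fun x => (f x : ℚ)) = (d : ℚ) • (s : VV ℚ P Ω) := by
    apply ev_ext
    intro x
    rw [ev_smul, ev_mkV]
    exact hf x
  have h4 : f ∈ lat M := by
    rw [mem_lat, h3]
    exact (M.restrictScalars ℚ).smul_mem _ s.2
  have h5 := h2 f h4
  apply Subtype.ext
  apply ev_ext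
  intro x
  show ev (MonoidAlgebra.single σ (1 : ℚ) • (s : VV ℚ P Ω)) x = ev (s : VV ℚ P Ω) x
  rw [ev_single, one_mul]
  have h6 : ∀ x, ((f x : ℤ) : ℚ) = d * ev (s : VV ℚ P Ω) x := hf
  have h7 := congrFun h5 x
  rw [tr_apply] at h7
  have h8 : (d : ℚ) * ev (s : VV ℚ P Ω) (σ⁻¹ • x) = d * ev (s : VV ℚ P Ω) x := by
    rw [← h6, ← h6, h7]
  exact mul_left_cancel₀ hd0 h8

variable (M q)

/-- group elements acting modulo `q` -/
noncomputable def actU (σ : P) : red M (ZMod q) →ₗ[ZMod q] red M (ZMod q) where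
  toFun u := MonoidAlgebra.single σ (1 : ZMod q) • u
  map_add' u v := _root_.smul_add _ _ _
  map_smul' a v := by
    rw [RingHom.id_apply]
    exact smul_comm _ _ _

/-- the order of the image is bounded -/
theorem card_quot_le (hq : ¬ q ∣ Fintype.card P) :
    Nat.card (P ⧸ kerM M) ≤ q ^ (finrank ℚ M * finrank ℚ M) := by
  have hqp : q.Prime := Fact.out
  have hfin : Module.Finite (ZMod q) (red M (ZMod q)) :=
    Module.Finite.of_injective ((red M (ZMod q)).subtype.restrictScalars (ZMod q))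
      Subtype.val_injective
  have hf : Finite (red M (ZMod q) →ₗ[ZMod q] red M (ZMod q)) :=
    Module.finite_of_finite (ZMod q)
  have h1 : Nat.card (red M (ZMod q) →ₗ[ZMod q] red M (ZMod q))
      = q ^ (finrank ℚ M * finrank ℚ M) := by
    rw [Module.natCard_eq_pow_finrank (K := ZMod q), Module.finrank_linearMap,
      finrank_red_mod M q hq, Nat.card_zmod]
  rw [← h1]
  apply Nat.card_le_card_of_injective (fun g : P ⧸ kerM M => actU M q g.out)
  intro g g' h
  rw [← QuotientGroup.out_eq' g, ← QuotientGroup.out_eq' g', QuotientGroup.eq]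
  apply mem_kerM_of_red hq
  intro u
  have h2 : MonoidAlgebra.single g.out (1 : ZMod q) • u
      = MonoidAlgebra.single g'.out (1 : ZMod q) • u :=
    congrArg (fun T : red M (ZMod q) →ₗ[ZMod q] red M (ZMod q) => T u) h
  have h3 : MonoidAlgebra.single (g.out⁻¹ * g'.out) (1 : ZMod q)
      = MonoidAlgebra.single g.out⁻¹ (1 : ZMod q) * MonoidAlgebra.single g'.out (1 : ZMod q) := by
    rw [MonoidAlgebra.single_mul_single, one_mul]
  rw [h3, mul_smul, ← h2, ← mul_smul, MonoidAlgebra.single_mul_single, one_mul, inv_mul_cancel,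
    ← MonoidAlgebra.one_def, one_smul]

end Pool.Agent.Lib.MP_938ce2_ag_h65u
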