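import Mathlib
import Pool.Agent.Lib.MP_938ce2_ag_h65u.Fibre
import Pool.Agent.Lib.MP_938ce2_ag_h65u.Mink
import Pool.Agent.Lib.MP_938ce2_ag_h65u.Trans
import Pool.Agent.Lib.MP_938ce2_ag_h79.Even

/-!
Simple submodules of bounded dimension with quadratic endomorphism field and full multiplicity.
-/

set_option autoImplicit false
set_option linter.unusedSectionVars false

namespace Pool.Agent.Lib.MP_938ce2_ag_h65u

open Module MonoidAlgebra Finset
open Pool.Agent.Lib.MP_938ce2_ag_h67 (VV ev ev_ext ev_single badOf kerM mem_kerM actL actL_apply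
  finrank_range_add_le)
open Pool.Agent.Lib.MP_938ce2_ag_h79 (four_le_finrank)

/-- The number of sign vectors orthogonal to some copy of `M`, for `M` simple of bounded dimension
with endomorphism field of degree `2` and largest possible multiplicity. -/
theorem small_types (M₀ : ℕ) : ∃ C : ℝ, 0 < C ∧ ∀ (P Ω : Type) [Group P] [Fintype P] [Fintype Ω]
    [DecidableEq Ω] [MulAction P Ω] [MulAction.IsPretransitive P Ω]
    (M : Submodule (MonoidAlgebra ℚ P) (VV ℚ P Ω)) [IsSimpleModule (MonoidAlgebra ℚ P) M],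
    (Fintype.card P).Coprime 6 → 1 ≤ Fintype.card Ω → finrank ℚ M ≤ M₀ →
    finrank ℚ (M →ₗ[MonoidAlgebra ℚ P] M) = 2 →
    finrank ℚ (M →ₗ[MonoidAlgebra ℚ P] VV ℚ P Ω) = finrank ℚ M →
    ((badOf M).card : ℝ) / 2 ^ Fintype.card Ω ≤ C * (Fintype.card Ω : ℝ) ^ (-(5 / 4 : ℝ)) := by
  obtain ⟨C, hC0, hC⟩ := unif (3 ^ (M₀ * M₀))
  refine ⟨C * ((3 : ℝ) ^ (M₀ * M₀)) ^ (5 / 4 : ℝ), by positivity, ?_⟩
  intro P Ω _ _ _ _ _ _ M _ hcop hΩ hm hend hκ
  classical
  have hfin : Module.Finite ℚ M := Module.Finite.of_injective (M.subtype.restrictScalars ℚ)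
    Subtype.val_injective
  have hne : Nontrivial M := IsSimpleModule.nontrivial (MonoidAlgebra ℚ P) M
  have h3 : Fact (Nat.Prime 3) := ⟨Nat.prime_three⟩
  have h3P : ¬ 3 ∣ Fintype.card P := by
    intro h
    have := Nat.dvd_gcd h (show 3 ∣ 6 by norm_num)
    rw [hcop] at this
    norm_num at this
  have hnt : ∃ (σ : P) (s : M), MonoidAlgebra.single σ (1 : ℚ) • s ≠ s := by
    by_contra hcon
    push Not at hcon
    let E : (M →ₗ[MonoidAlgebra ℚ P] M) ≃ₗ[ℚ] (M →ₗ[ℚ] M) :=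
      { toFun := fun f => f.restrictScalars ℚ
        invFun := fun f => MonoidAlgebra.equivariantOfLinearOfComm f (by
          intro σ v
          rw [hcon, hcon])
        map_add' := fun f g => rfl
        map_smul' := fun a f => rfl
        left_inv := fun f => rfl
        right_inv := fun f => rfl }
    have h1 := E.finrank_eq
    rw [hend, finrank_linearMap] at h1
    have h2 : finrank ℚ M ≤ 1 := by
      by_contra h3
      push Not at h3
      nlinarith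
    interval_cases (finrank ℚ M) <;> omega
  have h4 : 4 ≤ finrank ℚ M := four_le_finrank hcop hnt
  obtain ⟨x₀⟩ : Nonempty Ω := Fintype.card_pos_iff.mp hΩ
  obtain ⟨Q, φ, hφ, hφK, hQ⟩ := exists_perm_quot P (kerM M)
  have hstab : ∀ τ : P, τ • x₀ = x₀ → φ τ = 1 := by
    intro τ hτ
    rw [hφK]
    have h1 := finrank_range_add_le M τ x₀ hτ
    rw [hκ] at h1
    have h2 : finrank ℚ (LinearMap.range (actL M τ - 1)) = 0 := by omega
    have h5 := Submodule.finrank_eq_zero.mp h2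
    rw [LinearMap.range_eq_bot] at h5
    have h6 : actL M τ = 1 := sub_eq_zero.mp h5
    intro s
    rw [← actL_apply, h6]
    rfl
  obtain ⟨π, hπ⟩ := exists_pi φ x₀ hstab
  let _ : Fintype Q := Fintype.ofFinite Q
  obtain ⟨r, hr1, hr, hg⟩ := exists_r hπ hφ
  let b : ∀ y : Q, {x // π x = y⁻¹} ≃ Fin r := fun y => Fintype.equivFinOfCardEq (hr y⁻¹)
  obtain ⟨instM, instT, hM⟩ := exists_module φ hφ M (fun σ hσ s => (hφK σ).mp hσ s)
  have hsQ : IsSimpleModule (MonoidAlgebra ℚ Q) M := simple_transfer φ M hM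
  have heQ : finrank ℚ (M →ₗ[MonoidAlgebra ℚ Q] M) = 2 := by
    rw [finrank_end_transfer φ hφ M hM, hend]
  have hn : Nat.card (P ⧸ kerM M) ≤ 3 ^ (M₀ * M₀) :=
    (card_quot_le M 3 h3P).trans (Nat.pow_le_pow_right (by norm_num) (Nat.mul_le_mul hm hm))
  have hbad : ((badOf M).card : ℝ) ≤ (ker_set Q M r).card := by
    exact_mod_cast card_badOf_le hπ b M hM
  have hker := hC _ hn Q M heQ h4 r hr1
  have hcQ : Fintype.card Q = Nat.card (P ⧸ kerM M) := Nat.card_eq_fintype_card.symm.trans hQ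
  have hcQ1 : (1 : ℝ) ≤ Fintype.card Q := by exact_mod_cast Fintype.card_pos
  have hcQ3 : (Fintype.card Q : ℝ) ≤ (3 : ℝ) ^ (M₀ * M₀) := by
    rw [hcQ]
    exact_mod_cast hn
  have hr0 : (0 : ℝ) < r := by exact_mod_cast hr1
  rw [div_le_iff₀ (by positivity)]
  refine hbad.trans (hker.trans ?_)
  rw [← hg]
  have hgr : (Fintype.card Ω : ℝ) = r * Fintype.card Q := by exact_mod_cast hg
  have h6 : (r : ℝ) ^ (-(5 / 4) : ℝ)
      = (Fintype.card Q : ℝ) ^ (5 / 4 : ℝ) * (Fintype.card Ω : ℝ) ^ (-(5 / 4) : ℝ) := by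
    rw [hgr, Real.mul_rpow hr0.le (by linarith), mul_comm, mul_assoc, ← Real.rpow_add (by linarith)]
    norm_num
  rw [h6]
  have h7 : (Fintype.card Q : ℝ) ^ (5 / 4 : ℝ) ≤ ((3 : ℝ) ^ (M₀ * M₀)) ^ (5 / 4 : ℝ) :=
    Real.rpow_le_rpow (by linarith) hcQ3 (by norm_num)
  have h8 : (0 : ℝ) ≤ C * (Fintype.card Ω : ℝ) ^ (-(5 / 4) : ℝ) * 2 ^ Fintype.card Ω := by positivity
  calc _ = (Fintype.card Q : ℝ) ^ (5 / 4 : ℝ)
        * (C * (Fintype.card Ω : ℝ) ^ (-(5 / 4) : ℝ) * 2 ^ Fintype.card Ω) := by ring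
    _ ≤ ((3 : ℝ) ^ (M₀ * M₀)) ^ (5 / 4 : ℝ)
        * (C * (Fintype.card Ω : ℝ) ^ (-(5 / 4) : ℝ) * 2 ^ Fintype.card Ω) :=
        mul_le_mul_of_nonneg_right h7 h8
    _ = _ := by ring

end Pool.Agent.Lib.MP_938ce2_ag_h65u
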