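import Mathlib
import Pool.Agent.Lib.MP_938ce2_ag_h65u.TheoremU

/-!
Almost all abelian varieties with complex multiplication by CM fields with solvable Galois closure,
of degree `2g` with `g` prime to `6`: the Tate classes on all their powers are generated by divisors.
-/

set_option autoImplicit false

namespace Pool.Agent.Results.MP_938ce2_ag.AlmostAllTypes

open Module NumberField
open Pool.Agent.Lib.MP_938ce2_ag_h60 (CMType GeneratedByDivisors conj)

/-- `L` is a Galois CM field which contains a conjugate of the CM field `E` of degree `2g`, for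
instance the Galois closure of `E`. The field `E` has `2 ^ g` CM types, each consists of one embedding
of each pair of complex conjugate ones. -/
theorem result : ∀ η : ℝ, 0 < η → ∃ g₀ : ℕ, ∀ (L E : Type) [Field L] [NumberField L]
      [IsGalois ℚ L] [IsCMField L] [Field E] [NumberField E] [IsCMField E] [Nonempty (E →ₐ[ℚ] L)]
      (g : ℕ), finrank ℚ E = 2 * g → g₀ ≤ g →
      ((g.Coprime 6 ∧ (Group.IsSolvable (L ≃ₐ[ℚ] L) ∨ IsGalois ℚ E)) ∨
        ∃ P : Subgroup (L ≃ₐ[ℚ] L), (Nat.card P).Coprime 6 ∧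
          ∀ φ ψ : E →ₐ[ℚ] L, ∃ σ ∈ P, σ • φ = ψ ∨ σ • φ = conj L • ψ) →
      (Nat.card {Φ : Finset (E →ₐ[ℚ] L) //
          CMType (conj L) Φ ∧ ¬ GeneratedByDivisors (L ≃ₐ[ℚ] L) Φ} : ℝ) ≤ η * 2 ^ g :=
  Pool.Agent.Lib.MP_938ce2_ag_h65u.theoremU

end Pool.Agent.Results.MP_938ce2_ag.AlmostAllTypes
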